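import Pool.Agent.H491R3.AM2
import Pool.Agent.R459.Eq3

set_option autoImplicit false

/-! Automatic sets: the characteristic function of a mixture of the uniform distribution on the accepted integers and of
the uniform distribution on all integers decays. -/

namespace Pool.Agent.H491R4.AF
open Finset
open Pool.Agent.H807R2.Dav
open Pool.Agent.W93.RD
open Pool.Agent.W93.DG
open Pool.Agent.W93.AU
open Pool.Agent.H491R3.AM (good_count gd_far)
open Pool.Agent.R459.Eq (Decays)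
open Pool.Agent.TH872.Mir (farCount)

variable {σ : Type}

/-- the characteristic function at the frequencies with `2 r` good positions -/
lemma char_poly (B : ℕ) (δ : σ → ℕ → σ) (F : σ → Prop) (s0 : σ) (Rich : σ → Prop) (κ : ℕ) (C ρ : ℝ) (k : ℕ)
    (hG : Gro B δ F s0 Rich κ C ρ k) (hρ : 1 < ρ) (hR : ∀ s, Rich s → ∃ u v, u < v ∧ v < B ∧ δ s u = s ∧ δ s v = s)
    (c : ℝ) (hc0 : 0 < c) (hc1 : c ≤ 1 / 4) : ∃ l : ℝ, 0 < l ∧ l < 1 ∧ ∀ m, κ ≤ m → ∀ (θ : ℝ) (r : ℕ),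
    2 * r ≤ gc B (Gd B c) κ m θ →
    ‖Tc B δ F m s0 θ‖ ≤ l ^ r * (1 + C ^ 2 * ((m : ℝ) + 1) ^ k) * Ac B δ F m s0 := by
  have hC1 := hG.C1
  have hC0 : 0 < C := by linarith
  obtain ⟨q, hq⟩ : ∃ q, q = 1 - c / C := ⟨_, rfl⟩
  have hcC : c / C ≤ 1 / 4 := (div_le_self hc0.le hC1).trans hc1
  have hcC0 : 0 < c / C := by positivity
  have hq0 : 0 < q := by rw [hq]; linarith
  have hq1 : q < 1 := by rw [hq]; linarith
  obtain ⟨l, hl⟩ : ∃ l, l = max q (1 / ρ) := ⟨_, rfl⟩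
  have hρ0 : 0 < ρ := by linarith
  have hl1 : l < 1 := by
    rw [hl]
    apply max_lt hq1
    rw [div_lt_one hρ0]; exact hρ
  have hlq : q ≤ l := by rw [hl]; exact le_max_left _ _
  have hlρ : 1 / ρ ≤ l := by rw [hl]; exact le_max_right _ _
  have hl0 : 0 < l := lt_of_lt_of_le hq0 hlq
  refine ⟨l, hl0, hl1, fun m hκm θ r hgc2 => ?_⟩
  have hA0 := Ac_nonneg B δ F m s0
  have h1 := Tc_le B δ F Rich (Gd B c) κ c q hc0.le (by linarith) hq0 hq1.le hR (fun θ h => h) m s0 θ r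
  have h2 := Uc_le B δ F Rich (Gd B c) κ c q C hc0.le (by linarith) hq0 hC0 (by rw [hq]) hR hG.step m s0 θ
  have h3 := Nc_le B δ F Rich (Gd B c) κ ρ hρ.le m s0 θ r
  have hN0 := Nc_nonneg B δ F Rich (Gd B c) κ m s0 θ r
  have h4 : Zc B δ F Rich ρ m s0 ≤ C ^ 2 * ((m : ℝ) + 1) ^ k * Ac B δ F m s0 := by
    refine (hG.zc m).trans ?_
    have e1 := hG.low m hκm
    calc C * ((m : ℝ) + 1) ^ k * ρ ^ m ≤ C * ((m : ℝ) + 1) ^ k * (C * Ac B δ F m s0) := mul_le_mul_of_nonneg_left e1 (by positivity)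
      _ = _ := by ring
  have h5 : ρ ^ r * Nc B δ F Rich (Gd B c) κ m s0 θ r ≤ C ^ 2 * ((m : ℝ) + 1) ^ k * Ac B δ F m s0 := by
    have e1 : ρ ^ (2 * r) * Nc B δ F Rich (Gd B c) κ m s0 θ r ≤ ρ ^ r * (C ^ 2 * ((m : ℝ) + 1) ^ k * Ac B δ F m s0) := by
      refine le_trans ?_ (h3.trans (mul_le_mul_of_nonneg_left h4 (by positivity)))
      exact mul_le_mul_of_nonneg_right (pow_le_pow_right₀ hρ.le hgc2) hN0
    rw [two_mul, pow_add, mul_assoc] at e1
    exact le_of_mul_le_mul_left e1 (by positivity)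
  have h6 : Nc B δ F Rich (Gd B c) κ m s0 θ r ≤ l ^ r * (C ^ 2 * ((m : ℝ) + 1) ^ k * Ac B δ F m s0) := by
    have e1 : Nc B δ F Rich (Gd B c) κ m s0 θ r ≤ (1 / ρ) ^ r * (C ^ 2 * ((m : ℝ) + 1) ^ k * Ac B δ F m s0) := by
      rw [one_div, inv_pow, inv_mul_eq_div, le_div_iff₀ (by positivity), mul_comm]
      exact h5
    refine e1.trans (mul_le_mul_of_nonneg_right (pow_le_pow_left₀ (by positivity) hlρ r) (by positivity))
  have h7 : q ^ r * Uc B δ F Rich (Gd B c) κ c q m s0 θ ≤ l ^ r * Ac B δ F m s0 :=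
    mul_le_mul (pow_le_pow_left₀ hq0.le hlq r) h2 (Uc_nonneg B δ F Rich (Gd B c) κ c q (by linarith) hq0 hR m s0 θ) (by positivity)
  have h8 : l ^ r * (1 + C ^ 2 * ((m : ℝ) + 1) ^ k) * Ac B δ F m s0 = l ^ r * Ac B δ F m s0 + l ^ r * (C ^ 2 * ((m : ℝ) + 1) ^ k * Ac B δ F m s0) := by ring
  linarith

/-- the constant -/
noncomputable def cB (B : ℕ) : ℝ := 4 * ((1 / (2 * (B : ℝ) ^ 2)) / (B.factorial : ℝ)) ^ 2

lemma cB_pos (B : ℕ) (hB : 2 ≤ B) : 0 < cB B := by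
  have hB0 : (0 : ℝ) < B := by exact_mod_cast (by omega : 0 < B)
  have hF0 : (0 : ℝ) < (B.factorial : ℝ) := by exact_mod_cast B.factorial_pos
  unfold cB
  positivity

lemma cB_le (B : ℕ) (hB : 2 ≤ B) : cB B ≤ 1 / 4 := by
  have hB2 : (2 : ℝ) ≤ B := by exact_mod_cast hB
  have hF1 : (1 : ℝ) ≤ (B.factorial : ℝ) := by exact_mod_cast B.factorial_pos
  unfold cB
  have h1 : 1 / (2 * (B : ℝ) ^ 2) ≤ 1 / 8 := by
    apply one_div_le_one_div_of_le (by norm_num)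
    nlinarith
  have h0 : 0 ≤ 1 / (2 * (B : ℝ) ^ 2) := by positivity
  have h2 : (1 / (2 * (B : ℝ) ^ 2)) / (B.factorial : ℝ) ≤ 1 / 8 := (div_le_self h0 hF1).trans h1
  have h3 : 0 ≤ (1 / (2 * (B : ℝ) ^ 2)) / (B.factorial : ℝ) := by positivity
  nlinarith

open Classical in
/-- far from the integers implies good -/
lemma far_gc (B : ℕ) (hB : 2 ≤ B) (κ₀ m : ℕ) (θ : ℝ) : farCount B B.factorial m θ ≤ gc B (Gd B (cB B)) κ₀ m θ + κ₀ := by
  refine le_trans ?_ (good_count B (Gd B (cB B)) κ₀ m θ)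
  unfold farCount
  apply card_le_card
  intro j hj
  rw [mem_filter] at hj ⊢
  refine ⟨hj.1, ?_⟩
  have hB0 : (0 : ℝ) < (B : ℝ) ^ 2 := by
    have : (0 : ℝ) < B := by exact_mod_cast (by omega : 0 < B)
    positivity
  refine gd_far B hB (1 / (2 * (B : ℝ) ^ 2)) (by positivity) ((B.factorial : ℝ) * ((B : ℝ) ^ j * θ)) ((B : ℝ) ^ j * θ) rfl ?_
  have h1 := hj.2 (round ((B.factorial : ℝ) * ((B : ℝ) ^ j * θ)))
  refine lt_of_lt_of_le ?_ h1
  apply one_div_lt_one_div_of_lt hB0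
  linarith

/-- the automaton with one state -/
lemma gro_unit (B : ℕ) (hB : 2 ≤ B) : Gro B (fun (_ : Unit) (_ : ℕ) => ()) (fun _ => True) () (fun _ => True) 0 (B : ℝ) (B : ℝ) 0 := by
  classical
  have hB1 : (1 : ℝ) ≤ B := by exact_mod_cast (by omega : 1 ≤ B)
  have hA : ∀ m, Ac B (fun (_ : Unit) (_ : ℕ) => ()) (fun _ => True) m () = (B : ℝ) ^ m := by
    intro m
    induction m with
    | zero => unfold Ac; simp
    | succ m ih =>
      rw [Ac_succ]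
      simp only [ih, sum_const, card_range, nsmul_eq_mul]
      rw [pow_succ]; ring
  have hZ : ∀ m, Zc B (fun (_ : Unit) (_ : ℕ) => ()) (fun _ => True) (fun _ => True) (B : ℝ) m () = (B : ℝ) ^ m := by
    intro m
    induction m with
    | zero => unfold Zc; simp
    | succ m ih =>
      rw [Zc_succ]
      simp only [ih, sum_const, card_range, nsmul_eq_mul, if_true, one_mul]
      rw [pow_succ]; ring
  refine ⟨hB1, hB1, fun m _ s => ?_, fun m => ?_, fun m _ => ?_, fun l _ n j f hf _ => ?_⟩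
  · rw [hA, hA, pow_succ, mul_comm]
  · rw [hZ, pow_zero, mul_one]
    exact le_mul_of_one_le_left (by positivity) hB1
  · rw [hA]
    exact le_mul_of_one_le_left (by positivity) hB1
  · rw [hA]
    calc ∑ w ∈ range (B ^ l), f w ≤ ∑ _w ∈ range (B ^ l), (1 : ℝ) := sum_le_sum fun w _ => hf w
      _ = (B : ℝ) ^ l := by rw [sum_const, card_range, nsmul_eq_mul, mul_one]; push_cast; rfl
      _ ≤ _ := le_mul_of_one_le_left (by positivity) hB1

open Classical in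
/-- the weights of the mixture -/
noncomputable def mixw (B : ℕ) (δ : σ → ℕ → σ) (F : σ → Prop) (s0 : σ) (m : ℕ) (t : ℝ) (u : ℕ) : ℝ :=
  (1 - t) * (1 / (B : ℝ) ^ m) + t * (if F (run B δ m s0 u) then 1 / Ac B δ F m s0 else 0)

lemma mixw_sum (B : ℕ) (hB : 2 ≤ B) (δ : σ → ℕ → σ) (F : σ → Prop) (s0 : σ) (m : ℕ) (t : ℝ) (hpos : 0 < Ac B δ F m s0) :
    ∑ u ∈ range (B ^ m), mixw B δ F s0 m t u = 1 := by
  classical
  have hB0 : (0 : ℝ) < (B : ℝ) ^ m := by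
    have : (0 : ℝ) < B := by exact_mod_cast (by omega : 0 < B)
    positivity
  have h1 : ∑ u ∈ range (B ^ m), (if F (run B δ m s0 u) then 1 / Ac B δ F m s0 else 0) = 1 := by
    have h2 : ∑ u ∈ range (B ^ m), (if F (run B δ m s0 u) then 1 / Ac B δ F m s0 else 0) =
        1 / Ac B δ F m s0 * ∑ u ∈ range (B ^ m), (if F (run B δ m s0 u) then (1 : ℝ) else 0) := by
      rw [mul_sum]
      apply sum_congr rfl
      intro u _
      split_ifs
      · rw [mul_one]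
      · rw [mul_zero]
    rw [h2, ← Ac_eq B (by omega), one_div, inv_mul_cancel₀ hpos.ne']
  unfold mixw
  rw [sum_add_distrib, ← mul_sum, ← mul_sum, h1, sum_const, card_range, nsmul_eq_mul]
  push_cast
  field_simp
  ring

lemma mixw_char (B : ℕ) (hB : 2 ≤ B) (δ : σ → ℕ → σ) (F : σ → Prop) (s0 : σ) (m : ℕ) (t : ℝ) (c κ : ℤ) (θ : ℝ) :
    ∑ u ∈ range (B ^ m), (mixw B δ F s0 m t u : ℂ) * ee (((c + κ * (u : ℕ) : ℤ) : ℝ) * θ) =
      ee ((c : ℝ) * θ) * (((1 - t) * (1 / (B : ℝ) ^ m) : ℝ) * Tc B (fun (_ : Unit) (_ : ℕ) => ()) (fun _ => True) m () ((κ : ℝ) * θ) +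
        ((t * (1 / Ac B δ F m s0) : ℝ) : ℂ) * Tc B δ F m s0 ((κ : ℝ) * θ)) := by
  classical
  rw [Tc_eq B (by omega), Tc_eq B (by omega), mul_sum, mul_sum, ← sum_add_distrib, mul_sum]
  apply sum_congr rfl
  intro u _
  have e1 : ee (((c + κ * (u : ℕ) : ℤ) : ℝ) * θ) = ee ((c : ℝ) * θ) * ee ((u : ℝ) * ((κ : ℝ) * θ)) := by
    rw [← ee_add]
    congr 1
    push_cast
    ring
  rw [e1]
  unfold mixw
  split_ifs <;> push_cast <;> ring

set_option maxHeartbeats 1000000 in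
/-- **the mixture decays** -/
theorem mix_decays (B : ℕ) (hB : 2 ≤ B) (δ : σ → ℕ → σ) (F : σ → Prop) (s0 : σ) (κ₀ : ℕ) (C ρ : ℝ) (k : ℕ)
    (hG : Gro B δ F s0 (R1 B δ) κ₀ C ρ k) (hρ : 1 < ρ) : ∃ A : ℕ, ∀ m, κ₀ ≤ m → 0 < Ac B δ F m s0 → ∀ κ c : ℤ,
    Decays B B.factorial A m (1 / 2) κ (range (B ^ m)) (mixw B δ F s0 m (1 / (1 + C ^ 2 * ((m : ℝ) + 1) ^ k)))
      (fun u : ℕ => c + κ * u) := by
  classical
  have hB1 : (1 : ℝ) < B := by exact_mod_cast (by omega : 1 < B)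
  obtain ⟨l₁, hl₁, hl₁', h1⟩ := char_poly B δ F s0 (R1 B δ) κ₀ C ρ k hG hρ (fun s hs => hs) (cB B) (cB_pos B hB) (cB_le B hB)
  obtain ⟨l₂, hl₂, hl₂', h2⟩ := char_poly B (fun (_ : Unit) (_ : ℕ) => ()) (fun _ => True) () (fun _ => True) 0 (B : ℝ) (B : ℝ) 0
    (gro_unit B hB) hB1 (fun s _ => ⟨0, 1, by omega, by omega, rfl, rfl⟩) (cB B) (cB_pos B hB) (cB_le B hB)
  obtain ⟨l, hl⟩ : ∃ l, l = max l₁ l₂ := ⟨_, rfl⟩
  have hl1 : l < 1 := by rw [hl]; exact max_lt hl₁' hl₂'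
  have hla : l₁ ≤ l := by rw [hl]; exact le_max_left _ _
  have hlb : l₂ ≤ l := by rw [hl]; exact le_max_right _ _
  have hl0 : 0 < l := lt_of_lt_of_le hl₁ hla
  obtain ⟨D, hD⟩ : ∃ D : ℝ, D = 2 + (B : ℝ) ^ 2 := ⟨_, rfl⟩
  have hD2 : 2 ≤ D := by rw [hD]; nlinarith
  have hD0 : 0 < D := by linarith
  obtain ⟨R, hR⟩ := exists_pow_lt_of_lt_one (show (0 : ℝ) < 1 / (2 * D) by positivity) hl1
  refine ⟨2 * R + κ₀, fun m hm hpos κ c => ?_⟩
  obtain ⟨P, hP⟩ : ∃ P : ℝ, P = 1 + C ^ 2 * ((m : ℝ) + 1) ^ k := ⟨_, rfl⟩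
  have hP1 : 1 ≤ P := by
    rw [hP]
    have : 0 ≤ C ^ 2 * ((m : ℝ) + 1) ^ k := by positivity
    linarith
  have hP0 : 0 < P := by linarith
  rw [← hP]
  have ht0 : 0 ≤ 1 / P := by positivity
  have ht1 : 1 / P ≤ 1 := by rw [div_le_one hP0]; exact hP1
  have hBm : (0 : ℝ) < (B : ℝ) ^ m := by positivity
  have hAu : Ac B (fun (_ : Unit) (_ : ℕ) => ()) (fun _ => True) m () = (B : ℝ) ^ m := by
    rw [Ac_eq B (by omega)]
    simp
  refine ⟨fun u _ => ?_, mixw_sum B hB δ F s0 m _ hpos, fun θ N hN _ => ?_⟩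
  · unfold mixw
    apply add_nonneg
    · exact mul_nonneg (by linarith) (by positivity)
    · apply mul_nonneg ht0
      split_ifs
      · positivity
      · exact le_rfl
  · rw [mixw_char B hB, norm_mul, norm_ee, one_mul]
    have f1 := far_gc B hB κ₀ m ((κ : ℝ) * θ)
    have f2 := far_gc B hB 0 m ((κ : ℝ) * θ)
    have f3 : 2 * (R * (N + 1)) + κ₀ ≤ (2 * R + κ₀) * (N + 1) := by nlinarith
    have g1 := h1 m hm ((κ : ℝ) * θ) (R * (N + 1)) (by omega)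
    have g2 := h2 m (Nat.zero_le _) ((κ : ℝ) * θ) (R * (N + 1)) (by omega)
    rw [← hP] at g1
    rw [hAu, pow_zero, mul_one] at g2
    have g3 : l₁ ^ (R * (N + 1)) ≤ l ^ (R * (N + 1)) := pow_le_pow_left₀ hl₁.le hla _
    have g4 : l₂ ^ (R * (N + 1)) ≤ l ^ (R * (N + 1)) := pow_le_pow_left₀ hl₂.le hlb _
    have g5 : l ^ (R * (N + 1)) ≤ (1 / 2 : ℝ) ^ N * (1 / D) := by
      rw [pow_mul]
      calc (l ^ R) ^ (N + 1) ≤ (1 / (2 * D)) ^ (N + 1) := pow_le_pow_left₀ (by positivity) hR.le _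
        _ = (1 / 2 : ℝ) ^ N * (1 / D) ^ N * (1 / (2 * D)) := by rw [pow_succ, ← mul_pow]; congr 2; ring
        _ ≤ (1 / 2 : ℝ) ^ N * 1 * (1 / D) := by
            have e1 : (1 / D : ℝ) ^ N ≤ 1 := pow_le_one₀ (by positivity) (by rw [div_le_one hD0]; linarith)
            have e2 : 1 / (2 * D) ≤ 1 / D := one_div_le_one_div_of_le hD0 (by linarith)
            gcongr
        _ = _ := by ring
    have n1 : ‖((((1 - 1 / P) * (1 / (B : ℝ) ^ m) : ℝ)) : ℂ) * Tc B (fun (_ : Unit) (_ : ℕ) => ()) (fun _ => True) m () ((κ : ℝ) * θ)‖ ≤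
        l ^ (R * (N + 1)) * (1 + (B : ℝ) ^ 2) := by
      rw [norm_mul, Complex.norm_real, Real.norm_eq_abs, abs_of_nonneg (mul_nonneg (by linarith) (by positivity))]
      calc (1 - 1 / P) * (1 / (B : ℝ) ^ m) * ‖Tc B (fun (_ : Unit) (_ : ℕ) => ()) (fun _ => True) m () ((κ : ℝ) * θ)‖ ≤
          1 * (1 / (B : ℝ) ^ m) * (l ^ (R * (N + 1)) * (1 + (B : ℝ) ^ 2) * (B : ℝ) ^ m) := by
            apply mul_le_mul
            · exact mul_le_mul_of_nonneg_right (by linarith) (by positivity)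
            · refine g2.trans ?_
              exact mul_le_mul_of_nonneg_right (mul_le_mul_of_nonneg_right g4 (by positivity)) hBm.le
            · exact norm_nonneg _
            · positivity
        _ = _ := by field_simp
    have n2 : ‖(((1 / P * (1 / Ac B δ F m s0) : ℝ)) : ℂ) * Tc B δ F m s0 ((κ : ℝ) * θ)‖ ≤ l ^ (R * (N + 1)) := by
      rw [norm_mul, Complex.norm_real, Real.norm_eq_abs, abs_of_nonneg (by positivity)]
      calc 1 / P * (1 / Ac B δ F m s0) * ‖Tc B δ F m s0 ((κ : ℝ) * θ)‖ ≤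
          1 / P * (1 / Ac B δ F m s0) * (l ^ (R * (N + 1)) * P * Ac B δ F m s0) := by
            apply mul_le_mul_of_nonneg_left _ (by positivity)
            refine g1.trans ?_
            exact mul_le_mul_of_nonneg_right (mul_le_mul_of_nonneg_right g3 hP0.le) hpos.le
        _ = _ := by field_simp
    refine (norm_add_le _ _).trans ?_
    have hfin : l ^ (R * (N + 1)) * (1 + (B : ℝ) ^ 2) + l ^ (R * (N + 1)) ≤ (1 / 2 : ℝ) ^ N := by
      calc l ^ (R * (N + 1)) * (1 + (B : ℝ) ^ 2) + l ^ (R * (N + 1)) = l ^ (R * (N + 1)) * D := by rw [hD]; ring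
        _ ≤ ((1 / 2 : ℝ) ^ N * (1 / D)) * D := mul_le_mul_of_nonneg_right g5 hD0.le
        _ = _ := by field_simp
    linarith

end Pool.Agent.H491R4.AF
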