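import Pool.Agent.H491R4.AF1

set_option autoImplicit false

/-! From the random integers with decaying characteristic function to almost all members of automatic sets. -/

namespace Pool.Agent.H491R4.AF
open Finset
open Pool.Agent.W93.AU
open Pool.Agent.R459.Eq (Decays)

variable {σ : Type}

open Classical in
/-- The number of the integers `0 ≤ v < N` with the property `E` whose digits in base `b` (the least significant digit
first) are accepted by the automaton `M`. -/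
noncomputable def acc (b : ℕ) (M : DFA ℕ σ) (N : ℕ) (E : ℕ → Prop) : ℕ :=
  ((range N).filter (fun v => Nat.digits b v ∈ M.accepts ∧ E v)).card

/-- Almost all the integers `c + κ v`, where `v < N` runs through the integers accepted by `M`, have the property `P`; the
proportion of the exceptions is at most `τ`. -/
def AlmostS (b : ℕ) (M : DFA ℕ σ) (N : ℕ) (κ c : ℤ) (τ : ℝ) (P : ℤ → Prop) : Prop :=
  (acc b M N (fun v => ¬ P (c + κ * v)) : ℝ) ≤ τ * acc b M N (fun _ => True)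

lemma acc_mono (b : ℕ) (M : DFA ℕ σ) (N : ℕ) {E E' : ℕ → Prop} (h : ∀ v, v < N → E v → E' v) : acc b M N E ≤ acc b M N E' := by
  classical
  unfold acc
  apply card_le_card
  intro v hv
  rw [mem_filter, mem_range] at hv ⊢
  exact ⟨hv.1, hv.2.1, h v hv.1 hv.2.2⟩

lemma acc_le_card (b : ℕ) (M : DFA ℕ σ) (N : ℕ) (E : ℕ → Prop) (T : Finset ℕ)
    (h : ∀ v, v < N → Nat.digits b v ∈ M.accepts → E v → v ∈ T) : acc b M N E ≤ T.card := by
  classical
  unfold acc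
  apply card_le_card
  intro v hv
  rw [mem_filter, mem_range] at hv
  exact h v hv.1 hv.2.1 hv.2.2

lemma acc_or (b : ℕ) (M : DFA ℕ σ) (N : ℕ) {E E' E'' : ℕ → Prop} (h : ∀ v, v < N → E v → E' v ∨ E'' v) :
    acc b M N E ≤ acc b M N E' + acc b M N E'' := by
  classical
  unfold acc
  refine le_trans (card_le_card ?_) (card_union_le _ _)
  intro v hv
  rw [mem_filter, mem_range] at hv
  rw [mem_union, mem_filter, mem_filter, mem_range]
  rcases h v hv.1 hv.2.2 with h1 | h1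
  · exact Or.inl ⟨hv.1, hv.2.1, h1⟩
  · exact Or.inr ⟨hv.1, hv.2.1, h1⟩

lemma acc_false (b : ℕ) (M : DFA ℕ σ) (N : ℕ) {E : ℕ → Prop} (h : ∀ v, v < N → ¬ E v) : acc b M N E = 0 := by
  classical
  unfold acc
  rw [card_eq_zero, filter_eq_empty_iff]
  intro v hv hv2
  exact h v (mem_range.1 hv) hv2.2

lemma acc_true (b : ℕ) (M : DFA ℕ σ) (N : ℕ) [DecidablePred fun v => Nat.digits b v ∈ M.accepts] :
    acc b M N (fun _ => True) = ((range N).filter fun v => Nat.digits b v ∈ M.accepts).card := by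
  unfold acc
  congr 1
  ext v
  simp only [mem_filter, and_true]

lemma AlmostS.mono {b : ℕ} {M : DFA ℕ σ} {N : ℕ} {κ c : ℤ} {τ : ℝ} {P Q : ℤ → Prop} (h : AlmostS b M N κ c τ P)
    (hPQ : ∀ v, P v → Q v) : AlmostS b M N κ c τ Q := by
  unfold AlmostS at *
  refine le_trans ?_ h
  have h1 := acc_mono b M N (E := fun v : ℕ => ¬ Q (c + κ * v)) (E' := fun v : ℕ => ¬ P (c + κ * v))
    (fun v _ hv hv' => hv (hPQ _ hv'))
  exact Nat.cast_le.2 h1

lemma AlmostS.and {b : ℕ} {M : DFA ℕ σ} {N : ℕ} {κ c : ℤ} {τ τ' : ℝ} {P Q : ℤ → Prop} (h : AlmostS b M N κ c τ P)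
    (h' : AlmostS b M N κ c τ' Q) : AlmostS b M N κ c (τ + τ') (fun v => P v ∧ Q v) := by
  unfold AlmostS at *
  have h1 : (acc b M N (fun v => ¬ (P (c + κ * v) ∧ Q (c + κ * v))) : ℝ) ≤ acc b M N (fun v => ¬ P (c + κ * v)) +
      acc b M N (fun v => ¬ Q (c + κ * v)) := by
    have h2 := acc_or b M N (E := fun v : ℕ => ¬ (P (c + κ * v) ∧ Q (c + κ * v))) (E' := fun v : ℕ => ¬ P (c + κ * v))
      (E'' := fun v : ℕ => ¬ Q (c + κ * v)) (fun v _ hv => by tauto)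
    exact_mod_cast h2
  rw [add_mul]
  linarith

lemma AlmostS.of_all {b : ℕ} {M : DFA ℕ σ} {N : ℕ} {κ c : ℤ} {τ : ℝ} {P : ℤ → Prop} (hτ : 0 ≤ τ) (h : ∀ v, P v) :
    AlmostS b M N κ c τ P := by
  unfold AlmostS
  rw [acc_false b M N fun v _ hv => hv (h _)]
  push_cast
  positivity

lemma AlmostS.le {b : ℕ} {M : DFA ℕ σ} {N : ℕ} {κ c : ℤ} {τ τ' : ℝ} {P : ℤ → Prop} (h : AlmostS b M N κ c τ P) (hτ : τ ≤ τ') :
    AlmostS b M N κ c τ' P := by
  unfold AlmostS at *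
  exact h.trans (mul_le_mul_of_nonneg_right hτ (Nat.cast_nonneg _))

/-- the polynomial factor -/
lemma poly_log (B k : ℕ) (hB : 2 ≤ B) (C : ℝ) (hC : 1 ≤ C) : ∃ N₁ : ℕ, ∀ N : ℕ, N₁ ≤ N →
    C * (1 + C ^ 2 * (((Nat.log B N + 1 : ℕ) : ℝ) + 1) ^ k) ≤ Real.log N ^ (k + 1) := by
  obtain ⟨R, hR⟩ := exists_nat_ge (Real.exp (C * (1 + C ^ 2 * 4 ^ k)))
  refine ⟨R + 3, fun N hN => ?_⟩
  have hC0 : 0 < C := by linarith
  have hNr : (0 : ℝ) < N := by exact_mod_cast (by omega : 0 < N)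
  have hR' : Real.exp (C * (1 + C ^ 2 * 4 ^ k)) ≤ N := hR.trans (by exact_mod_cast (by omega : R ≤ N))
  have h1 : C * (1 + C ^ 2 * 4 ^ k) ≤ Real.log N := by rwa [Real.le_log_iff_exp_le hNr]
  have h2 : 1 ≤ Real.log N := by
    have : 1 ≤ C * (1 + C ^ 2 * 4 ^ k) := by
      have e1 : 0 ≤ C ^ 2 * 4 ^ k := by positivity
      nlinarith
    linarith
  have h3 : ((Nat.log B N : ℕ) : ℝ) ≤ 2 * Real.log N := by
    have e1 : B ^ Nat.log B N ≤ N := Nat.pow_log_le_self B (by omega)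
    have e2 : ((B : ℝ)) ^ Nat.log B N ≤ N := by exact_mod_cast e1
    have hB2 : (2 : ℝ) ≤ B := by exact_mod_cast hB
    have e3 := Real.log_le_log (by positivity) e2
    rw [Real.log_pow] at e3
    have e4 : Real.log 2 ≤ Real.log B := Real.log_le_log (by norm_num) hB2
    have e5 := Real.log_two_gt_d9
    have e6 : ((Nat.log B N : ℕ) : ℝ) * (1 / 2) ≤ (Nat.log B N : ℕ) * Real.log B :=
      mul_le_mul_of_nonneg_left (by linarith) (Nat.cast_nonneg _)
    linarith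
  have h4 : ((Nat.log B N + 1 : ℕ) : ℝ) + 1 ≤ 4 * Real.log N := by
    push_cast
    linarith
  have h5 : (((Nat.log B N + 1 : ℕ) : ℝ) + 1) ^ k ≤ 4 ^ k * Real.log N ^ k := by
    rw [← mul_pow]
    exact pow_le_pow_left₀ (by positivity) h4 k
  have h6 : 1 ≤ Real.log N ^ k := one_le_pow₀ h2
  calc C * (1 + C ^ 2 * (((Nat.log B N + 1 : ℕ) : ℝ) + 1) ^ k) ≤ C * (Real.log N ^ k + C ^ 2 * (4 ^ k * Real.log N ^ k)) := by
        gcongr
    _ = (C * (1 + C ^ 2 * 4 ^ k)) * Real.log N ^ k := by ring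
    _ ≤ Real.log N * Real.log N ^ k := mul_le_mul_of_nonneg_right h1 (by positivity)
    _ = _ := by rw [pow_succ]; ring

/-- **from decaying random integers to automatic sets** -/
theorem aut_almost [Fintype σ] (b : ℕ) (hb : 2 ≤ b) (M : DFA ℕ σ)
    (hS : ∀ k : ℕ, ∃ᶠ N : ℕ in Filter.atTop, Real.log N ^ k < (acc b M N (fun _ => True) : ℝ)) :
    ∃ B A e N₀ : ℕ, 2 ≤ B ∧ ∀ N : ℕ, N₀ ≤ N → ∀ (κ c : ℤ) (τ : ℝ) (P : ℤ → Prop),
    (∀ (ι : Type) (Ω : Finset ι) (w : ι → ℝ) (v : ι → ℤ), Decays B B.factorial A (Nat.log B N + 1) (1 / 2) κ Ω w v →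
      ∀ E : Finset ι, E ⊆ Ω → (∀ i ∈ E, ¬ P (v i)) → ∑ i ∈ E, w i ≤ τ) →
    AlmostS b M N κ c (Real.log N ^ e * τ) P := by
  classical
  obtain ⟨B, δ, F, s0, κ₀, C, ρ, k, hB2, hρ, hG, hrun⟩ := setup b hb M
    (fun k => (hS k).mono (fun N hN => by rwa [acc_true] at hN))
  have hC1 := hG.C1
  have hC0 : 0 < C := by linarith
  obtain ⟨A, hA⟩ := mix_decays B hB2 δ F s0 κ₀ C ρ k hG hρ
  obtain ⟨N₁, hN₁⟩ := poly_log B k hB2 C hC1
  refine ⟨B, A, k + 1, N₁ + B ^ κ₀ + 1, hB2, fun N hN κ c τ P H => ?_⟩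
  obtain ⟨n, hn⟩ : ∃ n, n = Nat.log B N := ⟨_, rfl⟩
  have hNp := hN₁ N (by omega)
  rw [← hn] at H hNp
  have hn1 : κ₀ ≤ n := by
    rw [hn]
    exact (Nat.le_log_iff_pow_le (by omega) (by omega)).2 (by omega)
  have hN1 : B ^ n ≤ N := by rw [hn]; exact Nat.pow_log_le_self B (by omega)
  have hN2 : N < B ^ (n + 1) := by rw [hn]; exact Nat.lt_pow_succ_log_self (by omega) N
  have hρ0 : 0 < ρ := by linarith
  have hpos : 0 < Ac B δ F (n + 1) s0 := by
    have h1 := hG.low (n + 1) (by omega)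
    have h2 : 0 < ρ ^ (n + 1) := by positivity
    by_contra hcon
    push Not at hcon
    have h3 : C * Ac B δ F (n + 1) s0 ≤ 0 := mul_nonpos_of_nonneg_of_nonpos (by linarith) hcon
    linarith
  obtain ⟨Pm, hPm⟩ : ∃ Pm : ℝ, Pm = 1 + C ^ 2 * (((n + 1 : ℕ) : ℝ) + 1) ^ k := ⟨_, rfl⟩
  have hP1 : 1 ≤ Pm := by
    rw [hPm]
    have : 0 ≤ C ^ 2 * (((n + 1 : ℕ) : ℝ) + 1) ^ k := by positivity
    linarith
  have hP0 : 0 < Pm := by linarith
  have hdec := hA (n + 1) (by omega) hpos κ c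
  rw [← hPm] at hdec hNp
  obtain ⟨E, hE⟩ : ∃ E : Finset ℕ, E = (range (B ^ (n + 1))).filter (fun u : ℕ => F (run B δ (n + 1) s0 u) ∧ ¬ P (c + κ * u)) := ⟨_, rfl⟩
  have h1 := H ℕ _ _ _ hdec E (by rw [hE]; exact filter_subset _ _) (by
    intro u hu
    rw [hE, mem_filter] at hu
    exact hu.2.2)
  have h2 : (E.card : ℝ) * (1 / Pm * (1 / Ac B δ F (n + 1) s0)) ≤ τ := by
    refine le_trans ?_ h1
    rw [← nsmul_eq_mul]
    apply card_nsmul_le_sum
    intro u hu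
    rw [hE, mem_filter] at hu
    unfold mixw
    rw [if_pos hu.2.1]
    have e1 : 0 ≤ (1 - 1 / Pm) * (1 / (B : ℝ) ^ (n + 1)) := by
      apply mul_nonneg
      · have : 1 / Pm ≤ 1 := by rw [div_le_one hP0]; exact hP1
        linarith
      · positivity
    linarith
  have h3 : (E.card : ℝ) ≤ τ * (Pm * Ac B δ F (n + 1) s0) := by
    have e1 : (E.card : ℝ) = ((E.card : ℝ) * (1 / Pm * (1 / Ac B δ F (n + 1) s0))) * (Pm * Ac B δ F (n + 1) s0) := by
      field_simp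
    rw [e1]
    exact mul_le_mul_of_nonneg_right h2 (by positivity)
  have hτ0 : 0 ≤ τ := by
    refine le_trans ?_ h2
    positivity
  have h4 : (acc b M N (fun v => ¬ P (c + κ * v)) : ℝ) ≤ E.card := by
    apply Nat.cast_le.2
    apply acc_le_card
    intro v hv hvM hvP
    rw [hE, mem_filter, mem_range]
    have hv2 : v < B ^ (n + 1) := hv.trans hN2
    exact ⟨hv2, (hrun (n + 1) v hv2).2 hvM, hvP⟩
  have h5 : Ac B δ F (n + 1) s0 ≤ C * acc b M N (fun _ => True) := by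
    refine (hG.step n hn1 s0).trans (mul_le_mul_of_nonneg_left ?_ hC0.le)
    rw [acc_true]
    have e1 : Ac B δ F n s0 = (((range (B ^ n)).filter fun v => Nat.digits b v ∈ M.accepts).card : ℝ) := by
      rw [Ac_eq B (by omega), ← sum_filter, sum_const, nsmul_eq_mul, mul_one]
      congr 2
      apply filter_congr
      intro v hv
      exact hrun n v (mem_range.1 hv)
    rw [e1]
    exact_mod_cast card_le_card (filter_subset_filter _ (range_mono hN1))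
  unfold AlmostS
  calc (acc b M N (fun v => ¬ P (c + κ * v)) : ℝ) ≤ τ * (Pm * Ac B δ F (n + 1) s0) := h4.trans h3
    _ ≤ τ * (Pm * (C * acc b M N (fun _ => True))) :=
        mul_le_mul_of_nonneg_left (mul_le_mul_of_nonneg_left h5 hP0.le) hτ0
    _ = τ * ((C * Pm) * acc b M N (fun _ => True)) := by ring
    _ ≤ τ * (Real.log N ^ (k + 1) * acc b M N (fun _ => True)) :=
        mul_le_mul_of_nonneg_left (mul_le_mul_of_nonneg_right hNp (Nat.cast_nonneg _)) hτ0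
    _ = _ := by ring

/-- for properties of all the `x` in `[X, N ^ (1 / W)]` -/
theorem aut_almost_x [Fintype σ] (b : ℕ) (hb : 2 ≤ b) (M : DFA ℕ σ)
    (hS : ∀ k : ℕ, ∃ᶠ N : ℕ in Filter.atTop, Real.log N ^ k < (acc b M N (fun _ => True) : ℝ)) :
    ∃ B A e N₀ : ℕ, 2 ≤ B ∧ ∀ N X W : ℕ, N₀ + 1 ≤ X → 1 ≤ W → ∀ (κ c : ℤ) (τ : ℝ) (P : ℕ → ℤ → Prop), 0 ≤ τ →
    (∀ (ι : Type) (Ω : Finset ι) (w : ι → ℝ) (v : ι → ℤ), Decays B B.factorial A (Nat.log B N + 1) (1 / 2) κ Ω w v →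
      ∀ E : Finset ι, E ⊆ Ω → (∀ i ∈ E, ∃ x : ℕ, X ≤ x ∧ x ^ W ≤ B ^ (Nat.log B N + 1) ∧ ¬ P x (v i)) → ∑ i ∈ E, w i ≤ τ) →
    AlmostS b M N κ c (Real.log N ^ e * τ) (fun n => ∀ x : ℕ, X ≤ x → x ^ W ≤ N → P x n) := by
  obtain ⟨B, A, e, N₀, hB, H⟩ := aut_almost b hb M hS
  refine ⟨B, A, e, N₀, hB, fun N X W hX hW κ c τ P hτ hP => ?_⟩
  by_cases hN : N₀ ≤ N
  · refine H N hN κ c τ _ ?_
    intro ι Ω w v hdec E hE hbad
    refine hP ι Ω w v hdec E hE fun i hi => ?_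
    have h1 := hbad i hi
    push Not at h1
    obtain ⟨x, hx1, hx2, hx3⟩ := h1
    exact ⟨x, hx1, hx2.trans (Nat.lt_pow_succ_log_self (by omega) N).le, hx3⟩
  · apply AlmostS.of_all
    · have : 0 ≤ Real.log N := Real.log_natCast_nonneg N
      positivity
    · intro v x hx1 hx2
      exfalso
      have h1 : x ≤ x ^ W := Nat.le_self_pow (by omega) x
      omega

end Pool.Agent.H491R4.AF
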