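import Pool.Agent.H491R4.AF2
import Pool.Agent.R459.Eq13

set_option autoImplicit false

/-! The distribution functions of systems of real numbers attached to the residue classes, for almost all members of
automatic sets. -/

namespace Pool.Agent.H491R4.AF
open Finset
open Pool.Agent.R459.Eq

variable {σ : Type}

theorem ang_aut [Fintype σ] (b : ℕ) (hb : 2 ≤ b) (M : DFA ℕ σ)
    (hS : ∀ k : ℕ, ∃ᶠ N : ℕ in Filter.atTop, Real.log N ^ k < (acc b M N (fun _ => True) : ℝ)) : ∃ W e : ℕ, 1 ≤ W ∧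
    ∀ κ : ℤ, κ ≠ 0 → ∀ δ : ℝ, 0 < δ → δ ≤ 1 / 2 → ∃ X₀ : ℕ, ∀ X : ℕ, X₀ ≤ X → ∀ N : ℕ, ∀ c : ℤ,
    ∀ (m : ℕ) (a : Fin m → ℕ → ℤ → ℝ), (∀ j, Sys (a j)) →
    AlmostS b M N κ c (Real.log N ^ e * (m * (X : ℝ) ^ (-δ))) (fun n => ∀ x : ℕ, X ≤ x → x ^ W ≤ N → ∀ (j : Fin m) (u : ℝ),
      |(cntA (a j) n x u : ℝ) - ∑ p ∈ pri x, prp (a j) p u| ≤ (x : ℝ) ^ (1 / 2 + δ)) := by
  classical
  obtain ⟨B, A, e, N₀, hB, H⟩ := aut_almost_x b hb M hS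
  obtain ⟨W, hW, K⟩ := ang_all B hB A (1 / 2) (by norm_num) (by norm_num)
  refine ⟨W, e, hW, fun κ hκ δ hδ hδ1 => ?_⟩
  obtain ⟨X₀, J⟩ := K B.factorial κ (Nat.factorial_pos _) hκ δ hδ hδ1
  refine ⟨X₀ + N₀ + 1, fun X hX N c m a ha => ?_⟩
  refine H N X W (by omega) hW κ c _ (fun x n => ∀ (j : Fin m) (u : ℝ),
      |(cntA (a j) n x u : ℝ) - ∑ p ∈ pri x, prp (a j) p u| ≤ (x : ℝ) ^ (1 / 2 + δ)) (by positivity)
    fun ι Ω w v hdec E hE hbad => ?_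
  obtain ⟨k, hk⟩ : ∃ k, k = Nat.log B N + 1 := ⟨_, rfl⟩
  rw [← hk] at hdec hbad
  have hbad' : ∀ i ∈ E, ∃ j ∈ (univ : Finset (Fin m)), ∃ (x : ℕ) (u : ℝ), X ≤ x ∧ x ^ W ≤ B ^ k ∧
        (x : ℝ) ^ (1 / 2 + δ) < |(cntA (a j) (v i) x u : ℝ) - ∑ p ∈ pri x, prp (a j) p u| := by
    intro i hi
    obtain ⟨x, hXx, hxW, h5⟩ := hbad i hi
    push Not at h5
    obtain ⟨j, u, hu⟩ := h5
    exact ⟨j, mem_univ _, x, u, hXx, hxW, hu⟩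
  have h5 := Pool.Agent.R459.Tor.wunion w E (fun i hi => hdec.nonneg i (hE hi)) univ _ hbad' ((X : ℝ) ^ (-δ))
      (fun j _ E' hE' h => J X (by omega) k ι Ω w v hdec (a j) (ha j) E' (hE'.trans hE) h)
  rwa [card_univ, Fintype.card_fin] at h5

end Pool.Agent.H491R4.AF
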