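import Pool.Agent.H491R4.AF2
import Pool.Agent.R459.Bsd4

set_option autoImplicit false

/-! Automatic sets without a loss in the proportion of the exceptions, for `x` larger than a power of `log N`: the mean square
of the logarithm of the product of Birch and Swinnerton-Dyer. -/

namespace Pool.Agent.H491R4.AF
open Finset
open Pool.Agent.H807R2.Dav
open Pool.Agent.TH872.Mir (Far farCount)
open Pool.Agent.R459.Eq
open Pool.Agent.R459.Bsd

/-- the characteristic function is small at the frequencies with many places far from the integers, from `t₀` on -/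
structure DecaysFrom (b F A k t₀ : ℕ) (γ : ℝ) (κ : ℤ) {ι : Type} (Ω : Finset ι) (w : ι → ℝ) (v : ι → ℤ) : Prop where
  nonneg : ∀ i ∈ Ω, 0 ≤ w i
  sum : ∑ i ∈ Ω, w i = 1
  char : ∀ (θ : ℝ) (N : ℕ), t₀ ≤ N → A * (N + 1) ≤ farCount b F k (κ * θ) → A * N ≤ k →
    ‖∑ i ∈ Ω, (w i : ℂ) * ee ((v i : ℝ) * θ)‖ ≤ γ ^ N

/-- **few bad moduli**: the characteristic function is small at all fractions whose denominator is not in a sparse set -/
theorem good_from (b : ℕ) (hb : 2 ≤ b) (A : ℕ) (γ : ℝ) (hγ0 : 0 < γ) (hγ1 : γ < 1) (D B : ℕ) (hD : 1 ≤ D) (hB1 : 1 ≤ B) : ∃ W : ℕ, 1 ≤ W ∧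
    ∀ (F : ℕ) (κ : ℤ), 1 ≤ F → κ ≠ 0 → ∃ (S : Set ℕ) (C : ℝ), 0 < C ∧
    (∀ (M : ℕ) (T : Finset ℕ), (∀ m ∈ T, m ∈ S ∧ 1 ≤ m ∧ m ≤ M) → (T.card : ℝ) ≤ C * (M : ℝ) ^ (1 / (D : ℝ))) ∧
    ∀ (k x t₀ : ℕ), b ≤ x → x ^ W ≤ b ^ k → b ^ t₀ ≤ x →
    ∀ (ι : Type) (Ω : Finset ι) (w : ι → ℝ) (v : ι → ℤ), DecaysFrom b F A k t₀ γ κ Ω w v →
    ∀ m : ℕ, 1 ≤ m → m ≤ x ^ B → m ∉ S → Nat.Coprime b m → ∀ a : ℕ, Nat.Coprime a m →
      ‖∑ i ∈ Ω, (w i : ℂ) * ee ((v i : ℝ) * ((a : ℝ) / (m : ℝ)))‖ ≤ 1 / (x : ℝ) ^ B := by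
  classical
  have hb0 : (0 : ℝ) < b := by exact_mod_cast (by omega : 0 < b)
  have hb1 : (1 : ℝ) < b := by exact_mod_cast (by omega : 1 < b)
  have hDr : (0 : ℝ) < D := by exact_mod_cast hD
  obtain ⟨β, hβ1, hβ⟩ : ∃ β : ℝ, 1 < β ∧ β ^ (4 * D) = b := by
    refine ⟨(b : ℝ) ^ (1 / (4 * D) : ℝ), Real.one_lt_rpow hb1 (by positivity), ?_⟩
    rw [← Real.rpow_natCast, ← Real.rpow_mul hb0.le]
    push_cast
    rw [one_div_mul_cancel (by positivity), Real.rpow_one]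
  have hβ0 : 0 < β := by linarith
  have hβb : β ≤ b := by
    rw [← hβ]
    exact le_self_pow₀ hβ1.le (by omega)
  obtain ⟨z, hz⟩ : ∃ z : ℝ, z = (β - 1) / (2 * b) := ⟨_, rfl⟩
  have hz0 : 0 < z := by rw [hz]; exact div_pos (by linarith) (by linarith)
  have hz1 : z ≤ 1 := by
    rw [hz, div_le_one (by linarith)]
    linarith
  have hz2 : 1 + 2 * b * z = β := by
    rw [hz]
    field_simp
    ring
  obtain ⟨R, hR⟩ := pow_unbounded_of_one_lt (1 / z) hβ1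
  have hR1 : 1 ≤ z * β ^ (R + 1) := by
    have h1 : β ^ R ≤ β ^ (R + 1) := pow_le_pow_right₀ hβ1.le (by omega)
    have h2 : 1 / z < β ^ (R + 1) := lt_of_lt_of_le hR h1
    rw [div_lt_iff₀ hz0] at h2
    linarith
  obtain ⟨g, hg⟩ := exists_pow_lt_of_lt_one (show (0 : ℝ) < (1 / b) ^ B by positivity) hγ1
  obtain ⟨V, hV⟩ : ∃ V, V = 2 * (2 * B + 1) + 2 * (A + 1) * (g + 1) * (R + 1) := ⟨_, rfl⟩
  refine ⟨2 * V, by omega, fun F κ hF hκ => ?_⟩
  obtain ⟨G, hG⟩ : ∃ G : ℤ, G = F * κ := ⟨_, rfl⟩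
  have hG0 : G ≠ 0 := by
    rw [hG]
    exact mul_ne_zero (by exact_mod_cast (by omega : F ≠ 0)) hκ
  have hGn : (0 : ℝ) < ((2 * |G| + 1 : ℤ) : ℝ) := by
    have : (0 : ℤ) < 2 * |G| + 1 := by positivity
    exact_mod_cast this
  obtain ⟨S, hS⟩ : ∃ S : Set ℕ, S = {m | Bad b G (scl b m) (scl b m / (R + 1)) m} := ⟨_, rfl⟩
  have hβ2 : 1 < β ^ 2 := one_lt_pow₀ hβ1 (by norm_num)
  obtain ⟨C, hC⟩ : ∃ C : ℝ, C = ((2 * |G| + 1 : ℤ) : ℝ) * (β ^ 2 / (β ^ 2 - 1)) * (2 * b) := ⟨_, rfl⟩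
  have hC0 : 0 < C := by
    rw [hC]
    have : 0 < β ^ 2 - 1 := by linarith
    positivity
  refine ⟨S, C, hC0, ?_, ?_⟩
  · intro M T hT
    -- the elements of a given scale
    have hone : ∀ K : ℕ, (((T.filter (fun m => scl b m = K)).card : ℕ) : ℝ) ≤ ((2 * |G| + 1 : ℤ) : ℝ) * (β ^ 2) ^ K := by
      intro K
      rcases Finset.eq_empty_or_nonempty (T.filter (fun m => scl b m = K)) with h | h
      · rw [h, card_empty, Nat.cast_zero]
        positivity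
      · obtain ⟨m₀, hm₀, hmax⟩ := exists_max_image _ (fun m => m) h
        rw [mem_filter] at hm₀
        have h1 := bad_card b hb G hG0 K (K / (R + 1)) m₀ (by rw [← hm₀.2]; exact scl_lt b hb m₀) z hz0 hz1
          (T.filter (fun m => scl b m = K)) (by
            intro m hm
            have hm' := hm
            rw [mem_filter] at hm'
            refine ⟨(hT m hm'.1).2.1, hmax m hm, ?_⟩
            have h2 := (hT m hm'.1).1
            rw [hS] at h2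
            have h3 : Bad b G (scl b m) (scl b m / (R + 1)) m := h2
            rw [hm'.2] at h3
            exact h3)
        rw [hz2] at h1
        have h2 : 1 ≤ z ^ (K / (R + 1)) * β ^ K := by
          calc (1 : ℝ) ≤ (z * β ^ (R + 1)) ^ (K / (R + 1)) := one_le_pow₀ hR1
            _ = z ^ (K / (R + 1)) * β ^ ((R + 1) * (K / (R + 1))) := by rw [mul_pow, ← pow_mul]
            _ ≤ z ^ (K / (R + 1)) * β ^ K :=
                mul_le_mul_of_nonneg_left (pow_le_pow_right₀ hβ1.le (Nat.mul_div_le K (R + 1))) (by positivity)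
        obtain ⟨c, hc⟩ : ∃ c : ℝ, c = (((T.filter (fun m => scl b m = K)).card : ℕ) : ℝ) := ⟨_, rfl⟩
        rw [← hc] at h1 ⊢
        have hc0 : 0 ≤ c := by rw [hc]; exact Nat.cast_nonneg _
        calc c = c * 1 := by ring
          _ ≤ c * (z ^ (K / (R + 1)) * β ^ K) := mul_le_mul_of_nonneg_left h2 hc0
          _ = (c * z ^ (K / (R + 1))) * β ^ K := by ring
          _ ≤ (((2 * |G| + 1 : ℤ) : ℝ) * β ^ K) * β ^ K := mul_le_mul_of_nonneg_right h1 (by positivity)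
          _ = _ := by
            rw [← pow_mul, mul_assoc, ← pow_add]
            congr 2
            ring
    rcases Nat.eq_zero_or_pos M with hM0 | hM0
    · have : T = ∅ := by
        rw [eq_empty_iff_forall_notMem]
        intro m hm
        have := hT m hm
        omega
      rw [this, card_empty, Nat.cast_zero]
      positivity
    · have hMr : (1 : ℝ) ≤ M := by exact_mod_cast hM0
      obtain ⟨N, hN⟩ : ∃ N, N = scl b M := ⟨_, rfl⟩
      have hN1 : 1 ≤ N := by rw [hN]; exact scl_pos b hb M hM0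
      have hsub : ∀ m ∈ T, scl b m ∈ range (N + 1) := by
        intro m hm
        rw [mem_range]
        have h1 : scl b m ≤ N := by
          apply scl_le b hb
          rw [hN]
          have h2 := scl_lt b hb M
          have h3 : m ^ 2 ≤ M ^ 2 := Nat.pow_le_pow_left (hT m hm).2.2 2
          omega
        omega
      have h1 : (T.card : ℝ) = ∑ K ∈ range (N + 1), (((T.filter (fun m => scl b m = K)).card : ℕ) : ℝ) := by
        rw [← Nat.cast_sum]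
        congr 1
        exact card_eq_sum_card_fiberwise hsub
      have h2 : ∑ K ∈ range (N + 1), (β ^ 2) ^ K ≤ (β ^ 2 / (β ^ 2 - 1)) * (β ^ 2) ^ N := by
        rw [geom_sum_eq (ne_of_gt hβ2)]
        have h3 : 0 < β ^ 2 - 1 := by linarith
        rw [div_mul_eq_mul_div, div_le_div_iff_of_pos_right h3, pow_succ']
        linarith
      have h3 : (β ^ 2) ^ N ≤ 2 * b * (M : ℝ) ^ (1 / (D : ℝ)) := by
        have h4 : b ^ N ≤ b * (2 * M ^ 2) := by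
          have h5 := Nat.pow_pred_clog_lt_self (by omega : 1 < b) (show 1 < M ^ 2 + 1 by
            have : 1 ≤ M ^ 2 := Nat.one_le_pow _ _ hM0
            omega)
          have h6 : b ^ N = b * b ^ (N.pred) := by
            rw [← pow_succ', Nat.pred_eq_sub_one, Nat.sub_add_cancel hN1]
          rw [h6]
          apply Nat.mul_le_mul_left
          rw [hN]
          unfold scl
          have : 1 ≤ M ^ 2 := Nat.one_le_pow _ _ hM0
          omega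
        have h5 : ((b : ℝ)) ^ N ≤ b * (2 * (M : ℝ) ^ 2) := by exact_mod_cast h4
        have h6 : (β ^ 2) ^ N ^ 1 = (β ^ 2) ^ N := by rw [pow_one]
        have hMp : (0 : ℝ) < (M : ℝ) ^ (1 / (D : ℝ)) := Real.rpow_pos_of_pos (by linarith) _
        apply le_of_pow_le_pow_left₀ (show 2 * D ≠ 0 by omega) (by positivity)
        have e1 : ((β ^ 2) ^ N) ^ (2 * D) = (b : ℝ) ^ N := by
          rw [← hβ, ← pow_mul, ← pow_mul, ← pow_mul]
          congr 1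
          ring
        have e2 : ((M : ℝ) ^ (1 / (D : ℝ))) ^ (2 * D) = (M : ℝ) ^ 2 := by
          rw [← Real.rpow_natCast, ← Real.rpow_mul (by linarith)]
          rw [← Real.rpow_natCast]
          congr 1
          push_cast
          field_simp
        rw [e1, mul_pow, e2]
        refine h5.trans ?_
        have e3 : (b : ℝ) * (2 * (M : ℝ) ^ 2) = (2 * b) * (M : ℝ) ^ 2 := by ring
        rw [e3]
        apply mul_le_mul_of_nonneg_right _ (by positivity)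
        exact le_self_pow₀ (by linarith) (by omega)
      rw [h1, hC]
      calc ∑ K ∈ range (N + 1), (((T.filter (fun m => scl b m = K)).card : ℕ) : ℝ) ≤
          ∑ K ∈ range (N + 1), ((2 * |G| + 1 : ℤ) : ℝ) * (β ^ 2) ^ K := sum_le_sum fun K _ => hone K
        _ = ((2 * |G| + 1 : ℤ) : ℝ) * ∑ K ∈ range (N + 1), (β ^ 2) ^ K := by rw [mul_sum]
        _ ≤ ((2 * |G| + 1 : ℤ) : ℝ) * ((β ^ 2 / (β ^ 2 - 1)) * (β ^ 2) ^ N) := mul_le_mul_of_nonneg_left h2 hGn.le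
        _ ≤ ((2 * |G| + 1 : ℤ) : ℝ) * ((β ^ 2 / (β ^ 2 - 1)) * (2 * b * (M : ℝ) ^ (1 / (D : ℝ)))) := by
            apply mul_le_mul_of_nonneg_left _ hGn.le
            apply mul_le_mul_of_nonneg_left h3
            have h3 : 0 < β ^ 2 - 1 := by linarith
            positivity
        _ = _ := by ring
  · intro k x t₀ hbx hxW ht₀ ι Ω w v hdec m hm hmx hmS hbm a ha
    obtain ⟨Q, hQ⟩ : ∃ Q, Q = Nat.clog b x := ⟨_, rfl⟩
    have hx2 : 2 ≤ x := by omega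
    have hQx : x ≤ b ^ Q := by rw [hQ]; exact Nat.le_pow_clog (by omega) x
    have hQ1 : 1 ≤ Q := by
      rcases Nat.eq_zero_or_pos Q with h | h
      · rw [h, pow_zero] at hQx
        omega
      · exact h
    have hQ2 : b ^ Q ≤ x ^ 2 := by
      have h1 := Nat.pow_pred_clog_lt_self (by omega : 1 < b) (by omega : 1 < x)
      rw [← hQ] at h1
      have h2 : b ^ Q = b * b ^ (Q.pred) := by
        rw [← pow_succ', Nat.pred_eq_sub_one, Nat.sub_add_cancel hQ1]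
      rw [h2, sq]
      exact Nat.mul_le_mul hbx h1.le
    have hVQ : V * Q ≤ k := by
      have h1 : b ^ (V * Q) ≤ b ^ k := by
        calc b ^ (V * Q) = (b ^ Q) ^ V := by rw [← pow_mul, mul_comm]
          _ ≤ (x ^ 2) ^ V := Nat.pow_le_pow_left hQ2 _
          _ = x ^ (2 * V) := by rw [← pow_mul]
          _ ≤ b ^ k := hxW
      exact (Nat.pow_le_pow_iff_right (by omega)).1 h1
    obtain ⟨K, hK⟩ : ∃ K, K = scl b m := ⟨_, rfl⟩
    have hK1 : 1 ≤ K := by rw [hK]; exact scl_pos b hb m hm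
    have hKQ : K ≤ (2 * B + 1) * Q := by
      rw [hK]
      apply scl_le b hb
      have h1 : m ^ 2 ≤ b ^ (2 * B * Q) := by
        calc m ^ 2 ≤ (x ^ B) ^ 2 := Nat.pow_le_pow_left hmx 2
          _ ≤ ((b ^ Q) ^ B) ^ 2 := Nat.pow_le_pow_left (Nat.pow_le_pow_left hQx B) 2
          _ = b ^ (2 * B * Q) := by rw [← pow_mul, ← pow_mul]; congr 1; ring
      have h2 : 1 ≤ b ^ (2 * B * Q) := Nat.one_le_pow _ _ (by omega)
      have h3 : b ^ ((2 * B + 1) * Q) = b ^ (2 * B * Q) * b ^ Q := by rw [← pow_add]; congr 1; ring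
      have h4 : 2 ≤ b ^ Q := hx2.trans hQx
      rw [h3]
      nlinarith
    obtain ⟨L, hL⟩ : ∃ L, L = K / (R + 1) := ⟨_, rfl⟩
    have hL1 : K ≤ (R + 1) * (L + 1) := by
      rw [hL]
      exact (Nat.lt_mul_div_succ K (by omega : 0 < R + 1)).le
    have hnb : ¬ Bad b G K L m := by
      intro h
      apply hmS
      rw [hS]
      show Bad b G (scl b m) (scl b m / (R + 1)) m
      rw [← hK, ← hL]
      exact h
    have h1 := far_many b G K L (k / K) k m hm hbm hnb (Nat.div_mul_le_self k K) a ha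
    rw [hG, far_eq] at h1
    obtain ⟨f, hf⟩ : ∃ f, f = farCount b F k (κ * ((a : ℝ) / m)) := ⟨_, rfl⟩
    rw [← hf] at h1
    have h2 : k ≤ (R + 1) * f + K := by
      have h3 : k < (k / K) * K + K := by
        have := Nat.lt_div_mul_add (a := k) (b := K) (by omega)
        linarith
      have h4 : (k / K) * K ≤ (R + 1) * f := by
        calc (k / K) * K ≤ (k / K) * ((R + 1) * (L + 1)) := Nat.mul_le_mul_left _ hL1
          _ = (R + 1) * ((k / K) * (L + 1)) := by ring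
          _ ≤ _ := Nat.mul_le_mul_left _ h1
      omega
    have hkey : A * (g * Q + 1) ≤ f := by
      have h3 : (A + 1) * ((g + 1) * Q) * (R + 1) ≤ (R + 1) * f := by
        have h4 : V * Q = 2 * ((2 * B + 1) * Q) + 2 * ((A + 1) * ((g + 1) * Q) * (R + 1)) := by
          rw [hV]; ring
        have h5 : (2 * B + 1) * Q + (A + 1) * ((g + 1) * Q) * (R + 1) ≤ k := by
          have : 0 ≤ (2 * B + 1) * Q := Nat.zero_le _
          omega
        omega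
      have h4 : (A + 1) * ((g + 1) * Q) ≤ f := by
        rw [mul_comm] at h3
        exact Nat.le_of_mul_le_mul_left h3 (by omega)
      refine le_trans ?_ h4
      apply Nat.mul_le_mul (by omega)
      nlinarith
    have hkey2 : A * (g * Q) ≤ k := by
      refine le_trans ?_ hVQ
      rw [hV]
      have h3 : A * (g * Q) ≤ (A + 1) * ((g + 1) * Q) := Nat.mul_le_mul (by omega) (Nat.mul_le_mul_right _ (by omega))
      have h4 : (2 * (2 * B + 1) + 2 * (A + 1) * (g + 1) * (R + 1)) * Q =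
          2 * ((2 * B + 1) * Q) + 2 * ((A + 1) * ((g + 1) * Q) * (R + 1)) := by ring
      rw [h4]
      have h5 : (A + 1) * ((g + 1) * Q) ≤ (A + 1) * ((g + 1) * Q) * (R + 1) := Nat.le_mul_of_pos_right _ (by omega)
      omega
    have hg1 : 1 ≤ g := by
      rcases Nat.eq_zero_or_pos g with h | h
      · exfalso
        rw [h, pow_zero] at hg
        have h3 : ((1 : ℝ) / b) ^ B ≤ 1 := pow_le_one₀ (by positivity) (by rw [div_le_one hb0]; linarith)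
        linarith
      · exact h
    have ht1 : t₀ ≤ g * Q := by
      have h3 : t₀ ≤ Q := (Nat.pow_le_pow_iff_right (by omega)).1 (ht₀.trans hQx)
      nlinarith
    have h3 := hdec.char ((a : ℝ) / m) (g * Q) ht1 (by rw [← hf]; exact hkey) hkey2
    refine h3.trans ?_
    rw [pow_mul]
    calc (γ ^ g) ^ Q ≤ ((1 / (b : ℝ)) ^ B) ^ Q := pow_le_pow_left₀ (by positivity) hg.le _
      _ = 1 / ((b : ℝ) ^ Q) ^ B := by
          rw [div_pow, one_pow, div_pow, one_pow, ← pow_mul, ← pow_mul, mul_comm]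
      _ ≤ _ := by
          apply one_div_le_one_div_of_le
          · have : (0 : ℝ) < x := by exact_mod_cast (by omega : 0 < x)
            positivity
          · apply pow_le_pow_left₀ (Nat.cast_nonneg _)
            exact_mod_cast hQx

open Classical in
/-- the second moment with weights -/
theorem wms_from (b : ℕ) (hb : 2 ≤ b) (A : ℕ) (γ : ℝ) (hγ0 : 0 < γ) (hγ1 : γ < 1) : ∃ W : ℕ, 1 ≤ W ∧
    ∀ (F : ℕ) (κ : ℤ), 1 ≤ F → κ ≠ 0 → ∃ (S : Set ℕ) (C : ℝ), 0 < C ∧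
    (∀ (M : ℕ) (T : Finset ℕ), (∀ m ∈ T, m ∈ S ∧ 1 ≤ m ∧ m ≤ M) → (T.card : ℝ) ≤ C * (M : ℝ) ^ (1 / ((4 : ℕ) : ℝ))) ∧
    ∀ (k x t₀ : ℕ), b ≤ x → x ^ W ≤ b ^ k → b ^ t₀ ≤ x →
    ∀ (ι : Type) (Ω : Finset ι) (w : ι → ℝ) (v : ι → ℤ), DecaysFrom b F A k t₀ γ κ Ω w v →
    ∀ P : Finset ℕ, (∀ p ∈ P, p.Prime ∧ p ≤ x ∧ ¬ p ∣ b) → ∀ (f : ℕ → ℤ → ℝ) (c h : ℕ → ℝ), (∀ p, 0 ≤ c p ∧ c p ≤ 1) →
      (∀ p ∈ P, ∀ n, |f p n| ≤ c p) → (∀ p ∈ P, Per p (f p)) → (∀ m, 0 ≤ h m) → (∀ p ∈ P, ∀ q ∈ P, c p * c q ≤ h (p * q)) →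
      ∑ i ∈ Ω, w i * (∑ p ∈ P, (f p (v i) - mean p (f p))) ^ 2 ≤
        4 * ∑ p ∈ P, (c p) ^ 2 + 8 * ∑ m ∈ (Icc 1 (x ^ 2)).filter (fun m => m ∈ S), h m + 1 := by
  obtain ⟨W, hW, H⟩ := good_from b hb A γ hγ0 hγ1 4 5 (by norm_num) (by norm_num)
  refine ⟨W, hW, fun F κ hF hκ => ?_⟩
  obtain ⟨S, C, hC, hcount, hgood⟩ := H F κ hF hκ
  refine ⟨S, C, hC, hcount, fun k x t₀ hbx hxW ht₀ ι Ω w v hdec P hP f c h hc hf hper h0 hh => ?_⟩
  have hx1 : 1 ≤ x := by omega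
  have hx0 : (0 : ℝ) < x := by exact_mod_cast hx1
  have hxr : (1 : ℝ) ≤ x := by exact_mod_cast hx1
  have h1 := vvar Ω w hdec.nonneg hdec.sum v x P (fun p hp => ⟨(hP p hp).1, (hP p hp).2.1⟩) ({()} : Finset Unit) (fun _ => f) c hc
    (by
      intro p hp n
      rw [sum_singleton, ← sq_abs]
      exact pow_le_pow_left₀ (abs_nonneg _) (hf p hp n) 2) (fun _ _ => hper) (1 / (x : ℝ) ^ 5) (by positivity) S
    h h0 hh (by
      intro p hp q hq hpq hin a ha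
      have hpp := (hP p hp).1
      have hqp := (hP q hq).1
      refine hgood k x t₀ hbx hxW ht₀ ι Ω w v hdec (p * q) (Nat.mul_pos hpp.pos hqp.pos) ?_ hin ?_ a ha
      · calc p * q ≤ x * x := Nat.mul_le_mul (hP p hp).2.1 (hP q hq).2.1
          _ = x ^ 2 := by ring
          _ ≤ x ^ 5 := Nat.pow_le_pow_right (by omega) (by norm_num)
      · apply Nat.Coprime.mul_right
        · exact ((Nat.Prime.coprime_iff_not_dvd hpp).2 (hP p hp).2.2).symm
        · exact ((Nat.Prime.coprime_iff_not_dvd hqp).2 (hP q hq).2.2).symm)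
  rw [sum_singleton, card_singleton] at h1
  refine h1.trans ?_
  have hPc : (P.card : ℝ) ≤ x := by
    have h1 : P ⊆ Icc 1 x := by
      intro p hp
      rw [mem_Icc]
      exact ⟨(hP p hp).1.one_le, (hP p hp).2.1⟩
    have h2 := card_le_card h1
    rw [Nat.card_Icc, Nat.add_sub_cancel] at h2
    exact_mod_cast h2
  have h4 : (P.card : ℝ) ^ 2 * (x : ℝ) ^ 2 * (1 / (x : ℝ) ^ 5) ≤ 1 := by
    rw [mul_one_div, div_le_one (by positivity)]
    calc (P.card : ℝ) ^ 2 * (x : ℝ) ^ 2 ≤ (x : ℝ) ^ 2 * (x : ℝ) ^ 2 :=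
          mul_le_mul_of_nonneg_right (pow_le_pow_left₀ (Nat.cast_nonneg _) hPc _) (by positivity)
      _ = (x : ℝ) ^ 4 := by ring
      _ ≤ (x : ℝ) ^ 5 := pow_le_pow_right₀ hxr (by norm_num)
  push_cast
  linarith

/-- the mean square of the logarithm of the product -/
theorem log_ms_from (b : ℕ) (hb : 2 ≤ b) (A : ℕ) (γ : ℝ) (hγ0 : 0 < γ) (hγ1 : γ < 1) : ∃ W : ℕ, 1 ≤ W ∧
    ∀ (F : ℕ) (κ : ℤ), 1 ≤ F → κ ≠ 0 → ∀ a : ℤ, a ≠ 0 → ∃ C : ℝ, 0 < C ∧ ∀ (k x t₀ : ℕ), 16 ≤ x → b ≤ x → x ^ W ≤ b ^ k → b ^ t₀ ≤ x →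
    ∀ (ι : Type) (Ω : Finset ι) (w : ι → ℝ) (v : ι → ℤ), DecaysFrom b F A k t₀ γ κ Ω w v →
      ∑ i ∈ Ω, w i * (∑ p ∈ pri x, GG a p (v i) - Real.log (Real.log x) / 2) ^ 2 ≤ C * Real.log (Real.log x) := by
  classical
  obtain ⟨W, hW, H⟩ := wms_from b hb A γ hγ0 hγ1
  refine ⟨W, hW, fun F κ hF hκ a ha => ?_⟩
  obtain ⟨S, C, hC, hcount, hmain⟩ := H F κ hF hκ
  obtain ⟨p₀, hp₀⟩ : ∃ p₀ : ℕ, p₀ = 29 + a.natAbs + b + 1 := ⟨_, rfl⟩
  obtain ⟨K₁, hK₁, hmert⟩ := mertens p₀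
  obtain ⟨K₂, hK₂, hp32⟩ := sum_p32
  obtain ⟨K₃, hK₃⟩ : ∃ K₃ : ℝ, K₃ = (p₀ : ℝ) * (p₀ : ℝ) ^ 2 := ⟨_, rfl⟩
  obtain ⟨K₄, hK₄⟩ : ∃ K₄ : ℝ, K₄ = 68 * K₂ + K₁ / 2 := ⟨_, rfl⟩
  have hK₃0 : 0 ≤ K₃ := by rw [hK₃]; positivity
  have hK₄0 : 0 ≤ K₄ := by rw [hK₄]; positivity
  refine ⟨3 * (K₃ ^ 2 + K₄ ^ 2 + 36 * (4 * (1 + K₁) + 128 * C + 1)), by positivity, fun k x t₀ hx16 hbx hxW ht₀ ι Ω w v hdec => ?_⟩
  have hxr : (16 : ℝ) ≤ x := by exact_mod_cast hx16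
  obtain ⟨ℓ, hℓ⟩ : ∃ ℓ, ℓ = Real.log (Real.log x) := ⟨_, rfl⟩
  have hℓ1 : 1 ≤ ℓ := by
    have h1 : Real.exp 1 ≤ Real.log x := by
      rw [Real.le_log_iff_exp_le (by linarith)]
      have h2 := Real.exp_one_lt_d9
      calc Real.exp (Real.exp 1) ≤ Real.exp (2.7182818286) := Real.exp_le_exp.2 h2.le
        _ ≤ 16 := by
          have h3 : Real.exp (2.7182818286) = (Real.exp (2.7182818286 / 4)) ^ 4 := by
            rw [← Real.exp_nat_mul]
            congr 1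
            norm_num
          rw [h3]
          have h4 : Real.exp (2.7182818286 / 4) ≤ 2 := by
            have h5 : (2.7182818286 / 4 : ℝ) ≤ Real.log 2 := by
              have := Real.log_two_gt_d9
              norm_num
              linarith
            calc Real.exp (2.7182818286 / 4) ≤ Real.exp (Real.log 2) := Real.exp_le_exp.2 h5
              _ = 2 := Real.exp_log (by norm_num)
          calc (Real.exp (2.7182818286 / 4)) ^ 4 ≤ 2 ^ 4 := pow_le_pow_left₀ (Real.exp_pos _).le h4 4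
            _ = 16 := by norm_num
        _ ≤ x := hxr
    rw [hℓ, Real.le_log_iff_exp_le (lt_of_lt_of_le (Real.exp_pos 1) h1)]
    exact h1
  obtain ⟨P, hP⟩ : ∃ P : Finset ℕ, P = (pri x).filter (fun p => ¬ p < p₀) := ⟨_, rfl⟩
  have hPm : ∀ p ∈ P, p.Prime ∧ p ≤ x ∧ p₀ ≤ p := by
    intro p hp
    rw [hP, mem_filter, mem_pri] at hp
    exact ⟨hp.1.2, hp.1.1, by omega⟩
  have hPb : ∀ p ∈ P, p.Prime ∧ p ≤ x ∧ ¬ p ∣ b := by
    intro p hp
    have h1 := hPm p hp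
    refine ⟨h1.1, h1.2.1, fun h2 => ?_⟩
    have := Nat.le_of_dvd (by omega) h2
    omega
  have hPa : ∀ p ∈ P, ¬ (p : ℤ) ∣ a := by
    intro p hp h2
    have h1 := hPm p hp
    have h3 : p ∣ a.natAbs := Int.natCast_dvd.1 h2
    have := Nat.le_of_dvd (Int.natAbs_pos.2 ha) h3
    omega
  have h1 := hmain k x t₀ hbx hxW ht₀ ι Ω w v hdec P hPb (fun p n => GG a p n / 6) (fun p => 1 / √p) (fun m => 1 / √m)
    (by
      intro p
      refine ⟨by positivity, ?_⟩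
      rcases Nat.eq_zero_or_pos p with h | h
      · rw [h]; simp
      · have : (1 : ℝ) ≤ √p := by rw [Real.one_le_sqrt]; exact_mod_cast h
        rw [div_le_one (by linarith)]
        exact this)
    (by
      intro p hp n
      have h2 := GG_abs (hPm p hp).1 (by have := (hPm p hp).2.2; omega) a n
      rw [abs_div, abs_of_pos (show (0 : ℝ) < 6 by norm_num), div_le_iff₀ (by norm_num)]
      refine h2.trans (le_of_eq (by ring)))
    (by
      intro p hp m n hmn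
      show GG a p m / 6 = GG a p n / 6
      rw [GG_per a p m n hmn])
    (by intro m; positivity)
    (by
      intro p _ q _
      push_cast
      rw [Real.sqrt_mul (Nat.cast_nonneg _), one_div_mul_one_div])
  have hsp : ∑ m ∈ (Icc 1 (x ^ 2)).filter (fun m => m ∈ S), 1 / √(m : ℝ) ≤ 16 * C := by
    apply sparse_sum C hC
    · intro M T' hT'
      refine hcount M T' fun m hm => ?_
      have h2 := hT' m hm
      rw [mem_filter, mem_Icc] at h2
      exact ⟨h2.1.2, h2.1.1.1, h2.2⟩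
    · intro m hm
      rw [mem_filter, mem_Icc] at hm
      exact hm.1.1
  have hc2 : ∑ p ∈ P, (1 / √(p : ℝ)) ^ 2 ≤ ℓ + K₁ := by
    have h2 : ∀ p ∈ P, (1 / √(p : ℝ)) ^ 2 = 1 / p := by
      intro p _
      rw [div_pow, one_pow, Real.sq_sqrt (Nat.cast_nonneg _)]
    rw [sum_congr rfl h2, hP]
    have := (abs_le.1 (hmert x (by omega))).2
    rw [hℓ]
    linarith
  have hmean6 : ∀ p, mean p (fun n => GG a p n / 6) = mean p (GG a p) / 6 := by
    intro p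
    unfold mean
    rw [← sum_div]
    ring
  obtain ⟨Bi, hBi⟩ : ∃ Bi : ι → ℝ, Bi = fun i => ∑ p ∈ P, (GG a p (v i) - mean p (GG a p)) := ⟨_, rfl⟩
  have hB : ∑ i ∈ Ω, w i * (Bi i) ^ 2 ≤ 36 * (4 * (ℓ + K₁) + 128 * C + 1) := by
    have h2 : ∀ i ∈ Ω, w i * (Bi i) ^ 2 = 36 * (w i * (∑ p ∈ P, (GG a p (v i) / 6 - mean p (fun n => GG a p n / 6))) ^ 2) := by
      intro i _
      have h3 : ∑ p ∈ P, (GG a p (v i) / 6 - mean p (fun n => GG a p n / 6)) = Bi i / 6 := by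
        rw [hBi, sum_div]
        apply sum_congr rfl
        intro p _
        rw [hmean6]
        ring
      rw [h3]
      ring
    rw [sum_congr rfl h2, ← mul_sum]
    apply mul_le_mul_of_nonneg_left _ (by norm_num)
    linarith
  have hCc : |∑ p ∈ P, mean p (GG a p) - ℓ / 2| ≤ K₄ := by
    have h2 : |∑ p ∈ P, (mean p (GG a p) - 1 / (2 * p))| ≤ 68 * K₂ := by
      refine (abs_sum_le_sum_abs _ _).trans ?_
      have h3 : ∀ p ∈ P, |mean p (GG a p) - 1 / (2 * p)| ≤ 68 * (1 / ((p : ℝ) * √p)) := by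
        intro p hp
        have := mean_GG (hPm p hp).1 (by have := (hPm p hp).2.2; omega) a (hPa p hp)
        refine this.trans (le_of_eq (by ring))
      refine (sum_le_sum h3).trans ?_
      rw [← mul_sum]
      exact mul_le_mul_of_nonneg_left (hp32 P) (by norm_num)
    have h3 : ∑ p ∈ P, mean p (GG a p) - ℓ / 2 = ∑ p ∈ P, (mean p (GG a p) - 1 / (2 * p)) + (∑ p ∈ P, (1 : ℝ) / p - ℓ) / 2 := by
      rw [sum_sub_distrib]
      have h4 : ∑ p ∈ P, (1 : ℝ) / (2 * p) = (∑ p ∈ P, (1 : ℝ) / p) / 2 := by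
        rw [sum_div]
        apply sum_congr rfl
        intro p _
        rw [div_div, mul_comm]
      rw [h4]
      ring
    rw [h3, hK₄]
    refine (abs_add_le _ _).trans (add_le_add h2 ?_)
    rw [abs_div, abs_of_pos (show (0 : ℝ) < 2 by norm_num), hP, hℓ]
    exact div_le_div_of_nonneg_right (hmert x (by omega)) (by norm_num)
  have hA : ∀ i, |∑ p ∈ (pri x).filter (fun p => p < p₀), GG a p (v i)| ≤ K₃ := by
    intro i
    refine (abs_sum_le_sum_abs _ _).trans ?_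
    have h2 : ∀ p ∈ (pri x).filter (fun p => p < p₀), |GG a p (v i)| ≤ (p₀ : ℝ) ^ 2 := by
      intro p hp
      rw [mem_filter, mem_pri] at hp
      refine (GG_crude hp.1.2 a (v i)).trans ?_
      apply pow_le_pow_left₀ (Nat.cast_nonneg _)
      exact_mod_cast hp.2.le
    refine (sum_le_card_nsmul _ _ _ h2).trans ?_
    rw [nsmul_eq_mul, hK₃]
    apply mul_le_mul_of_nonneg_right _ (by positivity)
    have h5 : (pri x).filter (fun p => p < p₀) ⊆ range p₀ := by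
      intro p hp
      rw [mem_range]
      exact (mem_filter.1 hp).2
    have h6 := card_le_card h5
    rw [card_range] at h6
    exact_mod_cast h6
  rw [← hℓ]
  have hterm : ∀ i ∈ Ω, w i * (∑ p ∈ pri x, GG a p (v i) - ℓ / 2) ^ 2 ≤ 3 * (K₃ ^ 2 + K₄ ^ 2) * w i + 3 * (w i * (Bi i) ^ 2) := by
    intro i hi
    obtain ⟨α, hα⟩ : ∃ α, α = ∑ p ∈ (pri x).filter (fun p => p < p₀), GG a p (v i) := ⟨_, rfl⟩
    obtain ⟨β, hβ⟩ : ∃ β, β = ∑ p ∈ P, mean p (GG a p) - ℓ / 2 := ⟨_, rfl⟩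
    have h2 : ∑ p ∈ pri x, GG a p (v i) - ℓ / 2 = α + Bi i + β := by
      rw [sum_pri_split p₀, ← hP, hα, hβ, hBi]
      simp only [sum_sub_distrib]
      ring
    have h3 : α ^ 2 ≤ K₃ ^ 2 := by
      rw [← sq_abs, hα]
      exact pow_le_pow_left₀ (abs_nonneg _) (hA i) 2
    have h4 : β ^ 2 ≤ K₄ ^ 2 := by
      rw [← sq_abs, hβ]
      exact pow_le_pow_left₀ (abs_nonneg _) hCc 2
    rw [h2]
    have h5 : (α + Bi i + β) ^ 2 ≤ 3 * (K₃ ^ 2 + K₄ ^ 2) + 3 * (Bi i) ^ 2 := by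
      nlinarith [sq_nonneg (α - Bi i), sq_nonneg (α - β), sq_nonneg (Bi i - β)]
    have h6 := hdec.nonneg i hi
    calc w i * (α + Bi i + β) ^ 2 ≤ w i * (3 * (K₃ ^ 2 + K₄ ^ 2) + 3 * (Bi i) ^ 2) := mul_le_mul_of_nonneg_left h5 h6
      _ = _ := by ring
  refine (sum_le_sum hterm).trans ?_
  rw [sum_add_distrib, ← mul_sum, hdec.sum, ← mul_sum]
  have h7 : 0 ≤ K₃ ^ 2 + K₄ ^ 2 := by positivity
  have h8 : 36 * (4 * (ℓ + K₁) + 128 * C + 1) ≤ 36 * (4 * (1 + K₁) + 128 * C + 1) * ℓ := by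
    have : 0 ≤ K₁ * (ℓ - 1) := mul_nonneg hK₁ (by linarith)
    have : 0 ≤ C * (ℓ - 1) := mul_nonneg hC.le (by linarith)
    nlinarith
  have h9 : K₃ ^ 2 + K₄ ^ 2 ≤ (K₃ ^ 2 + K₄ ^ 2) * ℓ := le_mul_of_one_le_right h7 hℓ1
  nlinarith

variable {σ : Type}

set_option maxHeartbeats 1000000 in
/-- **the uniform distribution decays from `t₀` on** -/
theorem unif_decays (B : ℕ) (hB : 2 ≤ B) (δ : σ → ℕ → σ) (F : σ → Prop) (s0 : σ) (κ₀ : ℕ) (C ρ : ℝ) (k : ℕ)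
    (hG : Pool.Agent.W93.AU.Gro B δ F s0 (Pool.Agent.W93.AU.R1 B δ) κ₀ C ρ k) (hρ : 1 < ρ) : ∃ A : ℕ, ∀ m, κ₀ ≤ m →
    0 < Pool.Agent.W93.AU.Ac B δ F m s0 → ∀ t₀ : ℕ, 1 + C ^ 2 * ((m : ℝ) + 1) ^ k ≤ 2 ^ t₀ → ∀ κ c : ℤ,
    DecaysFrom B B.factorial A m t₀ (1 / 2) κ (range (B ^ m)) (mixw B δ F s0 m 1) (fun u : ℕ => c + κ * u) := by
  classical
  obtain ⟨l, hl0, hl1, h1⟩ := char_poly B δ F s0 (Pool.Agent.W93.AU.R1 B δ) κ₀ C ρ k hG hρ (fun s hs => hs) (cB B) (cB_pos B hB) (cB_le B hB)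
  obtain ⟨R, hR⟩ := exists_pow_lt_of_lt_one (show (0 : ℝ) < 1 / 4 by norm_num) hl1
  refine ⟨2 * R + κ₀, fun m hm hpos t₀ ht₀ κ c => ?_⟩
  have hB0 : (0 : ℝ) < B := by exact_mod_cast (by omega : 0 < B)
  refine ⟨fun u _ => ?_, mixw_sum B hB δ F s0 m _ hpos, fun θ N hN0 hN _ => ?_⟩
  · unfold mixw
    rw [sub_self, zero_mul, zero_add, one_mul]
    split_ifs
    · positivity
    · exact le_rfl
  · rw [mixw_char B hB, norm_mul, Pool.Agent.H807R2.Dav.norm_ee, one_mul, sub_self, zero_mul, Complex.ofReal_zero, zero_mul, zero_add, one_mul]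
    have f1 := far_gc B hB κ₀ m ((κ : ℝ) * θ)
    have f3 : 2 * (R * (N + 1)) + κ₀ ≤ (2 * R + κ₀) * (N + 1) := by nlinarith
    have g1 := h1 m hm ((κ : ℝ) * θ) (R * (N + 1)) (by omega)
    have g5 : l ^ (R * (N + 1)) ≤ (1 / 4 : ℝ) ^ N := by
      rw [pow_mul]
      calc (l ^ R) ^ (N + 1) ≤ (1 / 4) ^ (N + 1) := pow_le_pow_left₀ (by positivity) hR.le _
        _ ≤ (1 / 4) ^ N := pow_le_pow_of_le_one (by norm_num) (by norm_num) (by omega)
    have g6 : (2 : ℝ) ^ t₀ ≤ 2 ^ N := pow_le_pow_right₀ (by norm_num) hN0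
    have hP0 : 0 ≤ 1 + C ^ 2 * ((m : ℝ) + 1) ^ k := by positivity
    rw [norm_mul, Complex.norm_real, Real.norm_eq_abs, abs_of_nonneg (by positivity)]
    calc (1 / Pool.Agent.W93.AU.Ac B δ F m s0) * ‖Pool.Agent.W93.AU.Tc B δ F m s0 ((κ : ℝ) * θ)‖ ≤
        (1 / Pool.Agent.W93.AU.Ac B δ F m s0) * (l ^ (R * (N + 1)) * (1 + C ^ 2 * ((m : ℝ) + 1) ^ k) * Pool.Agent.W93.AU.Ac B δ F m s0) :=
          mul_le_mul_of_nonneg_left g1 (by positivity)
      _ = l ^ (R * (N + 1)) * (1 + C ^ 2 * ((m : ℝ) + 1) ^ k) := by field_simp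
      _ ≤ (1 / 4 : ℝ) ^ N * 2 ^ N := mul_le_mul g5 (ht₀.trans g6) hP0 (by positivity)
      _ = (1 / 2) ^ N := by rw [← mul_pow]; norm_num

/-- **from decaying random integers to automatic sets**, without a loss -/
theorem aut_direct [Fintype σ] (b : ℕ) (hb : 2 ≤ b) (M : DFA ℕ σ)
    (hS : ∀ k : ℕ, ∃ᶠ N : ℕ in Filter.atTop, Real.log N ^ k < (acc b M N (fun _ => True) : ℝ)) :
    ∃ (B A e N₀ : ℕ) (C₁ : ℝ), 2 ≤ B ∧ 1 ≤ e ∧ 0 < C₁ ∧ ∀ N : ℕ, N₀ ≤ N → (16 + B : ℝ) ≤ Real.log N ∧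
    ∃ t₀ : ℕ, (B : ℝ) ^ t₀ ≤ Real.log N ^ e ∧ ∀ (κ c : ℤ) (τ : ℝ) (P : ℤ → Prop),
    (∀ (ι : Type) (Ω : Finset ι) (w : ι → ℝ) (v : ι → ℤ), DecaysFrom B B.factorial A (Nat.log B N + 1) t₀ (1 / 2) κ Ω w v →
      ∀ E : Finset ι, E ⊆ Ω → (∀ i ∈ E, ¬ P (v i)) → ∑ i ∈ E, w i ≤ τ) →
    AlmostS b M N κ c (C₁ * τ) P := by
  classical
  obtain ⟨B, δ, F, s0, κ₀, C, ρ, k, hB2, hρ, hG, hrun⟩ := Pool.Agent.W93.AU.setup b hb M
    (fun k => (hS k).mono (fun N hN => by rwa [acc_true] at hN))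
  have hC1 := hG.C1
  have hC0 : 0 < C := by linarith
  obtain ⟨A, hA⟩ := unif_decays B hB2 δ F s0 κ₀ C ρ k hG hρ
  obtain ⟨N₁, hN₁⟩ := poly_log B k hB2 C hC1
  obtain ⟨R, hR⟩ := exists_nat_ge (Real.exp (16 + B))
  refine ⟨B, A, (k + 2) * B, N₁ + B ^ κ₀ + R + 1, C, hB2, by nlinarith, hC0, fun N hN => ?_⟩
  have hB0 : (0 : ℝ) < B := by exact_mod_cast (by omega : 0 < B)
  have hNr : (0 : ℝ) < N := by exact_mod_cast (by omega : 0 < N)
  have hlog : (16 + B : ℝ) ≤ Real.log N := by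
    rw [Real.le_log_iff_exp_le hNr]
    exact hR.trans (by exact_mod_cast (by omega : R ≤ N))
  refine ⟨hlog, ?_⟩
  obtain ⟨n, hn⟩ : ∃ n, n = Nat.log B N := ⟨_, rfl⟩
  have hNp := hN₁ N (by omega)
  rw [← hn] at hNp ⊢
  have hn1 : κ₀ ≤ n := by
    rw [hn]
    exact (Nat.le_log_iff_pow_le (by omega) (by omega)).2 (by omega)
  have hN1 : B ^ n ≤ N := by rw [hn]; exact Nat.pow_log_le_self B (by omega)
  have hN2 : N < B ^ (n + 1) := by rw [hn]; exact Nat.lt_pow_succ_log_self (by omega) N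
  have hρ0 : 0 < ρ := by linarith
  have hpos : 0 < Pool.Agent.W93.AU.Ac B δ F (n + 1) s0 := by
    have h1 := hG.low (n + 1) (by omega)
    have h2 : 0 < ρ ^ (n + 1) := by positivity
    by_contra hcon
    push Not at hcon
    have h3 : C * Pool.Agent.W93.AU.Ac B δ F (n + 1) s0 ≤ 0 := mul_nonpos_of_nonneg_of_nonpos (by linarith) hcon
    linarith
  obtain ⟨Pm, hPm⟩ : ∃ Pm : ℝ, Pm = 1 + C ^ 2 * (((n + 1 : ℕ) : ℝ) + 1) ^ k := ⟨_, rfl⟩
  have hP1 : 1 ≤ Pm := by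
    rw [hPm]
    have : 0 ≤ C ^ 2 * (((n + 1 : ℕ) : ℝ) + 1) ^ k := by positivity
    linarith
  rw [← hPm] at hNp
  have hPlog : Pm ≤ Real.log N ^ (k + 1) := by nlinarith
  obtain ⟨q, hq⟩ : ∃ q, q = ⌈Pm⌉₊ := ⟨_, rfl⟩
  have hq1 : Pm ≤ q := by rw [hq]; exact Nat.le_ceil _
  have hq2 : (q : ℝ) < Pm + 1 := by rw [hq]; exact Nat.ceil_lt_add_one (by linarith)
  have hq3 : 1 ≤ q := by exact_mod_cast hP1.trans hq1
  refine ⟨Nat.clog 2 q, ?_, fun κ c τ P H => ?_⟩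
  · have h1 : 2 ^ Nat.clog 2 q ≤ 2 * q := by
      rcases Nat.lt_or_ge 1 q with h | h
      · have h2 := Nat.pow_pred_clog_lt_self (by norm_num : 1 < 2) h
        have h3 : 1 ≤ Nat.clog 2 q := Nat.clog_pos (by norm_num) h
        have h4 : 2 ^ Nat.clog 2 q = 2 * 2 ^ (Nat.clog 2 q).pred := by
          rw [← pow_succ', Nat.pred_eq_sub_one, Nat.sub_add_cancel h3]
        omega
      · have h2 : q = 1 := by omega
        rw [h2]
        simp
    have h2 : (2 : ℝ) ^ Nat.clog 2 q ≤ 2 * q := by exact_mod_cast h1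
    have h3 : (2 : ℝ) ^ Nat.clog 2 q ≤ 4 * Pm := by linarith
    have h4 : (B : ℝ) ≤ 2 ^ B := by exact_mod_cast (Nat.lt_two_pow_self (n := B)).le
    calc (B : ℝ) ^ Nat.clog 2 q ≤ (2 ^ B) ^ Nat.clog 2 q := pow_le_pow_left₀ hB0.le h4 _
      _ = (2 ^ Nat.clog 2 q) ^ B := by rw [← pow_mul, ← pow_mul, mul_comm]
      _ ≤ (Real.log N ^ (k + 2)) ^ B := by
          apply pow_le_pow_left₀ (by positivity)
          refine h3.trans ?_
          calc 4 * Pm ≤ Real.log N * Real.log N ^ (k + 1) := mul_le_mul (by linarith) hPlog (by linarith) (by linarith)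
            _ = Real.log N ^ (k + 2) := by ring
      _ = _ := by rw [← pow_mul]
  · have hdec := hA (n + 1) (by omega) hpos (Nat.clog 2 q) (by
      rw [← hPm]
      refine hq1.trans ?_
      exact_mod_cast Nat.le_pow_clog (by norm_num : 1 < 2) q) κ c
    obtain ⟨E, hE⟩ : ∃ E : Finset ℕ, E = (range (B ^ (n + 1))).filter (fun u : ℕ => F (Pool.Agent.W93.AU.run B δ (n + 1) s0 u) ∧ ¬ P (c + κ * u)) := ⟨_, rfl⟩
    have h1 := H ℕ _ _ _ hdec E (by rw [hE]; exact filter_subset _ _) (by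
      intro u hu
      rw [hE, mem_filter] at hu
      exact hu.2.2)
    have h2 : (E.card : ℝ) * (1 / Pool.Agent.W93.AU.Ac B δ F (n + 1) s0) ≤ τ := by
      refine le_trans ?_ h1
      rw [← nsmul_eq_mul]
      apply card_nsmul_le_sum
      intro u hu
      rw [hE, mem_filter] at hu
      unfold mixw
      rw [if_pos hu.2.1, sub_self, zero_mul, zero_add, one_mul]
    have h3 : (E.card : ℝ) ≤ τ * Pool.Agent.W93.AU.Ac B δ F (n + 1) s0 := by
      rwa [mul_one_div, div_le_iff₀ hpos] at h2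
    have hτ0 : 0 ≤ τ := by
      refine le_trans ?_ h2
      positivity
    have h4 : (acc b M N (fun v => ¬ P (c + κ * v)) : ℝ) ≤ E.card := by
      apply Nat.cast_le.2
      apply acc_le_card
      intro v hv hvM hvP
      rw [hE, mem_filter, mem_range]
      have hv2 : v < B ^ (n + 1) := hv.trans hN2
      exact ⟨hv2, (hrun (n + 1) v hv2).2 hvM, hvP⟩
    have h5 : Pool.Agent.W93.AU.Ac B δ F (n + 1) s0 ≤ C * acc b M N (fun _ => True) := by
      refine (hG.step n hn1 s0).trans (mul_le_mul_of_nonneg_left ?_ hC0.le)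
      rw [acc_true]
      have e1 : Pool.Agent.W93.AU.Ac B δ F n s0 = (((range (B ^ n)).filter fun v => Nat.digits b v ∈ M.accepts).card : ℝ) := by
        rw [Pool.Agent.W93.AU.Ac_eq B (by omega), ← sum_filter, sum_const, nsmul_eq_mul, mul_one]
        congr 2
        apply filter_congr
        intro v hv
        exact hrun n v (mem_range.1 hv)
      rw [e1]
      exact_mod_cast card_le_card (filter_subset_filter _ (range_mono hN1))
    unfold AlmostS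
    calc (acc b M N (fun v => ¬ P (c + κ * v)) : ℝ) ≤ τ * Pool.Agent.W93.AU.Ac B δ F (n + 1) s0 := h4.trans h3
      _ ≤ τ * (C * acc b M N (fun _ => True)) := mul_le_mul_of_nonneg_left h5 hτ0
      _ = _ := by ring

/-- the product, for automatic sets -/
theorem log_aut [Fintype σ] (b : ℕ) (hb : 2 ≤ b) (M : DFA ℕ σ)
    (hS : ∀ k : ℕ, ∃ᶠ N : ℕ in Filter.atTop, Real.log N ^ k < (acc b M N (fun _ => True) : ℝ)) :
    ∃ W e N₀ : ℕ, 1 ≤ W ∧ ∀ κ : ℤ, κ ≠ 0 → ∀ a : ℤ, a ≠ 0 → ∃ C : ℝ, 0 < C ∧ ∀ N : ℕ, N₀ ≤ N → 1 ≤ Real.log N ∧ ∀ c : ℤ, ∀ x : ℕ,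
      Real.log N ^ e ≤ x → x ^ W ≤ N → ∀ l : ℝ, 0 < l →
      AlmostS b M N κ c (C / l ^ 2) (fun n =>
        |∑ p ∈ pri x, GG a p n - Real.log (Real.log x) / 2| ≤ l * √(Real.log (Real.log x))) := by
  classical
  obtain ⟨B, A, e, N₀, C₁, hB, he, hC₁, H⟩ := aut_direct b hb M hS
  obtain ⟨W, hW, K⟩ := log_ms_from B hB A (1 / 2) (by norm_num) (by norm_num)
  refine ⟨W, e, N₀ + 1, hW, fun κ hκ a ha => ?_⟩
  obtain ⟨C, hC, J⟩ := K B.factorial κ (Nat.factorial_pos _) hκ a ha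
  refine ⟨C₁ * C, by positivity, fun N hN => ?_⟩
  obtain ⟨hlog, t₀, ht₀, HH⟩ := H N (by omega)
  have hB2 : (2 : ℝ) ≤ B := by exact_mod_cast hB
  have hlog1 : 1 ≤ Real.log N := by linarith
  refine ⟨hlog1, fun c x hx hxW l hl => ?_⟩
  have hxr : (16 + B : ℝ) ≤ x := by
    calc (16 + B : ℝ) ≤ Real.log N := hlog
      _ = Real.log N ^ 1 := (pow_one _).symm
      _ ≤ Real.log N ^ e := pow_le_pow_right₀ hlog1 he
      _ ≤ x := hx
  have hxn : 16 + B ≤ x := by exact_mod_cast hxr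
  have ht₀x : B ^ t₀ ≤ x := by exact_mod_cast ht₀.trans hx
  have hN2 : N < B ^ (Nat.log B N + 1) := Nat.lt_pow_succ_log_self (by omega) N
  rw [mul_div_assoc]
  refine HH κ c (C / l ^ 2) _ fun ι Ω w v hdec E hE hbad => ?_
  have hms := J (Nat.log B N + 1) x t₀ (by omega) (by omega) (hxW.trans hN2.le) ht₀x ι Ω w v hdec
  obtain ⟨ℓ, hℓ⟩ : ∃ ℓ, ℓ = Real.log (Real.log x) := ⟨_, rfl⟩
  have hℓ0 : 0 < ℓ := by
    rw [hℓ]
    apply Real.log_pos
    rw [Real.lt_log_iff_exp_lt (by linarith)]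
    have h5 := Real.exp_one_lt_d9
    linarith
  rw [← hℓ] at hms
  have h5 : ∀ i ∈ E, l ^ 2 * ℓ ≤ (∑ p ∈ pri x, GG a p (v i) - ℓ / 2) ^ 2 := by
    intro i hi
    have h6 := hbad i hi
    rw [← hℓ] at h6
    push Not at h6
    have h7 : (l * √ℓ) ^ 2 ≤ |∑ p ∈ pri x, GG a p (v i) - ℓ / 2| ^ 2 := pow_le_pow_left₀ (by positivity) h6.le 2
    rw [mul_pow, Real.sq_sqrt hℓ0.le, sq_abs] at h7
    exact h7
  have h6 : (∑ i ∈ E, w i) * (l ^ 2 * ℓ) ≤ C * ℓ := by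
    rw [sum_mul]
    calc ∑ i ∈ E, w i * (l ^ 2 * ℓ) ≤ ∑ i ∈ E, w i * (∑ p ∈ pri x, GG a p (v i) - ℓ / 2) ^ 2 :=
          sum_le_sum fun i hi => mul_le_mul_of_nonneg_left (h5 i hi) (hdec.nonneg i (hE hi))
      _ ≤ ∑ i ∈ Ω, w i * (∑ p ∈ pri x, GG a p (v i) - ℓ / 2) ^ 2 :=
          sum_le_sum_of_subset_of_nonneg hE fun i hi _ => mul_nonneg (hdec.nonneg i hi) (sq_nonneg _)
      _ ≤ C * ℓ := hms
  rw [le_div_iff₀ (by positivity)]
  rw [← mul_assoc] at h6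
  exact le_of_mul_le_mul_right h6 hℓ0

/-- the sums of the traces, for automatic sets -/
theorem tr_aut [Fintype σ] (b : ℕ) (hb : 2 ≤ b) (M : DFA ℕ σ)
    (hS : ∀ k : ℕ, ∃ᶠ N : ℕ in Filter.atTop, Real.log N ^ k < (acc b M N (fun _ => True) : ℝ)) :
    ∃ W e : ℕ, 1 ≤ W ∧ ∀ κ : ℤ, κ ≠ 0 → ∀ δ : ℝ, 0 < δ → δ ≤ 1 / 2 → ∃ X₀ : ℕ, ∀ X : ℕ, X₀ ≤ X → ∀ N : ℕ, ∀ c a : ℤ,
      AlmostS b M N κ c (Real.log N ^ e * (X : ℝ) ^ (-δ)) (fun n => ∀ x : ℕ, X ≤ x → x ^ W ≤ N →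
        |∑ p ∈ pri x, TT a p n * Real.log p| ≤ (x : ℝ) ^ (1 + δ)) := by
  classical
  obtain ⟨B, A, e, N₀, hB, H⟩ := aut_almost_x b hb M hS
  obtain ⟨W, hW, K⟩ := tr_all B hB A (1 / 2) (by norm_num) (by norm_num)
  refine ⟨W, e, hW, fun κ hκ δ hδ hδ1 => ?_⟩
  obtain ⟨X₀, J⟩ := K B.factorial κ (Nat.factorial_pos _) hκ δ hδ hδ1
  refine ⟨X₀ + N₀ + 1, fun X hX N c a => ?_⟩
  refine H N X W (by omega) hW κ c _ (fun x n => |∑ p ∈ pri x, TT a p n * Real.log p| ≤ (x : ℝ) ^ (1 + δ)) (by positivity)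
    fun ι Ω w v hdec E hE hbad => ?_
  refine J X (by omega) _ ι Ω w v hdec a E hE fun i hi => ?_
  obtain ⟨x, h1, h2, h3⟩ := hbad i hi
  exact ⟨x, h1, h2, not_le.1 h3⟩

end Pool.Agent.H491R4.AF
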