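import Pool.Agent.H491R4.AF6

/-! # The average size of the `ℓ`-torsion of the class groups of the fields `ℚ(√(j v))`, where `v` runs through an automatic set

Let `S` be an automatic set (the set of the integers whose digits in a base `b` are accepted by a finite automaton) of more
than polylogarithmic size; such sets may have as few as `N ^ c` elements below `N`, with arbitrarily small `c > 0`. For every
`ℓ` the average over the members `v = c + κ u`, `u ∈ S`, `u < N`, of the number of the classes killed by `ℓ` has a power saving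
`N ^ (- δ)` over the trivial bound, where `δ` depends only on the automaton and the base, and it is at most
`N ^ (1 / 2 - 1 / (2 ℓ) + ε)` for `ℓ ≥ 1 / (2 δ)`; uniformly in `ℓ`, `j` and the shift `c`.

Definitions used: in `Pool.Agent.H491R4.AF` (files `Pool/Agent/H491R4/AF2.lean` and `Pool/Agent/H491R4/AF6.lean`):
`acc b M N E`: the number of the integers `v < N` accepted by the automaton `M` (reading the digits of `v` in base `b`, the
least significant digit first) with the property `E`; `MeanS b M N κ c R f`: the mean value of `f (c + κ v)` over the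
integers `v < N` accepted by `M` is at most `R`. -/

set_option autoImplicit false

namespace Pool.Agent.Results.MP_16912e_nt.AutomaticFamilyAverages

open Polynomial NumberField Filter
open Pool.Agent.H491R4.AF

/-- the scales -/
lemma scales (B : ℕ) (hB : 2 ≤ B) : ∃ N₁ : ℕ, 3 ≤ N₁ ∧ ∀ N : ℕ, N₁ ≤ N → 1 ≤ Real.log N ∧
    Real.log N ≤ ((Nat.log B N + 1 : ℕ) : ℝ) ^ 2 ∧ ((Nat.log B N + 1 : ℕ) : ℝ) ≤ Real.log N ^ 2 := by
  obtain ⟨R, hR⟩ := exists_nat_ge (Real.exp 3)
  refine ⟨B ^ B + R + 3, by omega, fun N hN => ?_⟩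
  have hNr : (0 : ℝ) < N := by exact_mod_cast (by omega : 0 < N)
  have hB2 : (2 : ℝ) ≤ B := by exact_mod_cast hB
  have h3 : 3 ≤ Real.log N := by
    rw [Real.le_log_iff_exp_le hNr]
    exact hR.trans (by exact_mod_cast (by omega : R ≤ N))
  obtain ⟨n, hn⟩ : ∃ n, n = Nat.log B N := ⟨_, rfl⟩
  rw [← hn]
  have hn1 : B ≤ n := by
    rw [hn]
    exact (Nat.le_log_iff_pow_le (by omega) (by omega)).2 (by omega)
  have hN1 : B ^ n ≤ N := by rw [hn]; exact Nat.pow_log_le_self B (by omega)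
  have hN2 : N < B ^ (n + 1) := by rw [hn]; exact Nat.lt_pow_succ_log_self (by omega) N
  refine ⟨by linarith, ?_, ?_⟩
  · have e1 : (N : ℝ) ≤ (B : ℝ) ^ (n + 1) := by exact_mod_cast hN2.le
    have e2 := Real.log_le_log hNr e1
    rw [Real.log_pow] at e2
    have e3 : Real.log B ≤ B := (Real.log_le_sub_one_of_pos (by linarith)).trans (by linarith)
    have e4 : (B : ℝ) ≤ ((n + 1 : ℕ) : ℝ) := by exact_mod_cast (by omega : B ≤ n + 1)
    calc Real.log N ≤ ((n + 1 : ℕ) : ℝ) * Real.log B := e2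
      _ ≤ ((n + 1 : ℕ) : ℝ) * ((n + 1 : ℕ) : ℝ) := mul_le_mul_of_nonneg_left (e3.trans e4) (Nat.cast_nonneg _)
      _ = _ := by ring
  · have e2 : ((B : ℝ)) ^ n ≤ N := by exact_mod_cast hN1
    have e3 := Real.log_le_log (by positivity) e2
    rw [Real.log_pow] at e3
    have e4 : Real.log 2 ≤ Real.log B := Real.log_le_log (by norm_num) hB2
    have e5 := Real.log_two_gt_d9
    have e6 : ((n : ℕ) : ℝ) * (1 / 2) ≤ (n : ℕ) * Real.log B :=
      mul_le_mul_of_nonneg_left (by linarith) (Nat.cast_nonneg _)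
    push_cast
    nlinarith

open Classical in
/-- **The average of the `ℓ`-torsion over automatic sets.** Let `S` be the set of the integers `u ≥ 0` whose digits in base
`b ≥ 2` are accepted by a finite automaton `M`, and suppose that `S` has more than polylogarithmic size: for every `k` there
are infinitely many `N` such that more than `(log N) ^ k` elements of `S` are smaller than `N`. There is `δ > 0` such that for
`κ ≠ 0` and `T`, `V` there are `D`, `N₀` such that the following holds for all `N ≥ N₀`, all `c`, all integers `j ≠ 0` with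
`|j| ≤ (log N) ^ T`, all `ℓ` with `1 ≤ ℓ ≤ (log N) ^ T` and all `Y ≥ 1`.

Let `K_v = ℚ(√(j v))` be quadratic fields with discriminant of absolute value at most `Y`, for the integers `v` in a set `S'` of
integers of absolute value at most `N ^ V`. Then the mean value, over the `v = c + κ u` with `u ∈ S`, `u < N`, of the number of
the ideal classes of `K_v` killed by `ℓ` (with `0` if `v` is not in `S'`) is at most
`(log N) ^ D Y ^ (1 / 2) max (Y ^ (-1 / (2 ℓ)), N ^ (- δ))`. -/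
theorem result {σ : Type} [Fintype σ] (b : ℕ) (hb : 2 ≤ b) (M : DFA ℕ σ)
    (hS : ∀ k : ℕ, ∃ᶠ N : ℕ in atTop, Real.log N ^ k < (acc b M N (fun _ => True) : ℝ)) : ∃ δ : ℝ, 0 < δ ∧
    ∀ κ : ℤ, κ ≠ 0 → ∀ T V : ℕ, ∃ D N₀ : ℕ, ∀ N : ℕ, N₀ ≤ N → ∀ c j : ℤ, j ≠ 0 → (|j| : ℝ) ≤ Real.log N ^ T →
    ∀ ℓ : ℕ, 1 ≤ ℓ → (ℓ : ℝ) ≤ Real.log N ^ T → ∀ Y : ℝ, 1 ≤ Y →
    ∀ (S' : Set ℤ) (K : ℤ → Type) [∀ v, Field (K v)] [∀ v, NumberField (K v)],
    (∀ v ∈ S', |v| ≤ (N : ℤ) ^ V ∧ Module.finrank ℚ (K v) = 2 ∧ |(discr (K v) : ℝ)| ≤ Y ∧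
      ∃ α : K v, IntermediateField.adjoin ℚ {α} = ⊤ ∧ α ^ 2 = ((j * v : ℤ) : K v)) →
    MeanS b M N κ c (Real.log N ^ D * (√Y * max (Y ^ (-(1 / (2 * ℓ : ℝ)))) ((N : ℝ) ^ (-δ))))
      (fun v => if v ∈ S' then (Nat.card {x : ClassGroup (𝓞 (K v)) // x ^ ℓ = 1} : ℝ) else 0) := by
  obtain ⟨B, W, hB, hW, H⟩ := torsion_mean_aut b hb M hS
  obtain ⟨N₂, _, hN₂⟩ := scales B hB
  have hWr : (0 : ℝ) < W := by exact_mod_cast hW
  refine ⟨1 / W, by positivity, fun κ hκ T V => ?_⟩
  obtain ⟨D, k₀, J⟩ := H κ hκ 2 le_rfl (2 * T) V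
  refine ⟨2 * D, N₂ + B ^ k₀ + 1, fun N hN c j hj0 hj ℓ hℓ hℓT Y hY S' K _ _ hS' => ?_⟩
  obtain ⟨hl1, hl2, hl3⟩ := hN₂ N (by omega)
  obtain ⟨k, hk⟩ : ∃ k, k = Nat.log B N + 1 := ⟨_, rfl⟩
  have hkk : k₀ ≤ k := by
    have : k₀ ≤ Nat.log B N := (Nat.le_log_iff_pow_le (by omega) (by omega)).2 (by omega)
    omega
  have hN2 : N < B ^ k := by rw [hk]; exact Nat.lt_pow_succ_log_self (by omega) N
  rw [← hk] at hl2 hl3
  have hl0 : 0 < Real.log N := by linarith
  have hk0 : (0 : ℝ) < k := by exact_mod_cast (by omega : 0 < k)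
  have hNr : (0 : ℝ) < N := by exact_mod_cast (by omega : 0 < N)
  have hB0 : (0 : ℝ) < B := by exact_mod_cast (by omega : 0 < B)
  have hlT : ∀ s : ℕ, Real.log N ^ s ≤ (k : ℝ) ^ (2 * s) := by
    intro s
    rw [pow_mul]
    exact pow_le_pow_left₀ hl0.le hl2 s
  have hint : ∀ z : ℤ, (|z| : ℝ) ≤ Real.log N ^ T → |z| ≤ (k : ℤ) ^ (2 * T) := by
    intro z hz
    have h5 := hz.trans (hlT T)
    exact_mod_cast h5
  have hℓ' : ℓ ≤ k ^ (2 * T) := by exact_mod_cast hℓT.trans (hlT T)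
  have hY0 : 0 < Y := by linarith
  have h1 := J N k hk hkk c (X ^ 2) ⟨monic_X_pow 2, natDegree_X_pow 2, fun i => by
    have hk1 : (1 : ℤ) ≤ (k : ℤ) ^ (2 * T) := one_le_pow₀ (by exact_mod_cast (by omega : 1 ≤ k))
    rw [coeff_X_pow]
    split_ifs
    · simp [hk1]
    · simp⟩ j hj0 (hint j hj) ℓ hℓ hℓ' Y hY S' K (by
    intro v hv
    obtain ⟨h1, h2, h3, α, h4, h5⟩ := hS' v hv
    refine ⟨?_, h2, h3, α, h4, ?_⟩
    · refine h1.trans ?_
      have h6 : N ^ V ≤ B ^ (V * k) := by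
        rw [mul_comm, pow_mul]
        exact Nat.pow_le_pow_left hN2.le V
      exact_mod_cast h6
    · rw [map_pow, aeval_X]
      exact h5)
  have e1 : ((2 * (2 - 1) * ℓ : ℕ) : ℝ) = 2 * ℓ := by push_cast; ring
  rw [e1] at h1
  refine MeanS.mono (R := (k : ℝ) ^ D * (√Y * max (Y ^ (-(1 / (2 * ℓ : ℝ)))) ((B : ℝ) ^ (-((k : ℝ) / W))))) ?_ ?_
  · convert h1
  · apply mul_le_mul
    · rw [pow_mul]
      exact pow_le_pow_left₀ hk0.le hl3 D
    · apply mul_le_mul_of_nonneg_left _ (Real.sqrt_nonneg _)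
      apply max_le_max le_rfl
      have e1 : (B : ℝ) ^ (-((k : ℝ) / W)) = ((B : ℝ) ^ k) ^ (-(1 / (W : ℝ))) := by
        rw [← Real.rpow_natCast, ← Real.rpow_mul hB0.le]
        congr 1
        ring
      rw [e1]
      apply Real.rpow_le_rpow_of_nonpos hNr
      · exact_mod_cast hN2.le
      · have : 0 < 1 / (W : ℝ) := by positivity
        linarith
    · positivity
    · positivity

end Pool.Agent.Results.MP_16912e_nt.AutomaticFamilyAverages
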