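import Pool.Agent.R459.Eq8

set_option autoImplicit false

/-! High moments for the families with decaying characteristic function: products over disjoint blocks of primes. -/

namespace Pool.Agent.H491R4.HM
open Finset
open Pool.Agent.H807R2.Dav
open Pool.Agent.R459.Eq

/-- the function has an expansion with the frequencies of exact denominator `m`, with coefficients of total size at most `C` -/
def Pure (m : ℕ) (f : ℤ → ℝ) (C : ℝ) : Prop :=
  ∃ (α : Type) (I : Finset α) (c : α → ℂ) (a : α → ℕ), (∀ i ∈ I, Nat.Coprime (a i) m) ∧ ∑ i ∈ I, ‖c i‖ ≤ C ∧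
    ∀ n : ℤ, (f n : ℂ) = ∑ i ∈ I, c i * ee ((n : ℝ) * ((a i : ℝ) / m))

lemma pure_mono {m : ℕ} {f : ℤ → ℝ} {C C' : ℝ} (h : Pure m f C) (hC : C ≤ C') : Pure m f C' := by
  obtain ⟨α, I, c, a, h1, h2, h3⟩ := h
  exact ⟨α, I, c, a, h1, h2.trans hC, h3⟩

lemma pure_trivial : Pure 1 (fun _ => 1) 1 := by
  refine ⟨Unit, {()}, fun _ => 1, fun _ => 0, fun _ _ => Nat.coprime_one_right 0, by simp, fun n => ?_⟩
  simp [ee_zero]

lemma pure_one {p : ℕ} (hp : p.Prime) (f : ℤ → ℝ) (hper : Per p f) (hf : ∀ n, |f n| ≤ 1) :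
    Pure p (fun n => f n - mean p f) p := by
  refine ⟨ℕ, Ico 1 p, co p f, id, ?_, ?_, ?_⟩
  · intro a ha
    rw [mem_Ico] at ha
    exact (Nat.coprime_of_lt_prime (by omega) ha.2 hp).symm
  · refine (sum_le_card_nsmul _ _ 1 fun a _ => norm_co p hp.one_le f hf a).trans ?_
    rw [nsmul_eq_mul, mul_one, Nat.card_Ico]
    exact_mod_cast Nat.sub_le p 1
  · intro n
    rw [centered p hp.one_le f hper n]
    apply sum_congr rfl
    intro a _
    congr 2
    simp only [id]
    ring

lemma pure_mul {m m' : ℕ} (hm : 1 ≤ m) (hm' : 1 ≤ m') (hc : Nat.Coprime m m') {f g : ℤ → ℝ} {C C' : ℝ} (hf : Pure m f C)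
    (hg : Pure m' g C') : Pure (m * m') (fun n => f n * g n) (C * C') := by
  obtain ⟨α, I, c, a, h1, h2, h3⟩ := hf
  obtain ⟨α', I', c', a', h1', h2', h3'⟩ := hg
  have hm0 : (m : ℝ) ≠ 0 := by exact_mod_cast (by omega : m ≠ 0)
  have hm0' : (m' : ℝ) ≠ 0 := by exact_mod_cast (by omega : m' ≠ 0)
  refine ⟨α × α', I ×ˢ I', fun z => c z.1 * c' z.2, fun z => a z.1 * m' + a' z.2 * m, ?_, ?_, ?_⟩
  · intro z hz
    rw [mem_product] at hz
    show Nat.Coprime (a z.1 * m' + a' z.2 * m) (m * m')
    apply Nat.Coprime.mul_right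
    · rw [Nat.coprime_add_mul_right_left]
      exact Nat.Coprime.mul_left (h1 _ hz.1) hc.symm
    · rw [add_comm, Nat.coprime_add_mul_right_left]
      exact Nat.Coprime.mul_left (h1' _ hz.2) hc
  · rw [sum_product]
    simp only [norm_mul]
    rw [← sum_mul_sum]
    exact mul_le_mul h2 h2' (sum_nonneg fun _ _ => norm_nonneg _) ((sum_nonneg fun _ _ => norm_nonneg _).trans h2)
  · intro n
    push_cast
    rw [h3, h3', sum_mul_sum, sum_product]
    apply sum_congr rfl
    intro i _
    apply sum_congr rfl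
    intro j _
    have e1 : ee ((n : ℝ) * (((a i : ℝ) * m' + a' j * m) / (m * m'))) = ee ((n : ℝ) * ((a i : ℝ) / m)) * ee ((n : ℝ) * ((a' j : ℝ) / m')) := by
      rw [← ee_add]
      congr 1
      field_simp
    rw [e1]
    ring

lemma pure_prod {ι : Type} (J : Finset ι) (m : ι → ℕ) (f : ι → ℤ → ℝ) (C : ι → ℝ) (hm : ∀ i ∈ J, 1 ≤ m i)
    (hcop : ∀ i ∈ J, ∀ j ∈ J, i ≠ j → Nat.Coprime (m i) (m j)) (h : ∀ i ∈ J, Pure (m i) (f i) (C i)) :
    Pure (∏ i ∈ J, m i) (fun n => ∏ i ∈ J, f i n) (∏ i ∈ J, C i) := by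
  classical
  induction J using Finset.induction_on with
  | empty => simpa using pure_trivial
  | insert i J hi ih =>
    rw [prod_insert hi, prod_insert hi]
    simp only [prod_insert hi]
    refine pure_mul (hm i (mem_insert_self i J)) ?_ ?_ (h i (mem_insert_self i J)) (ih ?_ ?_ ?_)
    · exact Nat.one_le_iff_ne_zero.2 (prod_ne_zero_iff.2 fun j hj => by have := hm j (mem_insert_of_mem hj); omega)
    · apply Nat.Coprime.prod_right
      intro j hj
      exact hcop i (mem_insert_self i J) j (mem_insert_of_mem hj) (fun h => hi (h ▸ hj))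
    · exact fun j hj => hm j (mem_insert_of_mem hj)
    · exact fun j hj j' hj' => hcop j (mem_insert_of_mem hj) j' (mem_insert_of_mem hj')
    · exact fun j hj => h j (mem_insert_of_mem hj)

lemma pure_exp {ι : Type} (Ω : Finset ι) (w : ι → ℝ) (v : ι → ℤ) {m : ℕ} {f : ℤ → ℝ} {C τ : ℝ} (h : Pure m f C) (hτ : 0 ≤ τ)
    (hchar : ∀ a : ℕ, Nat.Coprime a m → ‖∑ i ∈ Ω, (w i : ℂ) * ee ((v i : ℝ) * ((a : ℝ) / (m : ℝ)))‖ ≤ τ) :
    |∑ i ∈ Ω, w i * f (v i)| ≤ C * τ := by
  obtain ⟨α, I, c, a, h1, h2, h3⟩ := h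
  have e1 : ((∑ i ∈ Ω, w i * f (v i) : ℝ) : ℂ) = ∑ j ∈ I, c j * ∑ i ∈ Ω, (w i : ℂ) * ee ((v i : ℝ) * ((a j : ℝ) / (m : ℝ))) := by
    push_cast
    simp only [h3, mul_sum]
    rw [sum_comm]
    apply sum_congr rfl
    intro j _
    apply sum_congr rfl
    intro i _
    ring
  rw [← Real.norm_eq_abs, ← Complex.norm_real, e1]
  refine (norm_sum_le _ _).trans ?_
  calc ∑ j ∈ I, ‖c j * ∑ i ∈ Ω, (w i : ℂ) * ee ((v i : ℝ) * ((a j : ℝ) / (m : ℝ)))‖ ≤ ∑ j ∈ I, ‖c j‖ * τ := by
        apply sum_le_sum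
        intro j hj
        rw [norm_mul]
        exact mul_le_mul_of_nonneg_left (hchar _ (h1 j hj)) (norm_nonneg _)
    _ = (∑ j ∈ I, ‖c j‖) * τ := by rw [sum_mul]
    _ ≤ C * τ := mul_le_mul_of_nonneg_right h2 hτ

/-- the centered function -/
noncomputable def X (f : ℕ → ℤ → ℝ) (p : ℕ) (n : ℤ) : ℝ := f p n - mean p (f p)

/-- the modulus of a pair -/
def md (z : ℕ × ℕ) : ℕ := if z.1 = z.2 then z.1 else z.1 * z.2

/-- the mean of the product -/
noncomputable def mu (f : ℕ → ℤ → ℝ) (z : ℕ × ℕ) : ℝ := if z.1 = z.2 then mean z.1 (fun n => (X f z.1 n) ^ 2) else 0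

/-- the centered product -/
noncomputable def Z (f : ℕ → ℤ → ℝ) (z : ℕ × ℕ) (n : ℤ) : ℝ := X f z.1 n * X f z.2 n - mu f z

variable {f : ℕ → ℤ → ℝ}

lemma X_abs {p : ℕ} (hp : p.Prime) (hf : ∀ n, 0 ≤ f p n ∧ f p n ≤ 1) (n : ℤ) : |X f p n| ≤ 1 := by
  unfold X
  have h1 := mean_mem p hp.one_le (f p) hf
  have h2 := hf n
  rw [abs_le]
  constructor <;> linarith [h1.1, h1.2, h2.1, h2.2]

lemma X_per {p : ℕ} (hper : Per p (f p)) : Per p (X f p) := by
  intro m n h
  unfold X
  rw [hper m n h]

lemma sq_mem {p : ℕ} (hp : p.Prime) (hf : ∀ n, 0 ≤ f p n ∧ f p n ≤ 1) (n : ℤ) : 0 ≤ (X f p n) ^ 2 ∧ (X f p n) ^ 2 ≤ 1 := by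
  refine ⟨sq_nonneg _, ?_⟩
  rw [← sq_abs]
  exact pow_le_one₀ (abs_nonneg _) (X_abs hp hf n)

lemma mu_mem {z : ℕ × ℕ} (hp : z.1.Prime) (hf : ∀ n, 0 ≤ f z.1 n ∧ f z.1 n ≤ 1) : 0 ≤ mu f z ∧ mu f z ≤ 1 := by
  unfold mu
  split_ifs
  · exact mean_mem z.1 hp.one_le _ (sq_mem hp hf)
  · exact ⟨le_rfl, zero_le_one⟩

lemma Z_abs {z : ℕ × ℕ} (hp : z.1.Prime) (hq : z.2.Prime) (hf : ∀ n, 0 ≤ f z.1 n ∧ f z.1 n ≤ 1)
    (hf' : ∀ n, 0 ≤ f z.2 n ∧ f z.2 n ≤ 1) (n : ℤ) : |Z f z n| ≤ 1 := by
  unfold Z
  by_cases h : z.1 = z.2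
  · have h1 := mu_mem hp hf
    have h2 := sq_mem hp hf n
    rw [← h, ← sq, abs_le]
    constructor <;> linarith [h1.1, h1.2, h2.1, h2.2]
  · unfold mu
    rw [if_neg h, sub_zero, abs_mul]
    exact mul_le_one₀ (X_abs hp hf n) (abs_nonneg _) (X_abs hq hf' n)

lemma Z_pure {z : ℕ × ℕ} (hp : z.1.Prime) (hq : z.2.Prime) (hf : ∀ n, 0 ≤ f z.1 n ∧ f z.1 n ≤ 1)
    (hf' : ∀ n, 0 ≤ f z.2 n ∧ f z.2 n ≤ 1) (hper : Per z.1 (f z.1)) (hper' : Per z.2 (f z.2)) :
    Pure (md z) (Z f z) ((z.1 : ℝ) * z.2) := by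
  have hp1 : (1 : ℝ) ≤ z.1 := by exact_mod_cast hp.one_le
  have hq1 : (1 : ℝ) ≤ z.2 := by exact_mod_cast hq.one_le
  by_cases h : z.1 = z.2
  · have h1 := pure_one hp (fun n => (X f z.1 n) ^ 2) (by
      intro m n hmn
      show (X f z.1 m) ^ 2 = (X f z.1 n) ^ 2
      rw [X_per hper m n hmn]) (by
      intro n
      have := sq_mem hp hf n
      rw [abs_of_nonneg this.1]
      exact this.2)
    have e1 : Z f z = fun n => (X f z.1 n) ^ 2 - mean z.1 (fun n => (X f z.1 n) ^ 2) := by
      funext n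
      unfold Z mu
      rw [if_pos h, ← h, sq]
    have e2 : md z = z.1 := by unfold md; rw [if_pos h]
    rw [e1, e2]
    exact pure_mono h1 (by nlinarith)
  · have h1 := pure_one hp (f z.1) hper (fun n => by rw [abs_of_nonneg (hf n).1]; exact (hf n).2)
    have h2 := pure_one hq (f z.2) hper' (fun n => by rw [abs_of_nonneg (hf' n).1]; exact (hf' n).2)
    have h3 := pure_mul hp.one_le hq.one_le ((Nat.coprime_primes hp hq).2 h) h1 h2
    have e1 : Z f z = fun n => (f z.1 n - mean z.1 (f z.1)) * (f z.2 n - mean z.2 (f z.2)) := by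
      funext n
      unfold Z mu X
      rw [if_neg h, sub_zero]
    have e2 : md z = z.1 * z.2 := by unfold md; rw [if_neg h]
    rw [e1, e2]
    exact h3

lemma md_pos {z : ℕ × ℕ} (hp : z.1.Prime) (hq : z.2.Prime) : 1 ≤ md z := by
  unfold md
  split_ifs
  · exact hp.one_le
  · exact Nat.mul_pos hp.pos hq.pos

lemma md_le {z : ℕ × ℕ} {x : ℕ} (hp : z.1.Prime) (hpx : z.1 ≤ x) (hqx : z.2 ≤ x) : md z ≤ x ^ 2 := by
  unfold md
  have := hp.one_le
  split_ifs
  · nlinarith
  · nlinarith

lemma dvd_md {z : ℕ × ℕ} {p : ℕ} (hp : p.Prime) (h1 : z.1.Prime) (h2 : z.2.Prime) (h : p ∣ md z) : p = z.1 ∨ p = z.2 := by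
  unfold md at h
  split_ifs at h with h3
  · exact Or.inl ((Nat.prime_dvd_prime_iff_eq hp h1).1 h)
  · rcases (Nat.Prime.dvd_mul hp).1 h with h4 | h4
    · exact Or.inl ((Nat.prime_dvd_prime_iff_eq hp h1).1 h4)
    · exact Or.inr ((Nat.prime_dvd_prime_iff_eq hp h2).1 h4)

lemma fst_dvd (z : ℕ × ℕ) : z.1 ∣ md z := by
  unfold md
  split_ifs
  · exact dvd_rfl
  · exact Dvd.intro _ rfl

lemma snd_dvd (z : ℕ × ℕ) : z.2 ∣ md z := by
  unfold md
  split_ifs with h
  · rw [h]
  · exact Dvd.intro_left _ rfl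

open Classical in
/-- **the moment of the product over disjoint blocks** -/
theorem blocks {ι : Type} (Ω : Finset ι) (w : ι → ℝ) (hw : ∀ i ∈ Ω, 0 ≤ w i) (hw1 : ∑ i ∈ Ω, w i = 1) (v : ι → ℤ) (b x R : ℕ)
    (hx : 1 ≤ x) (P : Fin R → Finset ℕ) (hP : ∀ j, ∀ p ∈ P j, p.Prime ∧ p ≤ x ∧ ¬ p ∣ b) (hdis : ∀ i j, i ≠ j → Disjoint (P i) (P j))
    (f : ℕ → ℤ → ℝ) (hf : ∀ p n, 0 ≤ f p n ∧ f p n ≤ 1) (hper : ∀ j, ∀ p ∈ P j, Per p (f p)) (S : Set ℕ) (C : ℝ) (hC : 0 ≤ C)
    (hcount : ∀ (M : ℕ) (T : Finset ℕ), (∀ m ∈ T, m ∈ S ∧ 1 ≤ m ∧ m ≤ M) → (T.card : ℝ) ≤ C * (M : ℝ) ^ (1 / ((2 : ℕ) : ℝ)))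
    (hgood : ∀ m : ℕ, 1 ≤ m → m ≤ x ^ (4 * R) → m ∉ S → Nat.Coprime b m → ∀ a : ℕ, Nat.Coprime a m →
      ‖∑ i ∈ Ω, (w i : ℂ) * ee ((v i : ℝ) * ((a : ℝ) / (m : ℝ)))‖ ≤ 1 / (x : ℝ) ^ (4 * R)) :
    ∑ i ∈ Ω, w i * ∏ j, (∑ p ∈ P j, (f p (v i) - mean p (f p))) ^ 2 ≤ 2 ^ R * (4 ^ R * C + 1) * (x : ℝ) ^ R := by
  have hxr : (1 : ℝ) ≤ x := by exact_mod_cast hx
  have hx0 : (0 : ℝ) < x := by linarith
  obtain ⟨U, hU⟩ : ∃ U : Fin R → ℝ, U = fun j => ∑ z ∈ P j ×ˢ P j, mu f z := ⟨_, rfl⟩
  obtain ⟨V, hV⟩ : ∃ V : Fin R → ℤ → ℝ, V = fun j n => ∑ z ∈ P j ×ˢ P j, Z f z n := ⟨_, rfl⟩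
  have hsq : ∀ j n, (∑ p ∈ P j, (f p n - mean p (f p))) ^ 2 = V j n + U j := by
    intro j n
    rw [hU, hV]
    simp only
    rw [← sum_add_distrib, sq, sum_mul_sum, sum_product]
    apply sum_congr rfl
    intro p _
    apply sum_congr rfl
    intro q _
    unfold Z X
    ring
  have hcardP : ∀ j, ((P j).card : ℝ) ≤ x := by
    intro j
    have h1 : P j ⊆ Icc 1 x := by
      intro p hp
      rw [mem_Icc]
      exact ⟨(hP j p hp).1.one_le, (hP j p hp).2.1⟩
    have h2 := card_le_card h1
    rw [Nat.card_Icc, Nat.add_sub_cancel] at h2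
    exact_mod_cast h2
  have hU0 : ∀ j, 0 ≤ U j := by
    intro j
    rw [hU]
    apply sum_nonneg
    intro z hz
    rw [mem_product] at hz
    exact (mu_mem (hP j _ hz.1).1 (hf z.1)).1
  have hUx : ∀ j, U j ≤ x := by
    intro j
    rw [hU]
    simp only
    rw [sum_product]
    have e0 : ∀ p ∈ P j, ∑ q ∈ P j, mu f (p, q) ≤ 1 := by
      intro p hp
      have e1 : ∀ q ∈ P j, mu f (p, q) = if p = q then mean p (fun n => (X f p n) ^ 2) else 0 := by
        intro q _
        rfl
      rw [sum_congr rfl e1, sum_ite_eq, if_pos hp]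
      exact (mean_mem p (hP j p hp).1.one_le _ (sq_mem (hP j p hp).1 (hf p))).2
    refine (sum_le_card_nsmul _ _ _ e0).trans ?_
    rw [nsmul_eq_mul, mul_one]
    exact hcardP j
  -- one set `J` of indices
  have hone : ∀ J : Finset (Fin R), |∑ i ∈ Ω, w i * ∏ j ∈ J, V j (v i)| ≤ (4 ^ R * C + 1) * (x : ℝ) ^ J.card := by
    intro J
    obtain ⟨t, ht⟩ : ∃ t : Fin R → Finset (ℕ × ℕ), t = fun j => if j ∈ J then P j ×ˢ P j else {(1, 1)} := ⟨_, rfl⟩
    obtain ⟨g, hg⟩ : ∃ g : Fin R → ℕ × ℕ → ℤ → ℝ, g = fun j z n => if j ∈ J then Z f z n else 1 := ⟨_, rfl⟩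
    obtain ⟨m, hm⟩ : ∃ m : Fin R → ℕ × ℕ → ℕ, m = fun j z => if j ∈ J then md z else 1 := ⟨_, rfl⟩
    have htJ : ∀ j ∈ J, ∀ z, z ∈ t j → z.1 ∈ P j ∧ z.2 ∈ P j := by
      intro j hj z hz
      rw [ht] at hz
      simp only at hz
      rw [if_pos hj, mem_product] at hz
      exact hz
    have hexp : ∀ n, ∏ j ∈ J, V j n = ∑ z ∈ Fintype.piFinset t, ∏ j, g j (z j) n := by
      intro n
      refine Eq.trans ?_ (Finset.prod_univ_sum t (fun j z => g j z n))
      have e1 : ∀ j, ∑ z ∈ t j, g j z n = if j ∈ J then V j n else 1 := by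
        intro j
        rw [ht, hg, hV]
        simp only
        split_ifs
        · rfl
        · simp
      rw [prod_congr rfl fun j _ => e1 j, prod_ite_mem, univ_inter]
    have hterm : ∀ z ∈ Fintype.piFinset t, |∑ i ∈ Ω, w i * ∏ j, g j (z j) (v i)| ≤
        (if ∏ j, m j (z j) ∈ S then 1 else 0) + (x : ℝ) ^ (2 * R) * (1 / (x : ℝ) ^ (4 * R)) := by
      intro z hz
      rw [Fintype.mem_piFinset] at hz
      have hpz : ∀ j ∈ J, (z j).1.Prime ∧ (z j).2.Prime ∧ (z j).1 ≤ x ∧ (z j).2 ≤ x ∧ ¬ (z j).1 ∣ b ∧ ¬ (z j).2 ∣ b := by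
        intro j hj
        have h1 := htJ j hj _ (hz j)
        have h2 := hP j _ h1.1
        have h3 := hP j _ h1.2
        exact ⟨h2.1, h3.1, h2.2.1, h3.2.1, h2.2.2, h3.2.2⟩
      split_ifs with hS
      · have h1 : |∑ i ∈ Ω, w i * ∏ j, g j (z j) (v i)| ≤ 1 := by
          refine (abs_sum_le_sum_abs _ _).trans ?_
          rw [← hw1]
          apply sum_le_sum
          intro i hi
          rw [abs_mul, abs_of_nonneg (hw i hi)]
          refine mul_le_of_le_one_right (hw i hi) ?_
          rw [abs_prod]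
          apply prod_le_one
          · intro j _
            exact abs_nonneg _
          · intro j _
            rw [hg]
            simp only
            split_ifs with hj
            · have h2 := hpz j hj
              exact Z_abs h2.1 h2.2.1 (hf _) (hf _) _
            · rw [abs_one]
        have h2 : 0 ≤ (x : ℝ) ^ (2 * R) * (1 / (x : ℝ) ^ (4 * R)) := by positivity
        linarith
      · rw [zero_add]
        have hpure : Pure (∏ j, m j (z j)) (fun n => ∏ j, g j (z j) n) (∏ j, if j ∈ J then ((z j).1 : ℝ) * (z j).2 else 1) := by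
          apply pure_prod
          · intro j _
            rw [hm]
            simp only
            split_ifs with hj
            · exact md_pos (hpz j hj).1 (hpz j hj).2.1
            · exact le_rfl
          · intro i _ j _ hij
            rw [hm]
            simp only
            split_ifs with hi hj
            · rw [Nat.coprime_iff_gcd_eq_one]
              by_contra hcon
              obtain ⟨q, hq, hq2⟩ := Nat.exists_prime_and_dvd hcon
              have h1 := dvd_md hq (hpz i hi).1 (hpz i hi).2.1 (hq2.trans (Nat.gcd_dvd_left _ _))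
              have h2 := dvd_md hq (hpz j hj).1 (hpz j hj).2.1 (hq2.trans (Nat.gcd_dvd_right _ _))
              have h3 := htJ i hi _ (hz i)
              have h4 := htJ j hj _ (hz j)
              have h5 : q ∈ P i := by
                rcases h1 with h | h <;> rw [h]
                · exact h3.1
                · exact h3.2
              have h6 : q ∈ P j := by
                rcases h2 with h | h <;> rw [h]
                · exact h4.1
                · exact h4.2
              exact (disjoint_left.1 (hdis i j hij)) h5 h6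
            · exact Nat.coprime_one_right _
            · exact Nat.coprime_one_left _
            · exact Nat.coprime_one_left _
          · intro j _
            rw [hm, hg]
            simp only
            split_ifs with hj
            · have h1 := htJ j hj _ (hz j)
              exact Z_pure (hpz j hj).1 (hpz j hj).2.1 (hf _) (hf _) (hper j _ h1.1) (hper j _ h1.2)
            · exact pure_trivial
        have hCx : ∏ j, (if j ∈ J then ((z j).1 : ℝ) * (z j).2 else 1) ≤ (x : ℝ) ^ (2 * R) := by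
          calc ∏ j, (if j ∈ J then ((z j).1 : ℝ) * (z j).2 else 1) ≤ ∏ _j : Fin R, (x : ℝ) ^ 2 := by
                apply prod_le_prod
                · intro j _
                  split_ifs <;> positivity
                · intro j _
                  split_ifs with hj
                  · have h1 : ((z j).1 : ℝ) ≤ x := by exact_mod_cast (hpz j hj).2.2.1
                    have h2 : ((z j).2 : ℝ) ≤ x := by exact_mod_cast (hpz j hj).2.2.2.1
                    calc ((z j).1 : ℝ) * (z j).2 ≤ x * x := mul_le_mul h1 h2 (Nat.cast_nonneg _) hx0.le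
                      _ = (x : ℝ) ^ 2 := by ring
                  · exact one_le_pow₀ hxr
            _ = (x : ℝ) ^ (2 * R) := by rw [prod_const, card_univ, Fintype.card_fin, ← pow_mul]
        have hmx : ∏ j, m j (z j) ≤ x ^ (4 * R) := by
          calc ∏ j, m j (z j) ≤ ∏ _j : Fin R, x ^ 2 := by
                apply prod_le_prod' 
                intro j _
                rw [hm]
                simp only
                split_ifs with hj
                · exact md_le (hpz j hj).1 (hpz j hj).2.2.1 (hpz j hj).2.2.2.1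
                · exact Nat.one_le_pow _ _ hx
            _ = x ^ (2 * R) := by rw [prod_const, card_univ, Fintype.card_fin, ← pow_mul]
            _ ≤ x ^ (4 * R) := Nat.pow_le_pow_right hx (by omega)
        have hm1 : 1 ≤ ∏ j, m j (z j) := by
          apply Nat.one_le_iff_ne_zero.2
          rw [prod_ne_zero_iff]
          intro j _
          rw [hm]
          simp only
          split_ifs with hj
          · have := md_pos (hpz j hj).1 (hpz j hj).2.1
            omega
          · exact one_ne_zero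
        have hbm : Nat.Coprime b (∏ j, m j (z j)) := by
          apply Nat.Coprime.prod_right
          intro j _
          rw [hm]
          simp only
          split_ifs with hj
          · unfold md
            split_ifs
            · exact ((Nat.Prime.coprime_iff_not_dvd (hpz j hj).1).2 (hpz j hj).2.2.2.2.1).symm
            · apply Nat.Coprime.mul_right
              · exact ((Nat.Prime.coprime_iff_not_dvd (hpz j hj).1).2 (hpz j hj).2.2.2.2.1).symm
              · exact ((Nat.Prime.coprime_iff_not_dvd (hpz j hj).2.1).2 (hpz j hj).2.2.2.2.2).symm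
          · exact Nat.coprime_one_right _
        have h1 := pure_exp Ω w v hpure (by positivity : (0 : ℝ) ≤ 1 / (x : ℝ) ^ (4 * R)) (hgood _ hm1 hmx hS hbm)
        exact h1.trans (mul_le_mul_of_nonneg_right hCx (by positivity))
    -- the number of the terms
    have hnum : ((Fintype.piFinset t).card : ℝ) ≤ (x : ℝ) ^ (2 * R) := by
      rw [Fintype.card_piFinset]
      push_cast
      calc ∏ j, ((t j).card : ℝ) ≤ ∏ _j : Fin R, (x : ℝ) ^ 2 := by
            apply prod_le_prod
            · intro j _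
              exact Nat.cast_nonneg _
            · intro j _
              rw [ht]
              simp only
              split_ifs with hj
              · rw [card_product]
                push_cast
                calc ((P j).card : ℝ) * (P j).card ≤ x * x := mul_le_mul (hcardP j) (hcardP j) (Nat.cast_nonneg _) hx0.le
                  _ = (x : ℝ) ^ 2 := by ring
              · rw [card_singleton, Nat.cast_one]
                exact one_le_pow₀ hxr
        _ = (x : ℝ) ^ (2 * R) := by rw [prod_const, card_univ, Fintype.card_fin, ← pow_mul]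
    -- the number of the bad terms
    have hbad : (((Fintype.piFinset t).filter fun z => ∏ j, m j (z j) ∈ S).card : ℝ) ≤ 4 ^ R * (C * (x : ℝ) ^ J.card) := by
      obtain ⟨T, hT⟩ : ∃ T : Finset (Fin R → ℕ × ℕ), T = (Fintype.piFinset t).filter fun z => ∏ j, m j (z j) ∈ S := ⟨_, rfl⟩
      rw [← hT]
      obtain ⟨I, hI⟩ : ∃ I : Finset ℕ, I = T.image fun z => ∏ j, m j (z j) := ⟨_, rfl⟩
      have hpz : ∀ z ∈ T, ∀ j ∈ J, (z j).1 ∈ P j ∧ (z j).2 ∈ P j := by
        intro z hz j hj
        rw [hT, mem_filter, Fintype.mem_piFinset] at hz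
        exact htJ j hj _ (hz.1 j)
      have hIc : (I.card : ℝ) ≤ C * (x : ℝ) ^ J.card := by
        have h1 := hcount (x ^ (2 * J.card)) I (by
          intro d hd
          rw [hI, mem_image] at hd
          obtain ⟨z, hz, rfl⟩ := hd
          have hz' := hpz z hz
          rw [hT, mem_filter] at hz
          refine ⟨hz.2, ?_, ?_⟩
          · apply Nat.one_le_iff_ne_zero.2
            rw [prod_ne_zero_iff]
            intro j _
            rw [hm]
            simp only
            split_ifs with hj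
            · have := md_pos (hP j _ (hz' j hj).1).1 (hP j _ (hz' j hj).2).1
              omega
            · exact one_ne_zero
          · have e1 : ∏ j, m j (z j) = ∏ j ∈ J, md (z j) := by
              rw [hm]
              simp only
              rw [prod_ite_mem, univ_inter]
            rw [e1]
            calc ∏ j ∈ J, md (z j) ≤ ∏ _j ∈ J, x ^ 2 := by
                  apply prod_le_prod'
                  intro j hj
                  exact md_le (hP j _ (hz' j hj).1).1 (hP j _ (hz' j hj).1).2.1 (hP j _ (hz' j hj).2).2.1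
              _ = x ^ (2 * J.card) := by rw [prod_const, ← pow_mul])
        refine h1.trans (le_of_eq ?_)
        congr 1
        push_cast
        rw [← Real.rpow_natCast, ← Real.rpow_mul hx0.le, ← Real.rpow_natCast]
        congr 1
        push_cast
        ring
      have hfib : ∀ d ∈ I, (T.filter fun z => ∏ j, m j (z j) = d).card ≤ 4 ^ R := by
        intro d hd
        rw [hI, mem_image] at hd
        obtain ⟨z₀, hz₀, hd⟩ := hd
        have hz₀' := hpz z₀ hz₀
        obtain ⟨Q, hQ⟩ : ∃ Q : Fin R → Finset (ℕ × ℕ), Q = fun j => if j ∈ J then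
          ({(z₀ j).1, (z₀ j).2} : Finset ℕ) ×ˢ ({(z₀ j).1, (z₀ j).2} : Finset ℕ) else {(1, 1)} := ⟨_, rfl⟩
        have hsub : (T.filter fun z => ∏ j, m j (z j) = d) ⊆ Fintype.piFinset Q := by
          intro z hz
          rw [mem_filter] at hz
          have hz' := hpz z hz.1
          rw [Fintype.mem_piFinset]
          intro j
          rw [hQ]
          simp only
          by_cases hj : j ∈ J
          · rw [if_pos hj]
            have hkey : ∀ p, p ∈ P j → p ∣ md (z j) → p ∈ ({(z₀ j).1, (z₀ j).2} : Finset ℕ) := by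
              intro p hp hpd
              have hpp := (hP j p hp).1
              have h1 : p ∣ ∏ i, m i (z₀ i) := by
                rw [hd, ← hz.2]
                refine hpd.trans ?_
                have h2 : md (z j) = m j (z j) := by
                  rw [hm]
                  simp only
                  rw [if_pos hj]
                rw [h2]
                exact dvd_prod_of_mem _ (mem_univ j)
              obtain ⟨i, _, hi⟩ := (Prime.dvd_finsetProd_iff hpp.prime _).1 h1
              rw [hm] at hi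
              simp only at hi
              split_ifs at hi with hiJ
              · have h3 := dvd_md hpp (hP i _ (hz₀' i hiJ).1).1 (hP i _ (hz₀' i hiJ).2).1 hi
                have h4 : p ∈ P i := by
                  rcases h3 with h | h <;> rw [h]
                  · exact (hz₀' i hiJ).1
                  · exact (hz₀' i hiJ).2
                have h5 : i = j := by
                  by_contra hne
                  exact (disjoint_left.1 (hdis i j hne)) h4 hp
                rw [h5] at h3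
                rw [mem_insert, mem_singleton]
                exact h3
              · exact absurd (Nat.dvd_one.1 hi) hpp.one_lt.ne'
            rw [mem_product]
            exact ⟨hkey _ (hz' j hj).1 (fst_dvd _), hkey _ (hz' j hj).2 (snd_dvd _)⟩
          · rw [if_neg hj, mem_singleton]
            have h1 := hz.1
            rw [hT, mem_filter, Fintype.mem_piFinset] at h1
            have h2 := h1.1 j
            rw [ht] at h2
            simp only at h2
            rw [if_neg hj, mem_singleton] at h2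
            exact h2
        refine (card_le_card hsub).trans ?_
        rw [Fintype.card_piFinset]
        calc ∏ j, (Q j).card ≤ ∏ _j : Fin R, 4 := by
              apply prod_le_prod'
              intro j _
              rw [hQ]
              simp only
              split_ifs
              · rw [card_product]
                have h1 : ({(z₀ j).1, (z₀ j).2} : Finset ℕ).card ≤ 2 := card_le_two
                nlinarith
              · rw [card_singleton]
                norm_num
          _ = 4 ^ R := by rw [prod_const, card_univ, Fintype.card_fin]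
      have h1 : T.card ≤ 4 ^ R * I.card := by
        refine card_le_mul_card_image_of_maps_to (f := fun z => ∏ j, m j (z j)) (t := I) (fun z hz => ?_) _ hfib
        rw [hI]
        exact mem_image_of_mem _ hz
      have h2 : (T.card : ℝ) ≤ 4 ^ R * I.card := by exact_mod_cast h1
      refine h2.trans ?_
      exact mul_le_mul_of_nonneg_left hIc (by positivity)
    -- conclusion for `J`
    have e1 : ∑ i ∈ Ω, w i * ∏ j ∈ J, V j (v i) = ∑ z ∈ Fintype.piFinset t, ∑ i ∈ Ω, w i * ∏ j, g j (z j) (v i) := by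
      simp only [hexp, mul_sum]
      rw [sum_comm]
    rw [e1]
    refine (abs_sum_le_sum_abs _ _).trans ((sum_le_sum hterm).trans ?_)
    rw [sum_add_distrib, sum_const, nsmul_eq_mul, sum_boole]
    have h2 : ((Fintype.piFinset t).card : ℝ) * ((x : ℝ) ^ (2 * R) * (1 / (x : ℝ) ^ (4 * R))) ≤ 1 := by
      calc ((Fintype.piFinset t).card : ℝ) * ((x : ℝ) ^ (2 * R) * (1 / (x : ℝ) ^ (4 * R))) ≤
          (x : ℝ) ^ (2 * R) * ((x : ℝ) ^ (2 * R) * (1 / (x : ℝ) ^ (4 * R))) := mul_le_mul_of_nonneg_right hnum (by positivity)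
        _ = 1 := by
            rw [← mul_assoc, ← pow_add, show 2 * R + 2 * R = 4 * R by ring]
            field_simp
    have h3 : (1 : ℝ) ≤ (x : ℝ) ^ J.card := one_le_pow₀ hxr
    calc _ ≤ 4 ^ R * (C * (x : ℝ) ^ J.card) + 1 := add_le_add hbad h2
      _ ≤ _ := by nlinarith
  -- summation over `J`
  have hexp2 : ∀ n, ∏ j, (∑ p ∈ P j, (f p n - mean p (f p))) ^ 2 = ∑ J ∈ (univ : Finset (Fin R)).powerset, (∏ j ∈ J, V j n) * ∏ j ∈ univ \ J, U j := by
    intro n
    rw [prod_congr rfl fun j _ => hsq j n, prod_add]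
  have e2 : ∑ i ∈ Ω, w i * ∏ j, (∑ p ∈ P j, (f p (v i) - mean p (f p))) ^ 2 =
      ∑ J ∈ (univ : Finset (Fin R)).powerset, (∏ j ∈ univ \ J, U j) * ∑ i ∈ Ω, w i * ∏ j ∈ J, V j (v i) := by
    simp only [hexp2, mul_sum]
    rw [sum_comm]
    apply sum_congr rfl
    intro J _
    apply sum_congr rfl
    intro i _
    ring
  rw [e2]
  have h4 : ∀ J ∈ (univ : Finset (Fin R)).powerset, (∏ j ∈ univ \ J, U j) * ∑ i ∈ Ω, w i * ∏ j ∈ J, V j (v i) ≤
      (4 ^ R * C + 1) * (x : ℝ) ^ R := by
    intro J _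
    have h5 : ∏ j ∈ univ \ J, U j ≤ (x : ℝ) ^ (univ \ J).card := by
      rw [← prod_const]
      exact prod_le_prod (fun j _ => hU0 j) fun j _ => hUx j
    have h6 : 0 ≤ ∏ j ∈ univ \ J, U j := prod_nonneg fun j _ => hU0 j
    have h7 : (univ \ J).card + J.card = R := by
      have := card_sdiff_add_card_inter (univ : Finset (Fin R)) J
      rw [univ_inter, card_univ, Fintype.card_fin] at this
      exact this
    calc (∏ j ∈ univ \ J, U j) * ∑ i ∈ Ω, w i * ∏ j ∈ J, V j (v i) ≤
        (∏ j ∈ univ \ J, U j) * ((4 ^ R * C + 1) * (x : ℝ) ^ J.card) :=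
          mul_le_mul_of_nonneg_left ((le_abs_self _).trans (hone J)) h6
      _ ≤ (x : ℝ) ^ (univ \ J).card * ((4 ^ R * C + 1) * (x : ℝ) ^ J.card) := mul_le_mul_of_nonneg_right h5 (by positivity)
      _ = (4 ^ R * C + 1) * ((x : ℝ) ^ (univ \ J).card * (x : ℝ) ^ J.card) := by ring
      _ = _ := by rw [← pow_add, h7]
  refine (sum_le_card_nsmul _ _ _ h4).trans (le_of_eq ?_)
  rw [card_powerset, card_univ, Fintype.card_fin, nsmul_eq_mul]
  push_cast
  ring

end Pool.Agent.H491R4.HM
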