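import Pool.Agent.H491R4.HM1
import Pool.Agent.R459.Tor3

set_option autoImplicit false

/-! One scale, with a high power saving in the proportion of the exceptions. -/

namespace Pool.Agent.H491R4.HM
open Finset Polynomial
open Pool.Agent.H807R2.Dav
open Pool.Agent.R459.Eq
open Pool.Agent.R459.Tor
open Pool.Agent.H730R2.AA hiding PR

lemma split_blocks (q : ℕ) : ∀ (m : ℕ) (s : Finset ℕ), m * q ≤ s.card → ∃ P : ℕ → Finset ℕ, (∀ j < m, P j ⊆ s ∧ (P j).card = q) ∧
    ∀ i < m, ∀ j < m, i ≠ j → Disjoint (P i) (P j) := by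
  intro m
  induction m with
  | zero =>
    intro s _
    exact ⟨fun _ => ∅, fun j hj => absurd hj (Nat.not_lt_zero j), fun i hi => absurd hi (Nat.not_lt_zero i)⟩
  | succ m ih =>
    intro s hs
    have h1 : q ≤ s.card := by
      have : (m + 1) * q = m * q + q := by ring
      omega
    obtain ⟨T, hT, hTc⟩ := exists_subset_card_eq h1
    have h2 : m * q ≤ (s \ T).card := by
      rw [card_sdiff_of_subset hT, hTc]
      have : (m + 1) * q = m * q + q := by ring
      omega
    obtain ⟨P, hP, hdis⟩ := ih (s \ T) h2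
    refine ⟨fun j => if j = m then T else P j, fun j hj => ?_, fun i hi j hj hij => ?_⟩
    · simp only
      split_ifs with h
      · exact ⟨hT, hTc⟩
      · have := hP j (by omega)
        exact ⟨this.1.trans sdiff_subset, this.2⟩
    · simp only
      split_ifs with h1 h2 h2
      · omega
      · exact (disjoint_of_subset_left (hP j (by omega)).1 sdiff_disjoint).symm
      · exact disjoint_of_subset_left (hP i (by omega)).1 sdiff_disjoint
      · exact hdis i (by omega) j (by omega) hij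

/-- one `x` -/
theorem one_scale_high (b : ℕ) (hb : 2 ≤ b) (A : ℕ) (γ : ℝ) (hγ0 : 0 < γ) (hγ1 : γ < 1) (R : ℕ) (hR : 1 ≤ R) : ∃ W : ℕ, 1 ≤ W ∧
    ∀ (F₀ : ℕ) (κ : ℤ), 1 ≤ F₀ → κ ≠ 0 → ∀ n : ℕ, 1 ≤ n →
    ∃ (C : ℝ) (X₀ : ℕ), 0 < C ∧ 2 ^ 20 ≤ X₀ ∧ ∀ (k x : ℕ), X₀ ≤ x → x ^ W ≤ b ^ k →
    ∀ (ι : Type) (Ω : Finset ι) (w : ι → ℝ) (v : ι → ℤ), Decays b F₀ A k γ κ Ω w v →
    ∀ (F : ℤ[X]) (j : ℤ), F.Monic → F.natDegree = n → j ≠ 0 → j.natAbs * j.natAbs ≤ x → ∀ E : Finset ι, E ⊆ Ω →
      (∀ i ∈ E, (cntH F j x (v i) : ℝ) < (Nat.primeCounting x : ℝ) / (8 * n)) →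
      ∑ i ∈ E, w i ≤ C * (Real.log x ^ 2 / x) ^ R := by
  classical
  obtain ⟨W, hW, h⟩ := good b hb A γ hγ0 hγ1 2 (4 * R) (by norm_num)
  refine ⟨W, hW, fun F₀ κ hF₀ hκ n hn => ?_⟩
  have hn0 : (0 : ℝ) < n := by exact_mod_cast hn
  have hR0 : (0 : ℝ) < R := by exact_mod_cast hR
  obtain ⟨S, C, hC, hcount, hgood⟩ := h F₀ κ hF₀ hκ
  obtain ⟨Q, hQ⟩ : ∃ Q : Finset (Finset ℕ), Q = powersetCard R (range (6 * R)) := ⟨_, rfl⟩
  refine ⟨Q.card * (2 ^ R * (4 ^ R * C + 1) * ((768 * R * n) ^ 2) ^ R) + 1, 2 ^ 20 + (2 * n) * (2 * n) + b * b + (480 * R) * (480 * R),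
    by positivity, by omega, fun k x hx hxW ι Ω w v hdec F j hF hFn hj hjx E hE hbig => ?_⟩
  have hx20 : 2 ^ 20 ≤ x := by omega
  have hx4 : 4 ≤ x := by omega
  have hbb : b ≤ b * b := Nat.le_mul_self b
  have hxb : b ≤ x := by omega
  have hx0 : (0 : ℝ) < x := by exact_mod_cast (by omega : 0 < x)
  obtain ⟨hpi, hsq, hinv⟩ := pi_lower' x hx4
  obtain ⟨hPR1, hPR2⟩ := PR_card x hx20
  obtain ⟨π, hπ⟩ : ∃ π : ℝ, π = (Nat.primeCounting x : ℝ) := ⟨_, rfl⟩
  rw [← hπ] at hpi hsq hinv hPR1 hPR2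
  have hπ60 : 60 * (R : ℝ) ≤ π := by
    have h1 : 480 * (R : ℝ) ≤ √(x : ℝ) := by
      apply Real.le_sqrt_of_sq_le
      have : (((480 * R) * (480 * R) : ℕ) : ℝ) ≤ x := by exact_mod_cast (by omega : (480 * R) * (480 * R) ≤ x)
      push_cast at this
      nlinarith
    linarith
  have hlarge : ∀ p ∈ PR x, ∀ m : ℕ, m * m ≤ x → m < p := by
    intro p hp m hm
    rw [mem_PR] at hp
    by_contra hcon
    push Not at hcon
    have := Nat.mul_le_mul hcon hcon
    omega
  have hmean : ∀ p ∈ PR x, 1 / (2 * (n : ℝ)) ≤ mean p (hit F j p) := by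
    intro p hp
    have hp' := mem_PR.1 hp
    refine mean_hit F hF n hFn hn j p hp'.2.1 (hlarge p hp (2 * n) (by omega)).le fun hd => ?_
    have h3 := hlarge p hp j.natAbs hjx
    have h4 := Int.natAbs_dvd_natAbs.2 hd
    rw [Int.natAbs_natCast] at h4
    have := Nat.le_of_dvd (Int.natAbs_pos.2 hj) h4
    omega
  -- the blocks
  obtain ⟨q, hq⟩ : ∃ q, q = (PR x).card / (6 * R) := ⟨_, rfl⟩
  obtain ⟨P, hP, hdis⟩ := split_blocks q (6 * R) (PR x) (by rw [hq]; exact Nat.mul_div_le _ _)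
  have hqr : π / 12 - R ≤ R * q := by
    have h1 : (PR x).card < (q + 1) * (6 * R) := by
      rw [hq, mul_comm]
      exact Nat.lt_mul_div_succ _ (by omega)
    have h2 : ((PR x).card : ℝ) < (q + 1) * (6 * R) := by exact_mod_cast h1
    nlinarith
  have hq1 : π / (24 * R) ≤ q := by
    rw [div_le_iff₀ (by positivity)]
    nlinarith
  obtain ⟨θ, hθ⟩ : ∃ θ : ℝ, θ = (q : ℝ) / (8 * n) := ⟨_, rfl⟩
  have hq0 : (0 : ℝ) < q := lt_of_lt_of_le (by have : 0 < π := by linarith [mul_pos (by norm_num : (0:ℝ) < 60) hR0]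
                                               positivity) hq1
  have hθ0 : 0 < θ := by rw [hθ]; positivity
  obtain ⟨fail, hfail⟩ : ∃ fail : ℕ → ι → Prop, fail = fun a i => ∑ p ∈ P a, hit F j p (v i) < 3 * θ := ⟨_, rfl⟩
  -- many blocks fail
  have hmany : ∀ i ∈ E, ∃ T ∈ Q, ∀ a ∈ T, fail a i := by
    intro i hi
    obtain ⟨Bd, hBd⟩ : ∃ Bd : Finset ℕ, Bd = (range (6 * R)).filter (fun a => fail a i) := ⟨_, rfl⟩
    have hBR : R ≤ Bd.card := by
      by_contra hcon
      push Not at hcon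
      obtain ⟨Gd, hGd⟩ : ∃ Gd : Finset ℕ, Gd = (range (6 * R)).filter (fun a => ¬ fail a i) := ⟨_, rfl⟩
      have h1 : Bd.card + Gd.card = 6 * R := by
        rw [hBd, hGd, card_filter_add_card_filter_not, card_range]
      have h2 : 5 * R ≤ Gd.card := by omega
      have h3 : (Gd.card : ℝ) * (3 * θ) ≤ ∑ a ∈ Gd, ∑ p ∈ P a, hit F j p (v i) := by
        rw [← nsmul_eq_mul]
        apply card_nsmul_le_sum
        intro a ha
        rw [hGd, mem_filter, hfail] at ha
        exact not_lt.1 ha.2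
      have h4 : ∑ a ∈ Gd, ∑ p ∈ P a, hit F j p (v i) ≤ ∑ p ∈ PR x, hit F j p (v i) := by
        rw [← sum_biUnion]
        · apply sum_le_sum_of_subset_of_nonneg
          · intro p hp
            rw [mem_biUnion] at hp
            obtain ⟨a, ha, hpa⟩ := hp
            rw [hGd, mem_filter, mem_range] at ha
            exact (hP a ha.1).1 hpa
          · intro p _ _
            exact (hit_mem F j p (v i)).1
        · intro a ha a' ha' haa
          rw [mem_coe, hGd, mem_filter, mem_range] at ha ha'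
          exact hdis a ha.1 a' ha'.1 haa
      rw [sum_hit] at h4
      have h5 := hbig i hi
      rw [← hπ] at h5
      have h6 : (5 * R : ℝ) * (3 * θ) ≤ Gd.card * (3 * θ) := by
        apply mul_le_mul_of_nonneg_right _ (by positivity)
        exact_mod_cast h2
      have h7 : π / (8 * n) ≤ (5 * R : ℝ) * (3 * θ) := by
        rw [hθ, div_le_iff₀ (by positivity)]
        have e1 : (5 * R : ℝ) * (3 * ((q : ℝ) / (8 * n))) * (8 * n) = 15 * (R * q) := by
          field_simp
          ring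
        rw [e1]
        linarith
      linarith
    obtain ⟨T, hT, hTc⟩ := exists_subset_card_eq hBR
    refine ⟨T, ?_, fun a ha => ?_⟩
    · rw [hQ, mem_powersetCard]
      refine ⟨hT.trans ?_, hTc⟩
      rw [hBd]
      exact filter_subset _ _
    · have := hT ha
      rw [hBd, mem_filter] at this
      exact this.2
  have hun := wunion w E (fun i hi => hdec.nonneg i (hE hi)) Q (fun T i => ∀ a ∈ T, fail a i) hmany
    (2 ^ R * (4 ^ R * C + 1) * ((768 * R * n) ^ 2) ^ R * (Real.log x ^ 2 / x) ^ R) (by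
      intro T hT E' hE' hfl
      rw [hQ, mem_powersetCard] at hT
      obtain ⟨e, he⟩ : ∃ e : Fin R ↪o ℕ, e = T.orderEmbOfFin hT.2 := ⟨_, rfl⟩
      have heT : ∀ a, e a ∈ T := by
        intro a
        rw [he]
        exact orderEmbOfFin_mem T hT.2 a
      have he6 : ∀ a, e a < 6 * R := fun a => mem_range.1 (hT.1 (heT a))
      have h1 := blocks Ω w hdec.nonneg hdec.sum v b x R (by omega) (fun a => P (e a)) (by
        intro a p hp
        have h2 := (hP (e a) (he6 a)).1 hp
        have h3 := hlarge p h2 b (by omega)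
        have hp' := mem_PR.1 h2
        exact ⟨hp'.2.1, hp'.1, fun hd => absurd (Nat.le_of_dvd (by omega) hd) (by omega)⟩) (by
        intro a a' haa
        exact hdis _ (he6 a) _ (he6 a') fun h => haa (e.injective h))
        (hit F j) (fun p n => hit_mem F j p n) (fun _ p _ => hit_per F j p) S C hC.le hcount
        (fun m hm1 hm2 hmS hbm => hgood k x hxb hxW ι Ω w v hdec m hm1 hm2 hmS hbm)
      have h2 : ∀ i ∈ E', (θ ^ 2) ^ R ≤ ∏ a : Fin R, (∑ p ∈ P (e a), (hit F j p (v i) - mean p (hit F j p))) ^ 2 := by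
        intro i hi
        have h3 : ∀ a : Fin R, θ ^ 2 ≤ (∑ p ∈ P (e a), (hit F j p (v i) - mean p (hit F j p))) ^ 2 := by
          intro a
          have h4 := hfl i hi (e a) (heT a)
          rw [hfail] at h4
          have h5 : 4 * θ ≤ ∑ p ∈ P (e a), mean p (hit F j p) := by
            have h6 : ∀ p ∈ P (e a), 1 / (2 * (n : ℝ)) ≤ mean p (hit F j p) := fun p hp => hmean p ((hP (e a) (he6 a)).1 hp)
            have h7 := card_nsmul_le_sum _ _ _ h6
            rw [(hP (e a) (he6 a)).2, nsmul_eq_mul] at h7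
            refine le_trans (le_of_eq ?_) h7
            rw [hθ]
            field_simp
            ring
          rw [sum_sub_distrib, ← sq_abs (∑ p ∈ P (e a), hit F j p (v i) - ∑ p ∈ P (e a), mean p (hit F j p)), abs_sub_comm]
          apply pow_le_pow_left₀ hθ0.le
          refine le_trans ?_ (le_abs_self _)
          linarith
        calc (θ ^ 2) ^ R = ∏ _a : Fin R, θ ^ 2 := by rw [prod_const, card_univ, Fintype.card_fin]
          _ ≤ _ := prod_le_prod (fun _ _ => by positivity) fun a _ => h3 a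
      have h3 : (∑ i ∈ E', w i) * (θ ^ 2) ^ R ≤ 2 ^ R * (4 ^ R * C + 1) * (x : ℝ) ^ R := by
        refine le_trans ?_ h1
        rw [sum_mul]
        refine (sum_le_sum fun i hi => mul_le_mul_of_nonneg_left (h2 i hi) (hdec.nonneg i (hE (hE' hi)))).trans ?_
        apply sum_le_sum_of_subset_of_nonneg (hE'.trans hE)
        intro i hi _
        exact mul_nonneg (hdec.nonneg i hi) (prod_nonneg fun _ _ => sq_nonneg _)
      have hlog0 : 0 < Real.log (x : ℝ) := Real.log_pos (by exact_mod_cast (by omega : 1 < x))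
      have hπ0 : 0 < π := by linarith [mul_pos (by norm_num : (0:ℝ) < 60) hR0]
      have h4 : (x : ℝ) / (768 * R * n * Real.log x) ≤ θ := by
        have h5 : (x : ℝ) ≤ π * (4 * Real.log x) := by
          have h6 : 1 / π ≤ 4 * Real.log x / x := hinv
          rw [div_le_div_iff₀ hπ0 hx0] at h6
          linarith
        rw [hθ, div_le_div_iff₀ (by positivity) (by positivity)]
        rw [div_le_iff₀ (by positivity)] at hq1
        calc (x : ℝ) * (8 * n) ≤ (π * (4 * Real.log x)) * (8 * n) := mul_le_mul_of_nonneg_right h5 (by positivity)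
          _ ≤ ((q * (24 * R)) * (4 * Real.log x)) * (8 * n) := by
              apply mul_le_mul_of_nonneg_right _ (by positivity)
              exact mul_le_mul_of_nonneg_right hq1 (by positivity)
          _ = _ := by ring
      have h5 : x ≤ (768 * R * n) ^ 2 * (Real.log x ^ 2 / x) * θ ^ 2 := by
        have h6 : ((x : ℝ) / (768 * R * n * Real.log x)) ^ 2 ≤ θ ^ 2 := pow_le_pow_left₀ (by positivity) h4 2
        calc (x : ℝ) = (768 * R * n) ^ 2 * (Real.log x ^ 2 / x) * ((x : ℝ) / (768 * R * n * Real.log x)) ^ 2 := by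
              field_simp
          _ ≤ _ := mul_le_mul_of_nonneg_left h6 (by positivity)
      have h6 : (x : ℝ) ^ R ≤ (((768 * R * n) ^ 2) ^ R * (Real.log x ^ 2 / x) ^ R) * (θ ^ 2) ^ R := by
        rw [← mul_pow, ← mul_pow]
        exact pow_le_pow_left₀ hx0.le h5 R
      have h7 : (∑ i ∈ E', w i) * (θ ^ 2) ^ R ≤
          (2 ^ R * (4 ^ R * C + 1) * ((768 * R * n) ^ 2) ^ R * (Real.log x ^ 2 / x) ^ R) * (θ ^ 2) ^ R := by
        refine h3.trans ((mul_le_mul_of_nonneg_left h6 (by positivity)).trans (le_of_eq ?_))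
        ring
      exact le_of_mul_le_mul_right h7 (by positivity))
  refine hun.trans ?_
  have hlog0 : 0 ≤ Real.log (x : ℝ) := Real.log_natCast_nonneg x
  have h8 : 0 ≤ (Real.log x ^ 2 / x) ^ R := by positivity
  calc (Q.card : ℝ) * (2 ^ R * (4 ^ R * C + 1) * ((768 * R * n) ^ 2) ^ R * (Real.log x ^ 2 / x) ^ R) =
      (Q.card * (2 ^ R * (4 ^ R * C + 1) * ((768 * R * n) ^ 2) ^ R)) * (Real.log x ^ 2 / x) ^ R := by ring
    _ ≤ _ := mul_le_mul_of_nonneg_right (by linarith) h8

end Pool.Agent.H491R4.HM
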