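import Pool.Agent.H491R4.AF6
import Pool.Agent.H491R4.HM2

set_option autoImplicit false

/-! The moments of the torsion of the class group over automatic sets. -/

namespace Pool.Agent.H491R4.AF
open Polynomial Finset NumberField Filter
open Pool.Agent.R459.Eq
open Pool.Agent.R459.Tor
open Pool.Agent.H730R2.AA
open Pool.Agent.H491R4.HM (one_scale_high)

variable {σ : Type}

/-- one scale, for the automatic sets, with a high power saving -/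
theorem scale_aut_high [Fintype σ] (b : ℕ) (hb : 2 ≤ b) (M : DFA ℕ σ)
    (hS : ∀ k : ℕ, ∃ᶠ N : ℕ in atTop, Real.log N ^ k < (acc b M N (fun _ => True) : ℝ)) (m : ℕ) (hm : 1 ≤ m) :
    ∃ B e N₀ W : ℕ, 2 ≤ B ∧ 1 ≤ W ∧
    ∀ κ : ℤ, κ ≠ 0 → ∀ n : ℕ, 1 ≤ n →
    ∃ (C : ℝ) (X₀ : ℕ), 0 < C ∧ 2 ^ 20 ≤ X₀ ∧ ∀ N x : ℕ, N₀ ≤ N → X₀ ≤ x → x ^ W ≤ B ^ (Nat.log B N + 1) → ∀ c : ℤ,
    ∀ (F : ℤ[X]) (j : ℤ), F.Monic → F.natDegree = n → j ≠ 0 → j.natAbs * j.natAbs ≤ x →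
      AlmostS b M N κ c (Real.log N ^ e * (C * (Real.log x ^ 2 / x) ^ m))
        (fun v => (Nat.primeCounting x : ℝ) / (8 * n) ≤ (cntH F j x v : ℝ)) := by
  obtain ⟨B, A₀, e, N₀, hB, H⟩ := aut_almost b hb M hS
  obtain ⟨W, hW, K⟩ := one_scale_high B hB A₀ (1 / 2) (by norm_num) (by norm_num) m hm
  refine ⟨B, e, N₀, W, hB, hW, fun κ hκ n hn => ?_⟩
  obtain ⟨C, X₀, hC, hX₀, J⟩ := K B.factorial κ (Nat.factorial_pos _) hκ n hn
  refine ⟨C, X₀, hC, hX₀, fun N x hN hx hxW c F j hF hFn hj hjx => ?_⟩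
  refine H N hN κ c _ _ fun ι Ω w v hdec E hE hbad => ?_
  exact J _ x hx hxW ι Ω w v hdec F j hF hFn hj hjx E hE fun i hi => not_le.1 (hbad i hi)

open Classical in
/-- **the moments of the torsion** -/
theorem torsion_mom_aut [Fintype σ] (b : ℕ) (hb : 2 ≤ b) (M : DFA ℕ σ)
    (hS : ∀ k : ℕ, ∃ᶠ N : ℕ in atTop, Real.log N ^ k < (acc b M N (fun _ => True) : ℝ)) (m : ℕ) (hm : 1 ≤ m) : ∃ B W : ℕ, 2 ≤ B ∧ 1 ≤ W ∧
    ∀ κ : ℤ, κ ≠ 0 → ∀ n : ℕ, 2 ≤ n → ∀ T V : ℕ, ∃ B₂ k₀ : ℕ, ∀ N k : ℕ, k = Nat.log B N + 1 → k₀ ≤ k → ∀ c : ℤ,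
    ∀ F : ℤ[X], Small n ((k : ℤ) ^ T) F → ∀ j : ℤ, j ≠ 0 → |j| ≤ (k : ℤ) ^ T → ∀ ℓ : ℕ, 1 ≤ ℓ → ℓ ≤ k ^ T → ∀ Y : ℝ, 1 ≤ Y →
    ∀ (S : Set ℤ) (K : ℤ → Type) [∀ v, Field (K v)] [∀ v, NumberField (K v)],
    (∀ v ∈ S, |v| ≤ (B : ℤ) ^ (V * k) ∧ Module.finrank ℚ (K v) = n ∧ |(discr (K v) : ℝ)| ≤ Y ∧
      ∃ α : K v, IntermediateField.adjoin ℚ {α} = ⊤ ∧ aeval α F = ((j * v : ℤ) : K v)) →
    MeanS b M N κ c (((k : ℝ) ^ B₂ * (√Y * max (Y ^ (-(1 / ((n * (n - 1) * ℓ : ℕ) : ℝ)))) ((B : ℝ) ^ (-((k : ℝ) / W))))) ^ m)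
      (fun v => if v ∈ S then (Nat.card {x : ClassGroup (𝓞 (K v)) // x ^ ℓ = 1} : ℝ) ^ m else 0) := by
  obtain ⟨B, e, N₀, W, hB, hW, H⟩ := scale_aut_high b hb M hS m hm
  refine ⟨B, W, hB, hW, fun κ hκ n hn T V => ?_⟩
  obtain ⟨C, X₀, hC, hX₀, J⟩ := H κ hκ n (by omega)
  obtain ⟨A, hA⟩ : ∃ A, A = 2 * T + 4 := ⟨_, rfl⟩
  obtain ⟨B₁, k₁, hk₁, hcl⟩ := class_bound1 B hB n hn T A W V (by omega) hW
  obtain ⟨k₂, hk₂⟩ := exists_nat_ge (1 + C * (1200 * (B : ℝ) ^ 2) ^ m * ((B : ℝ) + 1))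
  refine ⟨B₁ + (2 + 2 * e + 2 * m), k₁ + X₀ + k₂ + 2 + N₀ + B, fun N k hk hkk c F hF j hj0 hj ℓ hℓ hℓT Y hY S K _ _ hS => ?_⟩
  have hN0 : N₀ ≤ N := by
    have := Nat.log_le_self B N
    omega
  have hN1 : 1 ≤ N := by
    have := Nat.log_le_self B N
    omega
  have hlN : Real.log N ^ e ≤ (k : ℝ) ^ (2 * e) := by
    have h1 : N < B ^ k := by rw [hk]; exact Nat.lt_pow_succ_log_self (by omega) N
    have e1 : (N : ℝ) ≤ (B : ℝ) ^ k := by exact_mod_cast h1.le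
    have hNr : (0 : ℝ) < N := by exact_mod_cast hN1
    have hBr : (2 : ℝ) ≤ B := by exact_mod_cast hB
    have e2 := Real.log_le_log hNr e1
    rw [Real.log_pow] at e2
    have e3 : Real.log B ≤ B := (Real.log_le_sub_one_of_pos (by linarith)).trans (by linarith)
    have e4 : (B : ℝ) ≤ (k : ℝ) := by exact_mod_cast (by omega : B ≤ k)
    rw [pow_mul]
    apply pow_le_pow_left₀ (Real.log_natCast_nonneg _)
    calc Real.log N ≤ (k : ℝ) * Real.log B := e2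
      _ ≤ (k : ℝ) * (k : ℝ) := mul_le_mul_of_nonneg_left (e3.trans e4) (Nat.cast_nonneg _)
      _ = _ := by ring
  have hlN0 : 0 ≤ Real.log N := Real.log_natCast_nonneg _
  have hk1 : 1 ≤ k := by omega
  have hkR : (1 : ℝ) ≤ k := by exact_mod_cast hk1
  have hk0 : (0 : ℝ) < k := by linarith
  have hbR : (2 : ℝ) ≤ B := by exact_mod_cast hB
  obtain ⟨m₀, hM⟩ : ∃ m₀ : ℕ, m₀ = n * (n - 1) * ℓ := ⟨_, rfl⟩
  have hM2 : 2 ≤ m₀ := by
    rw [hM]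
    have h1 : 2 ≤ n * (n - 1) := by
      have : 1 ≤ n - 1 := by omega
      nlinarith
    calc 2 ≤ n * (n - 1) := h1
      _ ≤ n * (n - 1) * ℓ := Nat.le_mul_of_pos_right _ hℓ
  rw [← hM]
  obtain ⟨β, hβ⟩ : ∃ β : ℝ, β = (B : ℝ) ^ ((k : ℝ) / W) := ⟨_, rfl⟩
  have hβ0 : 0 < β := by rw [hβ]; positivity
  have hβinv : (B : ℝ) ^ (-((k : ℝ) / W)) = 1 / β := by
    rw [Real.rpow_neg (by linarith), hβ, one_div]
  rw [hβinv]
  obtain ⟨μ, hμ⟩ : ∃ μ : ℝ, μ = max (Y ^ (-(1 / (m₀ : ℝ)))) (1 / β) := ⟨_, rfl⟩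
  have hμ0 : 0 < μ := by rw [hμ]; exact lt_max_of_lt_right (by positivity)
  rw [← hμ]
  have hY0 : 0 < Y := by linarith
  have hsY : 0 < √Y := Real.sqrt_pos.2 hY0
  obtain ⟨R, hR⟩ : ∃ R : Finset ℕ, R = (range (B * k + 1)).filter (fun r => k ^ A ≤ 2 ^ r ∧ (2 ^ r) ^ W ≤ B ^ k) := ⟨_, rfl⟩
  obtain ⟨G, hG⟩ : ∃ G : ℕ → ℝ, G = fun r => ((k : ℝ) ^ B₁ * (1200 * (2 : ℝ) ^ r * (√Y * μ))) ^ m := ⟨_, rfl⟩
  obtain ⟨τ, hτ⟩ : ∃ τ : ℕ → ℝ, τ = fun r => Real.log N ^ e * (C * (Real.log ((2 ^ r : ℕ) : ℝ) ^ 2 / ((2 ^ r : ℕ) : ℝ)) ^ m) := ⟨_, rfl⟩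
  have hmean := meanS_of (b := b) (M := M) (N := N) (κ := κ) (c := c)
    (fun v => if v ∈ S then (Nat.card {x : ClassGroup (𝓞 (K v)) // x ^ ℓ = 1} : ℝ) ^ m else 0) (((k : ℝ) ^ B₁ * (√Y * μ)) ^ m) R G τ
    (fun r v => (Nat.primeCounting (2 ^ r) : ℝ) / (8 * n) ≤ (cntH F j (2 ^ r) v : ℝ)) (by
      intro r _
      rw [hG]
      positivity) (by
      intro r hr
      rw [hR, mem_filter] at hr
      rw [hτ]
      refine J N (2 ^ r) hN0 ?_ (by rw [← hk]; exact hr.2.2) c F j hF.1 hF.2.1 hj0 ?_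
      · calc X₀ ≤ k := by omega
          _ = k ^ 1 := (pow_one k).symm
          _ ≤ k ^ A := Nat.pow_le_pow_right hk1 (by omega)
          _ ≤ 2 ^ r := hr.2.1
      · have h1 : j.natAbs ≤ k ^ T := by
          have : (j.natAbs : ℤ) ≤ (k : ℤ) ^ T := by rw [Int.natCast_natAbs]; exact hj
          exact_mod_cast this
        calc j.natAbs * j.natAbs ≤ k ^ T * k ^ T := Nat.mul_le_mul h1 h1
          _ = k ^ (2 * T) := by rw [← pow_add]; congr 1; ring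
          _ ≤ k ^ A := Nat.pow_le_pow_right hk1 (by omega)
          _ ≤ 2 ^ r := hr.2.1) (by
      intro v
      have hnn : 0 ≤ ∑ r ∈ R, G r * (if (Nat.primeCounting (2 ^ r) : ℝ) / (8 * n) ≤ (cntH F j (2 ^ r) v : ℝ) then 0 else 1) := by
        apply sum_nonneg
        intro r _
        rw [hG]
        split_ifs <;> positivity
      by_cases hvS : v ∈ S
      · rw [if_pos hvS]
        obtain ⟨hv, hfin, hDY, α, hα, hFα⟩ := hS v hvS
        obtain ⟨htriv, hgood⟩ := hcl k (by omega) v hv F hF j hj0 hj ℓ hℓ hℓT (K v) α hfin hα hFα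
        rw [← hM, ← hβ, hβinv] at hgood
        obtain ⟨D, hD⟩ : ∃ D : ℝ, D = |(discr (K v) : ℝ)| := ⟨_, rfl⟩
        rw [← hD] at htriv hgood hDY
        have hD1 : 1 ≤ D := by
          rw [hD]
          have h1 : discr (K v) ≠ 0 := discr_ne_zero (K v)
          have h2 : 1 ≤ |discr (K v)| := Int.one_le_abs h1
          exact_mod_cast h2
        have hD0 : 0 < D := by linarith
        have hsD : √D ≤ √Y := Real.sqrt_le_sqrt hDY
        have hmono := sqrt_div_mono m₀ hM2 D Y hD0 hDY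
        have hinv : D ^ (-(1 / (m₀ : ℝ))) = 1 / D ^ (1 / (m₀ : ℝ)) := by
          rw [Real.rpow_neg hD0.le]
          exact (one_div _).symm
        obtain ⟨y, hy⟩ : ∃ y : ℝ, y = D ^ (1 / (m₀ : ℝ)) := ⟨_, rfl⟩
        have hy0 : 0 < y := by rw [hy]; positivity
        rw [← hy] at hinv hgood
        rw [hinv] at hmono hgood
        have hYμ : √Y * Y ^ (-(1 / (m₀ : ℝ))) ≤ √Y * μ := mul_le_mul_of_nonneg_left (by rw [hμ]; exact le_max_left _ _) hsY.le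
        have hβμ : √Y * (1 / β) ≤ √Y * μ := mul_le_mul_of_nonneg_left (by rw [hμ]; exact le_max_right _ _) hsY.le
        by_cases hall : ∀ r : ℕ, k ^ A ≤ 2 ^ r → (2 ^ r) ^ W ≤ B ^ k → 600 * (2 : ℝ) ^ r ≤ y → min (y / 600) β < 2 * (2 : ℝ) ^ r →
            (Nat.primeCounting (2 ^ r) : ℝ) / (8 * n) ≤ (cntH F j (2 ^ r) v : ℝ)
        · have h1 := hgood hall
          have h2 : √D * max (1 / y) (1 / β) ≤ √Y * μ := by
            rcases le_total (1 / y) (1 / β) with h3 | h3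
            · rw [max_eq_right h3]
              exact (mul_le_mul_of_nonneg_right hsD (by positivity)).trans hβμ
            · rw [max_eq_left h3]
              exact hmono.trans hYμ
          have h0 : (Nat.card {x : ClassGroup (𝓞 (K v)) // x ^ ℓ = 1} : ℝ) ≤ (k : ℝ) ^ B₁ * (√Y * μ) := by
            calc (Nat.card {x : ClassGroup (𝓞 (K v)) // x ^ ℓ = 1} : ℝ) ≤ (k : ℝ) ^ B₁ * √D * max (1 / y) (1 / β) := h1
              _ = (k : ℝ) ^ B₁ * (√D * max (1 / y) (1 / β)) := by ring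
              _ ≤ (k : ℝ) ^ B₁ * (√Y * μ) := mul_le_mul_of_nonneg_left h2 (by positivity)
          exact (pow_le_pow_left₀ (Nat.cast_nonneg _) h0 m).trans (le_add_of_nonneg_right hnn)
        · push Not at hall
          obtain ⟨r, hr1, hr2, hr3, hr4, hr5⟩ := hall
          have hrR : r ∈ R := by
            rw [hR, mem_filter, mem_range]
            refine ⟨?_, hr1, hr2⟩
            have h1 : 2 ^ r ≤ 2 ^ (B * k) := by
              calc 2 ^ r ≤ (2 ^ r) ^ W := Nat.le_self_pow (by omega) _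
                _ ≤ B ^ k := hr2
                _ ≤ (2 ^ B) ^ k := Nat.pow_le_pow_left (Nat.lt_two_pow_self).le _
                _ = 2 ^ (B * k) := by rw [← pow_mul]
            have := (Nat.pow_le_pow_iff_right (by norm_num : 1 < 2)).1 h1
            omega
          have h2r : (0 : ℝ) < 2 ^ r := by positivity
          have h1 : √D ≤ 1200 * (2 : ℝ) ^ r * (√Y * μ) := by
            rcases min_lt_iff.1 hr4 with h3 | h3
            · have h4 : 1 ≤ 1200 * (2 : ℝ) ^ r * (1 / y) := by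
                rw [mul_one_div, le_div_iff₀ hy0]
                linarith
              calc √D = √D * 1 := (mul_one _).symm
                _ ≤ √D * (1200 * (2 : ℝ) ^ r * (1 / y)) := mul_le_mul_of_nonneg_left h4 (Real.sqrt_nonneg _)
                _ = 1200 * (2 : ℝ) ^ r * (√D * (1 / y)) := by ring
                _ ≤ 1200 * (2 : ℝ) ^ r * (√Y * μ) := mul_le_mul_of_nonneg_left (hmono.trans hYμ) (by positivity)
            · have h4 : 1 ≤ 1200 * (2 : ℝ) ^ r * (1 / β) := by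
                rw [mul_one_div, le_div_iff₀ hβ0]
                linarith
              calc √D ≤ √Y * 1 := by rw [mul_one]; exact hsD
                _ ≤ √Y * (1200 * (2 : ℝ) ^ r * (1 / β)) := mul_le_mul_of_nonneg_left h4 hsY.le
                _ = 1200 * (2 : ℝ) ^ r * (√Y * (1 / β)) := by ring
                _ ≤ 1200 * (2 : ℝ) ^ r * (√Y * μ) := mul_le_mul_of_nonneg_left hβμ (by positivity)
          have h2 : (Nat.card {x : ClassGroup (𝓞 (K v)) // x ^ ℓ = 1} : ℝ) ^ m ≤ G r := by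
            rw [hG]
            exact pow_le_pow_left₀ (Nat.cast_nonneg _) (htriv.trans (mul_le_mul_of_nonneg_left h1 (by positivity))) m
          have h3 : G r ≤ ∑ r ∈ R, G r * (if (Nat.primeCounting (2 ^ r) : ℝ) / (8 * n) ≤ (cntH F j (2 ^ r) v : ℝ) then 0 else 1) := by
            have h4 := single_le_sum (f := fun r => G r * (if (Nat.primeCounting (2 ^ r) : ℝ) / (8 * n) ≤ (cntH F j (2 ^ r) v : ℝ) then (0 : ℝ) else 1))
              (s := R) (fun r _ => by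
                rw [hG]
                split_ifs <;> positivity) hrR
            rw [if_neg (not_le.2 hr5), mul_one] at h4
            exact h4
          have h4 : 0 ≤ ((k : ℝ) ^ B₁ * (√Y * μ)) ^ m := by positivity
          linarith
      · rw [if_neg hvS]
        have h4 : 0 ≤ ((k : ℝ) ^ B₁ * (√Y * μ)) ^ m := by positivity
        linarith)
  refine MeanS.mono hmean ?_
  obtain ⟨Z, hZ⟩ : ∃ Z : ℝ, Z = ((k : ℝ) ^ B₁ * (√Y * μ)) ^ m := ⟨_, rfl⟩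
  have hZ0 : 0 ≤ Z := by rw [hZ]; positivity
  have hterm : ∀ r ∈ R, G r * τ r ≤ Z * ((k : ℝ) ^ (2 * e) * (C * (1200 * (B : ℝ) ^ 2) ^ m * (k : ℝ) ^ (2 * m))) := by
    intro r hr
    rw [hR, mem_filter, mem_range] at hr
    have h2r : (0 : ℝ) < 2 ^ r := by positivity
    have h1 : Real.log ((2 ^ r : ℕ) : ℝ) ≤ B * k := by
      push_cast
      rw [Real.log_pow]
      have h2 := Real.log_two_lt_d9
      have h3 : (r : ℝ) ≤ B * k := by exact_mod_cast (by omega : r ≤ B * k)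
      have h4 : (0 : ℝ) ≤ r := Nat.cast_nonneg _
      nlinarith
    have h0 : 0 ≤ Real.log ((2 ^ r : ℕ) : ℝ) := Real.log_natCast_nonneg _
    have h5 : Real.log ((2 ^ r : ℕ) : ℝ) ^ 2 ≤ (B : ℝ) ^ 2 * (k : ℝ) ^ 2 := by
      rw [← mul_pow]
      exact pow_le_pow_left₀ h0 h1 2
    rw [hG, hτ]
    simp only
    have e' : ((k : ℝ) ^ B₁ * (1200 * (2 : ℝ) ^ r * (√Y * μ))) ^ m * (Real.log N ^ e * (C * (Real.log ((2 ^ r : ℕ) : ℝ) ^ 2 / ((2 ^ r : ℕ) : ℝ)) ^ m)) =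
        Z * (Real.log N ^ e * (C * (1200 * Real.log ((2 ^ r : ℕ) : ℝ) ^ 2) ^ m)) := by
      have e1 : ((k : ℝ) ^ B₁ * (1200 * (2 : ℝ) ^ r * (√Y * μ))) ^ m = Z * (1200 * (2 : ℝ) ^ r) ^ m := by
        rw [hZ, ← mul_pow]
        congr 1
        ring
      have e2 : (1200 * (2 : ℝ) ^ r) ^ m * (Real.log ((2 ^ r : ℕ) : ℝ) ^ 2 / ((2 ^ r : ℕ) : ℝ)) ^ m = (1200 * Real.log ((2 ^ r : ℕ) : ℝ) ^ 2) ^ m := by
        rw [← mul_pow]
        congr 1
        push_cast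
        field_simp
      rw [e1, ← e2]
      ring
    rw [e']
    apply mul_le_mul_of_nonneg_left _ hZ0
    apply mul_le_mul hlN _ (by positivity) (by positivity)
    have e3 : C * (1200 * (B : ℝ) ^ 2) ^ m * (k : ℝ) ^ (2 * m) = C * (1200 * ((B : ℝ) ^ 2 * (k : ℝ) ^ 2)) ^ m := by
      rw [pow_mul (k : ℝ) 2 m, mul_assoc, ← mul_pow]
      congr 2
      ring
    rw [e3]
    apply mul_le_mul_of_nonneg_left _ hC.le
    apply pow_le_pow_left₀ (by positivity)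
    exact mul_le_mul_of_nonneg_left h5 (by norm_num)
  have hRc : (R.card : ℝ) ≤ (B + 1) * k := by
    have h1 : R.card ≤ B * k + 1 := by
      rw [hR]
      refine (card_filter_le _ _).trans ?_
      rw [card_range]
    have h2 : (R.card : ℝ) ≤ B * k + 1 := by exact_mod_cast h1
    linarith
  have hsum : ∑ r ∈ R, G r * τ r ≤ ((B + 1) * k) * (Z * ((k : ℝ) ^ (2 * e) * (C * (1200 * (B : ℝ) ^ 2) ^ m * (k : ℝ) ^ (2 * m)))) := by
    refine (sum_le_card_nsmul _ _ _ hterm).trans ?_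
    rw [nsmul_eq_mul]
    exact mul_le_mul_of_nonneg_right hRc (by positivity)
  have hk2' : 1 + C * (1200 * (B : ℝ) ^ 2) ^ m * ((B : ℝ) + 1) ≤ k := hk₂.trans (by exact_mod_cast (by omega : k₂ ≤ k))
  have e4 : ((k : ℝ) ^ (B₁ + (2 + 2 * e + 2 * m)) * (√Y * μ)) ^ m = Z * ((k : ℝ) ^ (2 + 2 * e + 2 * m)) ^ m := by
    rw [hZ, ← mul_pow, pow_add]
    congr 1
    ring
  rw [← hZ, e4]
  calc Z + ∑ r ∈ R, G r * τ r ≤ Z + ((B + 1) * k) * (Z * ((k : ℝ) ^ (2 * e) * (C * (1200 * (B : ℝ) ^ 2) ^ m * (k : ℝ) ^ (2 * m)))) := by linarith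
    _ = Z * (1 + (C * (1200 * (B : ℝ) ^ 2) ^ m * ((B : ℝ) + 1)) * (k * (k : ℝ) ^ (2 * e) * (k : ℝ) ^ (2 * m))) := by ring
    _ ≤ Z * (k * (k * (k : ℝ) ^ (2 * e) * (k : ℝ) ^ (2 * m))) := by
        apply mul_le_mul_of_nonneg_left _ hZ0
        have h1 : (1 : ℝ) ≤ k * (k : ℝ) ^ (2 * e) * (k : ℝ) ^ (2 * m) := by
          have h2 : (1 : ℝ) ≤ (k : ℝ) ^ (2 * e) := one_le_pow₀ hkR
          have h3 : (1 : ℝ) ≤ (k : ℝ) ^ (2 * m) := one_le_pow₀ hkR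
          exact one_le_mul_of_one_le_of_one_le (one_le_mul_of_one_le_of_one_le hkR h2) h3
        have h2 : 0 < C * (1200 * (B : ℝ) ^ 2) ^ m * ((B : ℝ) + 1) := by positivity
        calc 1 + (C * (1200 * (B : ℝ) ^ 2) ^ m * ((B : ℝ) + 1)) * (k * (k : ℝ) ^ (2 * e) * (k : ℝ) ^ (2 * m)) ≤
              (1 + C * (1200 * (B : ℝ) ^ 2) ^ m * ((B : ℝ) + 1)) * (k * (k : ℝ) ^ (2 * e) * (k : ℝ) ^ (2 * m)) := by nlinarith
          _ ≤ k * (k * (k : ℝ) ^ (2 * e) * (k : ℝ) ^ (2 * m)) := mul_le_mul_of_nonneg_right hk2' (by positivity)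
    _ = Z * (k : ℝ) ^ (2 + 2 * e + 2 * m) := by ring
    _ ≤ Z * ((k : ℝ) ^ (2 + 2 * e + 2 * m)) ^ m := by
        apply mul_le_mul_of_nonneg_left _ hZ0
        exact le_self_pow₀ (one_le_pow₀ hkR) (by omega)

end Pool.Agent.H491R4.AF
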