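import Pool.Agent.H491R4.AF7

set_option autoImplicit false

/-! The logarithm of the product of Birch and Swinnerton-Dyer of the quadratic twists of a curve: local factors. -/

namespace Pool.Agent.H491R4.TW
open Finset
open Pool.Agent.R459.Eq
open Pool.Agent.R459.Bsd
open Pool.Agent.H491R4.AF
open Pool.Agent.W263.BSD (GoodPrime pointCount)

section local_
variable {p : ℕ} [Fact p.Prime]

/-- the trace of a twist -/
lemma tr_twist (a b : ZMod p) {t : ZMod p} (ht : t ≠ 0) : tr p (a * t ^ 2) (b * t ^ 3) = ch p t * tr p a b := by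
  unfold tr
  have h1 : ∑ x : ZMod p, ch p ((x ^ 3 + a * t ^ 2 * x) + b * t ^ 3) = ∑ x : ZMod p, ch p t * ch p ((x ^ 3 + a * x) + b) := by
    symm
    refine Fintype.sum_equiv (Equiv.mulLeft₀ t ht) _ _ fun x => ?_
    show ch p t * ch p ((x ^ 3 + a * x) + b) = ch p (((t * x) ^ 3 + a * t ^ 2 * (t * x)) + b * t ^ 3)
    have e : ((t * x) ^ 3 + a * t ^ 2 * (t * x)) + b * t ^ 3 = (t * t) * (t * ((x ^ 3 + a * x) + b)) := by ring
    rw [e, ch_mul, ch_mul t ((x ^ 3 + a * x) + b), ch_mul t t, ch_sq ht, one_mul]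
  rw [h1, ← mul_sum]
  ring

lemma y_gen (hp29 : 29 ≤ p) {T : ℝ} (hT : |T| ≤ 2 * √p) : |(1 - T) / p| ≤ 3 / √p ∧ |(1 - T) / p| ≤ 1 / 2 := by
  have hp0 : (0 : ℝ) < p := by exact_mod_cast (by omega : 0 < p)
  have hs0 : 0 < √(p : ℝ) := Real.sqrt_pos.2 hp0
  have hs5 : (53 / 10 : ℝ) ≤ √(p : ℝ) := by
    apply Real.le_sqrt_of_sq_le
    have : (29 : ℝ) ≤ p := by exact_mod_cast hp29
    norm_num
    linarith
  have hss : √(p : ℝ) * √(p : ℝ) = p := Real.mul_self_sqrt hp0.le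
  have h2 : |1 - T| ≤ 1 + 2 * √p := by
    calc |1 - T| ≤ |1| + |T| := abs_sub _ _
      _ ≤ 1 + 2 * √p := by rw [abs_one]; linarith
  rw [abs_div, abs_of_pos hp0]
  refine ⟨?_, ?_⟩
  · rw [div_le_div_iff₀ hp0 hs0]
    calc |1 - T| * √p ≤ (1 + 2 * √p) * √p := mul_le_mul_of_nonneg_right h2 hs0.le
      _ ≤ 3 * (√(p : ℝ) * √(p : ℝ)) := by nlinarith
      _ = 3 * p := by rw [hss]
  · rw [div_le_iff₀ hp0]
    nlinarith

end local_

lemma pc_congr {p : ℕ} {a a' n n' : ℤ} (ha : (p : ℤ) ∣ a - a') (hn : (p : ℤ) ∣ n - n') : pointCount a n p = pointCount a' n' p := by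
  have h1 : ((a : ℤ) : ZMod p) = ((a' : ℤ) : ZMod p) := by
    rw [← sub_eq_zero, ← Int.cast_sub, ZMod.intCast_zmod_eq_zero_iff_dvd]
    exact ha
  have h2 : ((n : ℤ) : ZMod p) = ((n' : ℤ) : ZMod p) := by
    rw [← sub_eq_zero, ← Int.cast_sub, ZMod.intCast_zmod_eq_zero_iff_dvd]
    exact hn
  unfold pointCount
  rw [h1, h2]

lemma good_congr {p : ℕ} {a a' n n' : ℤ} (ha : (p : ℤ) ∣ a - a') (hn : (p : ℤ) ∣ n - n') : GoodPrime a n p ↔ GoodPrime a' n' p := by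
  unfold GoodPrime
  have h1 : (p : ℤ) ∣ 2 * (-4 * a ^ 3 - 27 * n ^ 2) - 2 * (-4 * a' ^ 3 - 27 * n' ^ 2) := by
    have : 2 * (-4 * a ^ 3 - 27 * n ^ 2) - 2 * (-4 * a' ^ 3 - 27 * n' ^ 2) =
        (a - a') * (-8 * (a ^ 2 + a * a' + a' ^ 2)) + (n - n') * (-54 * (n + n')) := by ring
    rw [this]
    exact dvd_add (ha.mul_right _) (hn.mul_right _)
  rw [(dvd_iff_dvd_of_dvd_sub h1)]

lemma GG_congr {p : ℕ} {a a' n n' : ℤ} (ha : (p : ℤ) ∣ a - a') (hn : (p : ℤ) ∣ n - n') : GG a p n = GG a' p n' := by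
  classical
  unfold GG
  rw [pc_congr ha hn]
  exact if_congr (good_congr ha hn) rfl rfl

/-- the logarithm of the local factor of the twist by `D` of `y² = x³ + a x + b` -/
noncomputable def HH (a b : ℤ) (p : ℕ) (D : ℤ) : ℝ := GG (a * D ^ 2) p (b * D ^ 3)

lemma HH_per (a b : ℤ) (p : ℕ) : Per p (HH a b p) := by
  intro m n h
  unfold HH
  apply GG_congr
  · have : a * m ^ 2 - a * n ^ 2 = (m - n) * (a * (m + n)) := by ring
    rw [this]
    exact h.mul_right _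
  · have : b * m ^ 3 - b * n ^ 3 = (m - n) * (b * (m ^ 2 + m * n + n ^ 2)) := by ring
    rw [this]
    exact h.mul_right _

lemma good_twist {p : ℕ} (a b D : ℤ) : GoodPrime (a * D ^ 2) (b * D ^ 3) p ↔ GoodPrime a b p ∧ ¬ (p : ℤ) ∣ D := by
  unfold GoodPrime
  constructor
  · rintro ⟨hp, h⟩
    refine ⟨⟨hp, fun h1 => h ?_⟩, fun h1 => h ?_⟩
    · have : 2 * (-4 * (a * D ^ 2) ^ 3 - 27 * (b * D ^ 3) ^ 2) = 2 * (-4 * a ^ 3 - 27 * b ^ 2) * D ^ 6 := by ring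
      rw [this]
      exact h1.mul_right _
    · have : 2 * (-4 * (a * D ^ 2) ^ 3 - 27 * (b * D ^ 3) ^ 2) = D * (2 * (-4 * a ^ 3 - 27 * b ^ 2) * D ^ 5) := by ring
      rw [this]
      exact h1.mul_right _
  · rintro ⟨⟨hp, h⟩, hD⟩
    refine ⟨hp, fun h1 => ?_⟩
    have : 2 * (-4 * (a * D ^ 2) ^ 3 - 27 * (b * D ^ 3) ^ 2) = 2 * (-4 * a ^ 3 - 27 * b ^ 2) * D ^ 6 := by ring
    rw [this] at h1
    have hpi : Prime (p : ℤ) := Nat.prime_iff_prime_int.1 hp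
    rcases hpi.dvd_mul.1 h1 with h2 | h2
    · exact h h2
    · exact hD (hpi.dvd_of_dvd_pow h2)

/-- the mean of the local factor of the twists -/
lemma mean_HH {p : ℕ} (hpp : p.Prime) (hp29 : 29 ≤ p) (a b : ℤ) (hg : GoodPrime a b p) :
    |mean p (HH a b p) - (1 / (p : ℝ) - ((p : ℝ) - pointCount a b p) ^ 2 / (2 * (p : ℝ) ^ 2))| ≤ 61 * (1 / ((p : ℝ) * √p)) := by
  classical
  haveI : Fact p.Prime := ⟨hpp⟩
  have hp0 : (0 : ℝ) < p := by exact_mod_cast hpp.pos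
  have hp1 : (1 : ℝ) ≤ p := by exact_mod_cast hpp.one_le
  have hs0 : 0 < √(p : ℝ) := Real.sqrt_pos.2 hp0
  have hs1 : 1 ≤ √(p : ℝ) := by rw [Real.one_le_sqrt]; exact hp1
  have hss : √(p : ℝ) * √(p : ℝ) = p := Real.mul_self_sqrt hp0.le
  have hsp : √(p : ℝ) ≤ p := by nlinarith
  obtain ⟨T, hT⟩ : ∃ T : ℝ, T = tr p (a : ZMod p) (b : ZMod p) := ⟨_, rfl⟩
  have hTa : |T| ≤ 2 * √p := by
    rw [hT]
    exact tr_abs (by omega) _ _
  have hTm : |(-T)| ≤ 2 * √p := by rwa [abs_neg]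
  obtain ⟨u, hu⟩ : ∃ u : ℝ, u = (1 - T) / p := ⟨_, rfl⟩
  obtain ⟨v, hv⟩ : ∃ v : ℝ, v = (1 + T) / p := ⟨_, rfl⟩
  have hu1 : |u| ≤ 3 / √p ∧ |u| ≤ 1 / 2 := by rw [hu]; exact y_gen hp29 hTa
  have hv1 : |v| ≤ 3 / √p ∧ |v| ≤ 1 / 2 := by
    have := y_gen hp29 hTm
    rw [sub_neg_eq_add] at this
    rw [hv]
    exact this
  obtain ⟨Lu, hLu⟩ : ∃ Lu : ℝ, Lu = Real.log (1 + u) := ⟨_, rfl⟩
  obtain ⟨Lv, hLv⟩ : ∃ Lv : ℝ, Lv = Real.log (1 + v) := ⟨_, rfl⟩
  -- the values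
  have hval : ∀ t : ℤ, HH a b p t = if ((t : ℤ) : ZMod p) = 0 then 0 else (Lu + Lv) / 2 + ch p (t : ZMod p) * ((Lu - Lv) / 2) := by
    intro t
    unfold HH
    by_cases h0 : ((t : ℤ) : ZMod p) = 0
    · rw [if_pos h0]
      unfold GG
      rw [if_neg]
      rw [good_twist]
      rintro ⟨_, h1⟩
      exact h1 ((ZMod.intCast_zmod_eq_zero_iff_dvd _ _).1 h0)
    · rw [if_neg h0]
      have hgt : GoodPrime (a * t ^ 2) (b * t ^ 3) p := by
        rw [good_twist]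
        exact ⟨hg, fun h1 => h0 ((ZMod.intCast_zmod_eq_zero_iff_dvd _ _).2 h1)⟩
      rw [GG_eq hp29 _ _ hgt]
      push_cast
      rw [tr_twist _ _ h0, ← hT]
      have h3 := ch_sq h0
      have h4 : (ch p (t : ZMod p) - 1) * (ch p (t : ZMod p) + 1) = 0 := by linear_combination h3
      rcases mul_eq_zero.1 h4 with h5 | h5
      · have h6 : ch p (t : ZMod p) = 1 := by linarith
        rw [h6, hLu, hLv, hu]
        ring_nf
      · have h6 : ch p (t : ZMod p) = -1 := by linarith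
        rw [h6, hLu, hLv, hv]
        have e : (1 - -1 * T) = 1 + T := by ring
        rw [e]
        ring
  have hmean : mean p (HH a b p) = (Lu + Lv) / 2 - (Lu + Lv) / (2 * p) := by
    unfold mean
    simp only [hval]
    rw [sum_zmod (p := p) (fun z : ZMod p => if z = 0 then (0 : ℝ) else (Lu + Lv) / 2 + ch p z * ((Lu - Lv) / 2))]
    have h1 : ∀ z : ZMod p, (if z = 0 then (0 : ℝ) else (Lu + Lv) / 2 + ch p z * ((Lu - Lv) / 2)) =
        (Lu + Lv) / 2 + ch p z * ((Lu - Lv) / 2) - (if z = 0 then (Lu + Lv) / 2 else 0) := by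
      intro z
      by_cases hz : z = 0
      · rw [if_pos hz, if_pos hz, hz, ch_zero]
        ring
      · rw [if_neg hz, if_neg hz, sub_zero]
    rw [sum_congr rfl (fun z _ => h1 z), sum_sub_distrib, sum_add_distrib, ← sum_mul, ch_sum (by omega), zero_mul, add_zero,
      sum_const, card_univ, ZMod.card, nsmul_eq_mul, sum_ite_eq' univ (0 : ZMod p), if_pos (mem_univ _)]
    field_simp
  have hpc : (p : ℝ) - pointCount a b p = T := by
    rw [hT]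
    exact pc_eq (by omega) a b
  rw [hmean, hpc]
  have hcube : (3 / √(p : ℝ)) ^ 3 = 27 / (p * √p) := by
    rw [div_pow]
    congr 1
    · norm_num
    · rw [pow_succ, sq, hss]
  have hLu1 : |Lu - (u - u ^ 2 / 2)| ≤ 54 / (p * √p) := by
    have h6 : |u| ^ 3 ≤ 27 / (p * √p) := by
      rw [← hcube]
      exact pow_le_pow_left₀ (abs_nonneg _) hu1.1 3
    have e1 : (54 : ℝ) / (p * √p) = 2 * (27 / (p * √p)) := by ring
    rw [e1, hLu]
    linarith [(log_le hu1.2).1]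
  have hLv1 : |Lv - (v - v ^ 2 / 2)| ≤ 54 / (p * √p) := by
    have h6 : |v| ^ 3 ≤ 27 / (p * √p) := by
      rw [← hcube]
      exact pow_le_pow_left₀ (abs_nonneg _) hv1.1 3
    have e1 : (54 : ℝ) / (p * √p) = 2 * (27 / (p * √p)) := by ring
    rw [e1, hLv]
    linarith [(log_le hv1.2).1]
  have hLu2 : |Lu| ≤ 6 / √p := by
    have e1 : (6 : ℝ) / √p = 2 * (3 / √p) := by ring
    rw [e1, hLu]
    linarith [(log_le hu1.2).2, hu1.1]
  have hLv2 : |Lv| ≤ 6 / √p := by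
    have e1 : (6 : ℝ) / √p = 2 * (3 / √p) := by ring
    rw [e1, hLv]
    linarith [(log_le hv1.2).2, hv1.1]
  have e0 : (Lu + Lv) / 2 - (Lu + Lv) / (2 * p) - (1 / (p : ℝ) - T ^ 2 / (2 * (p : ℝ) ^ 2)) =
      ((Lu - (u - u ^ 2 / 2)) / 2 + (Lv - (v - v ^ 2 / 2)) / 2) - 1 / (2 * (p : ℝ) ^ 2) - (Lu + Lv) / (2 * p) := by
    rw [hu, hv]
    field_simp
    ring
  rw [e0]
  have k1 : |(Lu - (u - u ^ 2 / 2)) / 2 + (Lv - (v - v ^ 2 / 2)) / 2| ≤ 54 * (1 / ((p : ℝ) * √p)) := by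
    refine (abs_add_le _ _).trans ?_
    rw [abs_div, abs_div, abs_of_pos (show (0 : ℝ) < 2 by norm_num)]
    have e1 : (54 : ℝ) * (1 / ((p : ℝ) * √p)) = 54 / (p * √p) := by ring
    rw [e1]
    linarith
  have k2 : |1 / (2 * (p : ℝ) ^ 2)| ≤ 1 * (1 / ((p : ℝ) * √p)) := by
    rw [abs_of_pos (by positivity), one_mul]
    apply one_div_le_one_div_of_le (by positivity)
    have : (p : ℝ) * √p ≤ p * p := mul_le_mul_of_nonneg_left hsp hp0.le
    nlinarith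
  have k3 : |(Lu + Lv) / (2 * p)| ≤ 6 * (1 / ((p : ℝ) * √p)) := by
    rw [abs_div, abs_of_pos (show (0 : ℝ) < 2 * p by positivity), div_le_iff₀ (by positivity)]
    have h1 : |Lu + Lv| ≤ 12 / √p := by
      refine (abs_add_le _ _).trans ?_
      have e1 : (12 : ℝ) / √p = 6 / √p + 6 / √p := by ring
      rw [e1]
      linarith
    refine h1.trans (le_of_eq ?_)
    field_simp
    ring
  calc _ ≤ |(Lu - (u - u ^ 2 / 2)) / 2 + (Lv - (v - v ^ 2 / 2)) / 2 - 1 / (2 * (p : ℝ) ^ 2)| + |(Lu + Lv) / (2 * p)| := abs_sub _ _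
    _ ≤ (|(Lu - (u - u ^ 2 / 2)) / 2 + (Lv - (v - v ^ 2 / 2)) / 2| + |1 / (2 * (p : ℝ) ^ 2)|) + |(Lu + Lv) / (2 * p)| :=
        add_le_add_left (abs_sub _ _) _
    _ ≤ (54 * (1 / ((p : ℝ) * √p)) + 1 * (1 / ((p : ℝ) * √p))) + 6 * (1 / ((p : ℝ) * √p)) := add_le_add (add_le_add k1 k2) k3
    _ = _ := by ring

open Classical in
/-- the local centre -/
noncomputable def cc (a b : ℤ) (p : ℕ) : ℝ :=
  if GoodPrime a b p then 1 / (p : ℝ) - ((p : ℝ) - pointCount a b p) ^ 2 / (2 * (p : ℝ) ^ 2) else 0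

lemma mean_HH' {p : ℕ} (hpp : p.Prime) (hp29 : 29 ≤ p) (a b : ℤ) :
    |mean p (HH a b p) - cc a b p| ≤ 61 * (1 / ((p : ℝ) * √p)) := by
  classical
  unfold cc
  by_cases hg : GoodPrime a b p
  · rw [if_pos hg]
    exact mean_HH hpp hp29 a b hg
  · rw [if_neg hg, sub_zero]
    have h1 : mean p (HH a b p) = 0 := by
      unfold mean
      rw [sum_eq_zero, zero_div]
      intro t _
      unfold HH GG
      rw [if_neg]
      rw [good_twist]
      rintro ⟨h2, _⟩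
      exact hg h2
    rw [h1, abs_zero]
    positivity

lemma cc_crude {p : ℕ} (hpp : p.Prime) (a b : ℤ) : |cc a b p| ≤ (p : ℝ) ^ 2 := by
  classical
  haveI : Fact p.Prime := ⟨hpp⟩
  haveI : NeZero p := ⟨hpp.ne_zero⟩
  have hp1 : (1 : ℝ) ≤ p := by exact_mod_cast hpp.one_le
  have hp0 : (0 : ℝ) < p := by linarith
  unfold cc
  split_ifs with h
  · have h1 : (pointCount a b p : ℝ) ≤ (p : ℝ) ^ 2 := by
      have h2 : pointCount a b p ≤ p ^ 2 := by
        unfold pointCount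
        rw [Nat.card_eq_fintype_card]
        refine (Fintype.card_subtype_le _).trans (le_of_eq ?_)
        rw [Fintype.card_prod, ZMod.card, sq]
      exact_mod_cast h2
    have h0 : (0 : ℝ) ≤ pointCount a b p := Nat.cast_nonneg _
    have h3 : ((p : ℝ) - pointCount a b p) ^ 2 ≤ ((p : ℝ) ^ 2) ^ 2 := by
      apply sq_le_sq'
      · linarith
      · nlinarith
    have h4 : ((p : ℝ) - pointCount a b p) ^ 2 / (2 * (p : ℝ) ^ 2) ≤ (p : ℝ) ^ 2 / 2 := by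
      rw [div_le_div_iff₀ (by positivity) (by norm_num)]
      nlinarith
    have h5 : 0 ≤ ((p : ℝ) - pointCount a b p) ^ 2 / (2 * (p : ℝ) ^ 2) := by positivity
    have h6 : 1 / (p : ℝ) ≤ 1 := by rw [div_le_one hp0]; exact hp1
    have h7 : 0 ≤ 1 / (p : ℝ) := by positivity
    rw [abs_le]
    constructor <;> nlinarith
  · rw [abs_zero]
    positivity

end Pool.Agent.H491R4.TW
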