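import Pool.Agent.H491R4.TW1

set_option autoImplicit false

/-! The mean square of the logarithm of the product of Birch and Swinnerton-Dyer over the quadratic twists by the members of an
automatic set. -/

namespace Pool.Agent.H491R4.TW
open Finset
open Pool.Agent.R459.Eq
open Pool.Agent.R459.Bsd
open Pool.Agent.H491R4.AF
open Pool.Agent.W263.BSD (GoodPrime pointCount)

lemma exp_exp : Real.exp (Real.exp 1) ≤ 16 := by
  have h2 := Real.exp_one_lt_d9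
  calc Real.exp (Real.exp 1) ≤ Real.exp (2.7182818286) := Real.exp_le_exp.2 h2.le
    _ ≤ 16 := by
      have h3 : Real.exp (2.7182818286) = (Real.exp (2.7182818286 / 4)) ^ 4 := by
        rw [← Real.exp_nat_mul]
        congr 1
        norm_num
      rw [h3]
      have h4 : Real.exp (2.7182818286 / 4) ≤ 2 := by
        have h5 : (2.7182818286 / 4 : ℝ) ≤ Real.log 2 := by
          have := Real.log_two_gt_d9
          norm_num
          linarith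
        calc Real.exp (2.7182818286 / 4) ≤ Real.exp (Real.log 2) := Real.exp_le_exp.2 h5
          _ = 2 := Real.exp_log (by norm_num)
      calc (Real.exp (2.7182818286 / 4)) ^ 4 ≤ 2 ^ 4 := pow_le_pow_left₀ (Real.exp_pos _).le h4 4
        _ = 16 := by norm_num

/-- the mean square of the logarithm of the product, for the twists of any curve -/
theorem tw_ms_from (b : ℕ) (hb : 2 ≤ b) (A : ℕ) (γ : ℝ) (hγ0 : 0 < γ) (hγ1 : γ < 1) : ∃ W : ℕ, 1 ≤ W ∧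
    ∀ (F : ℕ) (κ : ℤ), 1 ≤ F → κ ≠ 0 → ∃ C : ℝ, 0 < C ∧ ∀ (a a' : ℤ) (k x t₀ : ℕ), 16 ≤ x → b ≤ x → x ^ W ≤ b ^ k → b ^ t₀ ≤ x →
    ∀ (ι : Type) (Ω : Finset ι) (w : ι → ℝ) (v : ι → ℤ), DecaysFrom b F A k t₀ γ κ Ω w v →
      ∑ i ∈ Ω, w i * (∑ p ∈ pri x, HH a a' p (v i) - ∑ p ∈ pri x, cc a a' p) ^ 2 ≤ C * Real.log (Real.log x) := by
  classical
  obtain ⟨W, hW, H⟩ := wms_from b hb A γ hγ0 hγ1
  refine ⟨W, hW, fun F κ hF hκ => ?_⟩
  obtain ⟨S, C, hC, hcount, hmain⟩ := H F κ hF hκ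
  obtain ⟨p₀, hp₀⟩ : ∃ p₀ : ℕ, p₀ = 29 + b + 1 := ⟨_, rfl⟩
  obtain ⟨K₁, hK₁, hmert⟩ := mertens p₀
  obtain ⟨K₂, hK₂, hp32⟩ := sum_p32
  obtain ⟨K₃, hK₃⟩ : ∃ K₃ : ℝ, K₃ = (p₀ : ℝ) * (p₀ : ℝ) ^ 2 := ⟨_, rfl⟩
  obtain ⟨K₄, hK₄⟩ : ∃ K₄ : ℝ, K₄ = 61 * K₂ + K₃ := ⟨_, rfl⟩
  have hK₃0 : 0 ≤ K₃ := by rw [hK₃]; positivity
  have hK₄0 : 0 ≤ K₄ := by rw [hK₄]; positivity
  refine ⟨3 * (K₃ ^ 2 + K₄ ^ 2 + 36 * (4 * (1 + K₁) + 128 * C + 1)), by positivity, fun a a' k x t₀ hx16 hbx hxW ht₀ ι Ω w v hdec => ?_⟩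
  have hxr : (16 : ℝ) ≤ x := by exact_mod_cast hx16
  obtain ⟨ℓ, hℓ⟩ : ∃ ℓ, ℓ = Real.log (Real.log x) := ⟨_, rfl⟩
  have hℓ1 : 1 ≤ ℓ := by
    have h1 : Real.exp 1 ≤ Real.log x := by
      rw [Real.le_log_iff_exp_le (by linarith)]
      exact exp_exp.trans hxr
    rw [hℓ, Real.le_log_iff_exp_le (lt_of_lt_of_le (Real.exp_pos 1) h1)]
    exact h1
  obtain ⟨P, hP⟩ : ∃ P : Finset ℕ, P = (pri x).filter (fun p => ¬ p < p₀) := ⟨_, rfl⟩
  have hPm : ∀ p ∈ P, p.Prime ∧ p ≤ x ∧ p₀ ≤ p := by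
    intro p hp
    rw [hP, mem_filter, mem_pri] at hp
    exact ⟨hp.1.2, hp.1.1, by omega⟩
  have hPb : ∀ p ∈ P, p.Prime ∧ p ≤ x ∧ ¬ p ∣ b := by
    intro p hp
    have h1 := hPm p hp
    refine ⟨h1.1, h1.2.1, fun h2 => ?_⟩
    have := Nat.le_of_dvd (by omega) h2
    omega
  have h1 := hmain k x t₀ hbx hxW ht₀ ι Ω w v hdec P hPb (fun p n => HH a a' p n / 6) (fun p => 1 / √p) (fun m => 1 / √m)
    (by
      intro p
      refine ⟨by positivity, ?_⟩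
      rcases Nat.eq_zero_or_pos p with h | h
      · rw [h]; simp
      · have : (1 : ℝ) ≤ √p := by rw [Real.one_le_sqrt]; exact_mod_cast h
        rw [div_le_one (by linarith)]
        exact this)
    (by
      intro p hp n
      have h2 := GG_abs (hPm p hp).1 (by have := (hPm p hp).2.2; omega) (a * n ^ 2) (a' * n ^ 3)
      rw [abs_div, abs_of_pos (show (0 : ℝ) < 6 by norm_num), div_le_iff₀ (by norm_num)]
      unfold HH
      refine h2.trans (le_of_eq (by ring)))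
    (by
      intro p hp m n hmn
      show HH a a' p m / 6 = HH a a' p n / 6
      rw [HH_per a a' p m n hmn])
    (by intro m; positivity)
    (by
      intro p _ q _
      push_cast
      rw [Real.sqrt_mul (Nat.cast_nonneg _), one_div_mul_one_div])
  have hsp : ∑ m ∈ (Icc 1 (x ^ 2)).filter (fun m => m ∈ S), 1 / √(m : ℝ) ≤ 16 * C := by
    apply sparse_sum C hC
    · intro M T' hT'
      refine hcount M T' fun m hm => ?_
      have h2 := hT' m hm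
      rw [mem_filter, mem_Icc] at h2
      exact ⟨h2.1.2, h2.1.1.1, h2.2⟩
    · intro m hm
      rw [mem_filter, mem_Icc] at hm
      exact hm.1.1
  have hc2 : ∑ p ∈ P, (1 / √(p : ℝ)) ^ 2 ≤ ℓ + K₁ := by
    have h2 : ∀ p ∈ P, (1 / √(p : ℝ)) ^ 2 = 1 / p := by
      intro p _
      rw [div_pow, one_pow, Real.sq_sqrt (Nat.cast_nonneg _)]
    rw [sum_congr rfl h2, hP]
    have := (abs_le.1 (hmert x (by omega))).2
    rw [hℓ]
    linarith
  have hmean6 : ∀ p, mean p (fun n => HH a a' p n / 6) = mean p (HH a a' p) / 6 := by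
    intro p
    unfold mean
    rw [← sum_div]
    ring
  obtain ⟨Bi, hBi⟩ : ∃ Bi : ι → ℝ, Bi = fun i => ∑ p ∈ P, (HH a a' p (v i) - mean p (HH a a' p)) := ⟨_, rfl⟩
  have hB : ∑ i ∈ Ω, w i * (Bi i) ^ 2 ≤ 36 * (4 * (ℓ + K₁) + 128 * C + 1) := by
    have h2 : ∀ i ∈ Ω, w i * (Bi i) ^ 2 = 36 * (w i * (∑ p ∈ P, (HH a a' p (v i) / 6 - mean p (fun n => HH a a' p n / 6))) ^ 2) := by
      intro i _
      have h3 : ∑ p ∈ P, (HH a a' p (v i) / 6 - mean p (fun n => HH a a' p n / 6)) = Bi i / 6 := by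
        rw [hBi, sum_div]
        apply sum_congr rfl
        intro p _
        rw [hmean6]
        ring
      rw [h3]
      ring
    rw [sum_congr rfl h2, ← mul_sum]
    apply mul_le_mul_of_nonneg_left _ (by norm_num)
    linarith
  have hsmall : ∀ g : ℕ → ℝ, (∀ p : ℕ, p.Prime → |g p| ≤ (p : ℝ) ^ 2) → |∑ p ∈ (pri x).filter (fun p => p < p₀), g p| ≤ K₃ := by
    intro g hg
    refine (abs_sum_le_sum_abs _ _).trans ?_
    have h2 : ∀ p ∈ (pri x).filter (fun p => p < p₀), |g p| ≤ (p₀ : ℝ) ^ 2 := by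
      intro p hp
      rw [mem_filter, mem_pri] at hp
      refine (hg p hp.1.2).trans ?_
      apply pow_le_pow_left₀ (Nat.cast_nonneg _)
      exact_mod_cast hp.2.le
    refine (sum_le_card_nsmul _ _ _ h2).trans ?_
    rw [nsmul_eq_mul, hK₃]
    apply mul_le_mul_of_nonneg_right _ (by positivity)
    have h5 : (pri x).filter (fun p => p < p₀) ⊆ range p₀ := by
      intro p hp
      rw [mem_range]
      exact (mem_filter.1 hp).2
    have h6 := card_le_card h5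
    rw [card_range] at h6
    exact_mod_cast h6
  have hCc : |∑ p ∈ P, mean p (HH a a' p) - ∑ p ∈ pri x, cc a a' p| ≤ K₄ := by
    have h2 : |∑ p ∈ P, (mean p (HH a a' p) - cc a a' p)| ≤ 61 * K₂ := by
      refine (abs_sum_le_sum_abs _ _).trans ?_
      have h3 : ∀ p ∈ P, |mean p (HH a a' p) - cc a a' p| ≤ 61 * (1 / ((p : ℝ) * √p)) := by
        intro p hp
        exact mean_HH' (hPm p hp).1 (by have := (hPm p hp).2.2; omega) a a'
      refine (sum_le_sum h3).trans ?_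
      rw [← mul_sum]
      exact mul_le_mul_of_nonneg_left (hp32 P) (by norm_num)
    have h3 : ∑ p ∈ P, mean p (HH a a' p) - ∑ p ∈ pri x, cc a a' p = ∑ p ∈ P, (mean p (HH a a' p) - cc a a' p) -
        ∑ p ∈ (pri x).filter (fun p => p < p₀), cc a a' p := by
      rw [sum_sub_distrib, sum_pri_split p₀ x (cc a a'), ← hP]
      ring
    rw [h3, hK₄]
    exact (abs_sub _ _).trans (add_le_add h2 (hsmall _ fun p hp => cc_crude hp a a'))
  have hA : ∀ i, |∑ p ∈ (pri x).filter (fun p => p < p₀), HH a a' p (v i)| ≤ K₃ := by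
    intro i
    exact hsmall (fun p => HH a a' p (v i)) fun p hp => GG_crude hp _ _
  rw [← hℓ]
  have hterm : ∀ i ∈ Ω, w i * (∑ p ∈ pri x, HH a a' p (v i) - ∑ p ∈ pri x, cc a a' p) ^ 2 ≤
      3 * (K₃ ^ 2 + K₄ ^ 2) * w i + 3 * (w i * (Bi i) ^ 2) := by
    intro i hi
    obtain ⟨α, hα⟩ : ∃ α, α = ∑ p ∈ (pri x).filter (fun p => p < p₀), HH a a' p (v i) := ⟨_, rfl⟩
    obtain ⟨β, hβ⟩ : ∃ β, β = ∑ p ∈ P, mean p (HH a a' p) - ∑ p ∈ pri x, cc a a' p := ⟨_, rfl⟩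
    have h2 : ∑ p ∈ pri x, HH a a' p (v i) - ∑ p ∈ pri x, cc a a' p = α + Bi i + β := by
      rw [sum_pri_split p₀ x (fun p => HH a a' p (v i)), ← hP, hα, hβ, hBi]
      simp only [sum_sub_distrib]
      ring
    have h3 : α ^ 2 ≤ K₃ ^ 2 := by
      rw [← sq_abs, hα]
      exact pow_le_pow_left₀ (abs_nonneg _) (hA i) 2
    have h4 : β ^ 2 ≤ K₄ ^ 2 := by
      rw [← sq_abs, hβ]
      exact pow_le_pow_left₀ (abs_nonneg _) hCc 2
    rw [h2]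
    have h5 : (α + Bi i + β) ^ 2 ≤ 3 * (K₃ ^ 2 + K₄ ^ 2) + 3 * (Bi i) ^ 2 := by
      nlinarith [sq_nonneg (α - Bi i), sq_nonneg (α - β), sq_nonneg (Bi i - β)]
    have h6 := hdec.nonneg i hi
    calc w i * (α + Bi i + β) ^ 2 ≤ w i * (3 * (K₃ ^ 2 + K₄ ^ 2) + 3 * (Bi i) ^ 2) := mul_le_mul_of_nonneg_left h5 h6
      _ = _ := by ring
  refine (sum_le_sum hterm).trans ?_
  rw [sum_add_distrib, ← mul_sum, hdec.sum, ← mul_sum]
  have h7 : 0 ≤ K₃ ^ 2 + K₄ ^ 2 := by positivity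
  have h8 : 36 * (4 * (ℓ + K₁) + 128 * C + 1) ≤ 36 * (4 * (1 + K₁) + 128 * C + 1) * ℓ := by
    have : 0 ≤ K₁ * (ℓ - 1) := mul_nonneg hK₁ (by linarith)
    have : 0 ≤ C * (ℓ - 1) := mul_nonneg hC.le (by linarith)
    nlinarith
  have h9 : K₃ ^ 2 + K₄ ^ 2 ≤ (K₃ ^ 2 + K₄ ^ 2) * ℓ := le_mul_of_one_le_right h7 hℓ1
  nlinarith

variable {σ : Type}

/-- the product, for the twists by the members of automatic sets -/
theorem tw_aut [Fintype σ] (b : ℕ) (hb : 2 ≤ b) (M : DFA ℕ σ)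
    (hS : ∀ k : ℕ, ∃ᶠ N : ℕ in Filter.atTop, Real.log N ^ k < (acc b M N (fun _ => True) : ℝ)) :
    ∃ W e N₀ : ℕ, 1 ≤ W ∧ ∀ κ : ℤ, κ ≠ 0 → ∃ C : ℝ, 0 < C ∧ ∀ N : ℕ, N₀ ≤ N → ∀ a a' c : ℤ, ∀ x : ℕ,
      Real.log N ^ e ≤ x → x ^ W ≤ N → ∀ l : ℝ, 0 < l →
      AlmostS b M N κ c (C / l ^ 2) (fun D =>
        |∑ p ∈ pri x, HH a a' p D - ∑ p ∈ pri x, cc a a' p| ≤ l * √(Real.log (Real.log x))) := by
  classical
  obtain ⟨B, A, e, N₀, C₁, hB, he, hC₁, H⟩ := aut_direct b hb M hS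
  obtain ⟨W, hW, K⟩ := tw_ms_from B hB A (1 / 2) (by norm_num) (by norm_num)
  refine ⟨W, e, N₀ + 1, hW, fun κ hκ => ?_⟩
  obtain ⟨C, hC, J⟩ := K B.factorial κ (Nat.factorial_pos _) hκ
  refine ⟨C₁ * C, by positivity, fun N hN a a' c x hx hxW l hl => ?_⟩
  obtain ⟨hlog, t₀, ht₀, HH'⟩ := H N (by omega)
  have hB2 : (2 : ℝ) ≤ B := by exact_mod_cast hB
  have hlog1 : 1 ≤ Real.log N := by linarith
  have hxr : (16 + B : ℝ) ≤ x := by
    calc (16 + B : ℝ) ≤ Real.log N := hlog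
      _ = Real.log N ^ 1 := (pow_one _).symm
      _ ≤ Real.log N ^ e := pow_le_pow_right₀ hlog1 he
      _ ≤ x := hx
  have hxn : 16 + B ≤ x := by exact_mod_cast hxr
  have ht₀x : B ^ t₀ ≤ x := by exact_mod_cast ht₀.trans hx
  have hN2 : N < B ^ (Nat.log B N + 1) := Nat.lt_pow_succ_log_self (by omega) N
  rw [mul_div_assoc]
  refine HH' κ c (C / l ^ 2) _ fun ι Ω w v hdec E hE hbad => ?_
  have hms := J a a' (Nat.log B N + 1) x t₀ (by omega) (by omega) (hxW.trans hN2.le) ht₀x ι Ω w v hdec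
  obtain ⟨ℓ, hℓ⟩ : ∃ ℓ, ℓ = Real.log (Real.log x) := ⟨_, rfl⟩
  have hℓ0 : 0 < ℓ := by
    rw [hℓ]
    apply Real.log_pos
    rw [Real.lt_log_iff_exp_lt (by linarith)]
    have h5 := Real.exp_one_lt_d9
    linarith
  rw [← hℓ] at hms
  have h5 : ∀ i ∈ E, l ^ 2 * ℓ ≤ (∑ p ∈ pri x, HH a a' p (v i) - ∑ p ∈ pri x, cc a a' p) ^ 2 := by
    intro i hi
    have h6 := hbad i hi
    rw [← hℓ] at h6
    push Not at h6
    have h7 : (l * √ℓ) ^ 2 ≤ |∑ p ∈ pri x, HH a a' p (v i) - ∑ p ∈ pri x, cc a a' p| ^ 2 := pow_le_pow_left₀ (by positivity) h6.le 2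
    rw [mul_pow, Real.sq_sqrt hℓ0.le, sq_abs] at h7
    exact h7
  have h6 : (∑ i ∈ E, w i) * (l ^ 2 * ℓ) ≤ C * ℓ := by
    rw [sum_mul]
    calc ∑ i ∈ E, w i * (l ^ 2 * ℓ) ≤ ∑ i ∈ E, w i * (∑ p ∈ pri x, HH a a' p (v i) - ∑ p ∈ pri x, cc a a' p) ^ 2 :=
          sum_le_sum fun i hi => mul_le_mul_of_nonneg_left (h5 i hi) (hdec.nonneg i (hE hi))
      _ ≤ ∑ i ∈ Ω, w i * (∑ p ∈ pri x, HH a a' p (v i) - ∑ p ∈ pri x, cc a a' p) ^ 2 :=
          sum_le_sum_of_subset_of_nonneg hE fun i hi _ => mul_nonneg (hdec.nonneg i hi) (sq_nonneg _)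
      _ ≤ C * ℓ := hms
  rw [le_div_iff₀ (by positivity)]
  rw [← mul_assoc] at h6
  exact le_of_mul_le_mul_right h6 hℓ0

end Pool.Agent.H491R4.TW
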