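import Pool.Agent.H491R4.TW2

set_option autoImplicit false

/-! The mean square of the sums of the traces over the quadratic twists by the members of an automatic set. -/

namespace Pool.Agent.H491R4.TW
open Finset
open Pool.Agent.R459.Eq
open Pool.Agent.R459.Bsd
open Pool.Agent.H491R4.AF
open Pool.Agent.W263.BSD (GoodPrime pointCount)

lemma TT_congr {p : ℕ} {a a' n n' : ℤ} (ha : (p : ℤ) ∣ a - a') (hn : (p : ℤ) ∣ n - n') : TT a p n = TT a' p n' := by
  classical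
  unfold TT
  rw [pc_congr ha hn]
  exact if_congr (good_congr ha hn) rfl rfl

/-- the trace of the twist by `D` of `y² = x³ + a x + b` -/
noncomputable def HT (a b : ℤ) (p : ℕ) (D : ℤ) : ℝ := TT (a * D ^ 2) p (b * D ^ 3)

lemma HT_per (a b : ℤ) (p : ℕ) : Per p (HT a b p) := by
  intro m n h
  unfold HT
  apply TT_congr
  · have : a * m ^ 2 - a * n ^ 2 = (m - n) * (a * (m + n)) := by ring
    rw [this]
    exact h.mul_right _
  · have : b * m ^ 3 - b * n ^ 3 = (m - n) * (b * (m ^ 2 + m * n + n ^ 2)) := by ring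
    rw [this]
    exact h.mul_right _

lemma mean_HT {p : ℕ} (hpp : p.Prime) (hp2 : p ≠ 2) (a b : ℤ) : mean p (HT a b p) = 0 := by
  classical
  haveI : Fact p.Prime := ⟨hpp⟩
  obtain ⟨T, hT⟩ : ∃ T : ℝ, T = if GoodPrime a b p then tr p (a : ZMod p) (b : ZMod p) else 0 := ⟨_, rfl⟩
  have hval : ∀ t : ℤ, HT a b p t = ch p (t : ZMod p) * T := by
    intro t
    unfold HT
    by_cases h0 : ((t : ℤ) : ZMod p) = 0
    · rw [h0, ch_zero, zero_mul]
      unfold TT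
      rw [if_neg]
      rw [good_twist]
      rintro ⟨_, h1⟩
      exact h1 ((ZMod.intCast_zmod_eq_zero_iff_dvd _ _).1 h0)
    · by_cases hg : GoodPrime a b p
      · have hgt : GoodPrime (a * t ^ 2) (b * t ^ 3) p := by
          rw [good_twist]
          exact ⟨hg, fun h1 => h0 ((ZMod.intCast_zmod_eq_zero_iff_dvd _ _).2 h1)⟩
        unfold TT
        rw [if_pos hgt, hT, if_pos hg, pc_eq hp2]
        push_cast
        rw [tr_twist _ _ h0]
      · unfold TT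
        rw [if_neg, hT, if_neg hg, mul_zero]
        rw [good_twist]
        rintro ⟨h1, _⟩
        exact hg h1
  unfold mean
  simp only [hval]
  rw [sum_zmod (p := p) (fun z : ZMod p => ch p z * T), ← sum_mul, ch_sum hp2, zero_mul, zero_div]

lemma theta_bound (x : ℕ) : ∑ p ∈ pri x, Real.log p ≤ 2 * x := by
  have h1 := Chebyshev.theta_le_log4_mul_x (x := (x : ℝ)) (Nat.cast_nonneg x)
  have h2 : Chebyshev.theta (x : ℝ) = ∑ p ∈ pri x, Real.log p := by
    unfold Chebyshev.theta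
    rw [Nat.floor_natCast]
    apply sum_congr _ fun p _ => rfl
    ext p
    rw [mem_filter, mem_Ioc, mem_pri]
    constructor
    · rintro ⟨⟨_, h3⟩, h4⟩
      exact ⟨h3, h4⟩
    · rintro ⟨h3, h4⟩
      exact ⟨⟨h4.pos, h3⟩, h4⟩
  rw [h2] at h1
  refine h1.trans ?_
  apply mul_le_mul_of_nonneg_right _ (Nat.cast_nonneg x)
  have h3 : Real.log 4 = 2 * Real.log 2 := by
    rw [show (4 : ℝ) = 2 ^ 2 by norm_num, Real.log_pow]
    norm_num
  have h4 := Real.log_two_lt_d9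
  rw [h3]
  linarith

lemma log_le_sqrt {x : ℝ} (hx : 0 < x) : Real.log x ≤ 2 * √x := by
  have h1 : Real.log x = 2 * Real.log (√x) := by
    rw [Real.log_sqrt hx.le]
    ring
  have h2 := Real.log_le_sub_one_of_pos (Real.sqrt_pos.2 hx)
  linarith

/-- the mean square of the weighted sums of the traces, for the twists of any curve -/
theorem tws_ms_from (b : ℕ) (hb : 2 ≤ b) (A : ℕ) (γ : ℝ) (hγ0 : 0 < γ) (hγ1 : γ < 1) : ∃ W : ℕ, 1 ≤ W ∧
    ∀ (F : ℕ) (κ : ℤ), 1 ≤ F → κ ≠ 0 → ∃ C : ℝ, 0 < C ∧ ∀ (a a' : ℤ) (g : ℕ → ℝ), (∀ p, |g p| ≤ 1) →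
    ∀ (k x t₀ : ℕ), 16 ≤ x → b ≤ x → x ^ W ≤ b ^ k → b ^ t₀ ≤ x →
    ∀ (ι : Type) (Ω : Finset ι) (w : ι → ℝ) (v : ι → ℤ), DecaysFrom b F A k t₀ γ κ Ω w v →
      ∑ i ∈ Ω, w i * (∑ p ∈ pri x, g p * HT a a' p (v i) * Real.log p) ^ 2 ≤ C * ((x : ℝ) ^ 2 * Real.log x) := by
  classical
  obtain ⟨W, hW, H⟩ := wms_from b hb A γ hγ0 hγ1
  refine ⟨W, hW, fun F κ hF hκ => ?_⟩
  obtain ⟨S, C, hC, hcount, hmain⟩ := H F κ hF hκ
  obtain ⟨p₀, hp₀⟩ : ∃ p₀ : ℕ, p₀ = 29 + b + 1 := ⟨_, rfl⟩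
  obtain ⟨K₃, hK₃⟩ : ∃ K₃ : ℝ, K₃ = (p₀ : ℝ) * (2 * (p₀ : ℝ) ^ 2 * p₀) := ⟨_, rfl⟩
  have hK₃0 : 0 ≤ K₃ := by rw [hK₃]; positivity
  refine ⟨2 * K₃ ^ 2 + 2 * (4 * (9 + 16 * C)), by positivity, fun a a' g hg k x t₀ hx16 hbx hxW ht₀ ι Ω w v hdec => ?_⟩
  have hxr : (16 : ℝ) ≤ x := by exact_mod_cast hx16
  have hx0 : (0 : ℝ) < x := by linarith
  obtain ⟨lx, hlx⟩ : ∃ l, l = Real.log x := ⟨_, rfl⟩
  have hlx1 : 1 ≤ lx := by
    rw [hlx, Real.le_log_iff_exp_le hx0]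
    have := Real.exp_one_lt_d9
    linarith
  have hlx0 : 0 < lx := by linarith
  have hs0 : 0 < √(x : ℝ) := Real.sqrt_pos.2 hx0
  have hss : √(x : ℝ) * √(x : ℝ) = x := Real.mul_self_sqrt hx0.le
  have hlxs : lx ≤ 2 * √(x : ℝ) := by rw [hlx]; exact log_le_sqrt hx0
  have hlxx : lx ≤ x := by
    rw [hlx]
    have := Real.log_le_sub_one_of_pos hx0
    linarith
  obtain ⟨M, hM⟩ : ∃ M : ℝ, M = √(x : ℝ) * lx := ⟨_, rfl⟩
  have hM0 : 0 < M := by rw [hM]; positivity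
  have hM2 : M ^ 2 = x * lx ^ 2 := by rw [hM, mul_pow, sq (√(x : ℝ)), hss]
  obtain ⟨P, hP⟩ : ∃ P : Finset ℕ, P = (pri x).filter (fun p => ¬ p < p₀) := ⟨_, rfl⟩
  have hPm : ∀ p ∈ P, p.Prime ∧ p ≤ x ∧ p₀ ≤ p := by
    intro p hp
    rw [hP, mem_filter, mem_pri] at hp
    exact ⟨hp.1.2, hp.1.1, by omega⟩
  have hPb : ∀ p ∈ P, p.Prime ∧ p ≤ x ∧ ¬ p ∣ b := by
    intro p hp
    have h1 := hPm p hp
    refine ⟨h1.1, h1.2.1, fun h2 => ?_⟩
    have := Nat.le_of_dvd (by omega) h2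
    omega
  obtain ⟨c, hc⟩ : ∃ c : ℕ → ℝ, c = fun p : ℕ => if p ≤ x then √(p : ℝ) * Real.log p / M else 0 := ⟨_, rfl⟩
  have hlogp : ∀ p : ℕ, p ≤ x → 0 ≤ Real.log p ∧ Real.log p ≤ lx := by
    intro p hp
    refine ⟨Real.log_natCast_nonneg p, ?_⟩
    rcases Nat.eq_zero_or_pos p with h | h
    · rw [h, Nat.cast_zero, Real.log_zero]
      exact hlx0.le
    · rw [hlx]
      exact Real.log_le_log (by exact_mod_cast h) (by exact_mod_cast hp)
  have hc01 : ∀ p, 0 ≤ c p ∧ c p ≤ 1 := by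
    intro p
    rw [hc]
    simp only
    split_ifs with h
    · have h1 := hlogp p h
      have h2 : √(p : ℝ) ≤ √(x : ℝ) := Real.sqrt_le_sqrt (by exact_mod_cast h)
      refine ⟨div_nonneg (mul_nonneg (Real.sqrt_nonneg _) h1.1) hM0.le, ?_⟩
      rw [div_le_one hM0, hM]
      exact mul_le_mul h2 h1.2 h1.1 hs0.le
    · exact ⟨le_rfl, zero_le_one⟩
  have h1 := hmain k x t₀ hbx hxW ht₀ ι Ω w v hdec P hPb (fun p n => g p * HT a a' p n * Real.log p / (2 * M)) c (fun m => √(m : ℝ) / x)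
    hc01
    (by
      intro p hp n
      have h1 := hPm p hp
      have h2 := TT_abs h1.1 (by omega) (a * n ^ 2) (a' * n ^ 3)
      have h3 := (hlogp p h1.2.1).1
      rw [hc]
      simp only
      rw [if_pos h1.2.1, abs_div, abs_of_pos (show (0 : ℝ) < 2 * M by positivity), abs_mul, abs_mul, abs_of_nonneg h3,
        div_le_div_iff₀ (by positivity) hM0]
      have h4 : |g p| * |HT a a' p n| ≤ 1 * (2 * √(p : ℝ)) := by
        unfold HT
        exact mul_le_mul (hg p) h2 (abs_nonneg _) zero_le_one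
      calc |g p| * |HT a a' p n| * Real.log p * M ≤ 1 * (2 * √(p : ℝ)) * Real.log p * M :=
            mul_le_mul_of_nonneg_right (mul_le_mul_of_nonneg_right h4 h3) hM0.le
        _ = √(p : ℝ) * Real.log p * (2 * M) := by ring)
    (by
      intro p hp m n hmn
      show g p * HT a a' p m * Real.log p / (2 * M) = g p * HT a a' p n * Real.log p / (2 * M)
      rw [HT_per a a' p m n hmn])
    (by intro m; positivity)
    (by
      intro p hp q hq
      have h1 := hPm p hp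
      have h2 := hPm q hq
      have h3 := hlogp p h1.2.1
      have h4 := hlogp q h2.2.1
      rw [hc]
      simp only
      rw [if_pos h1.2.1, if_pos h2.2.1]
      push_cast
      rw [Real.sqrt_mul (Nat.cast_nonneg _), div_mul_div_comm, div_le_div_iff₀ (by positivity) hx0]
      have e1 : M * M = x * (lx * lx) := by rw [← sq, hM2, sq]
      rw [e1]
      have h5 : Real.log p * Real.log q ≤ lx * lx := mul_le_mul h3.2 h4.2 h4.1 hlx0.le
      calc √(p : ℝ) * Real.log p * (√(q : ℝ) * Real.log q) * x = √(p : ℝ) * √(q : ℝ) * x * (Real.log p * Real.log q) := by ring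
        _ ≤ √(p : ℝ) * √(q : ℝ) * x * (lx * lx) := mul_le_mul_of_nonneg_left h5 (by positivity)
        _ = _ := by ring)
  have hsp : ∑ m ∈ (Icc 1 (x ^ 2)).filter (fun m => m ∈ S), √(m : ℝ) / x ≤ C * √(x : ℝ) := by
    have h2 : ∀ m ∈ (Icc 1 (x ^ 2)).filter (fun m => m ∈ S), √(m : ℝ) / x ≤ 1 := by
      intro m hm
      rw [mem_filter, mem_Icc] at hm
      rw [div_le_one hx0]
      apply Real.sqrt_le_iff.2
      refine ⟨hx0.le, ?_⟩
      exact_mod_cast hm.1.2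
    refine (sum_le_card_nsmul _ _ _ h2).trans ?_
    rw [nsmul_eq_mul, mul_one]
    have h3 := hcount (x ^ 2) ((Icc 1 (x ^ 2)).filter (fun m => m ∈ S)) (by
      intro m hm
      rw [mem_filter, mem_Icc] at hm
      exact ⟨hm.2, hm.1.1, hm.1.2⟩)
    refine h3.trans (le_of_eq ?_)
    congr 1
    push_cast
    rw [← Real.rpow_natCast (x : ℝ) 2, ← Real.rpow_mul hx0.le, Real.sqrt_eq_rpow]
    norm_num
  have hc2 : ∑ p ∈ P, (c p) ^ 2 ≤ 2 * x / lx := by
    have h2 : ∀ p ∈ P, (c p) ^ 2 ≤ Real.log p / lx := by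
      intro p hp
      have h3 := hPm p hp
      have h4 := hlogp p h3.2.1
      rw [hc]
      simp only
      rw [if_pos h3.2.1, div_pow, mul_pow, Real.sq_sqrt (Nat.cast_nonneg _), hM2, div_le_div_iff₀ (by positivity) hlx0]
      have h5 : (p : ℝ) ≤ x := by exact_mod_cast h3.2.1
      calc (p : ℝ) * Real.log p ^ 2 * lx = (p : ℝ) * (Real.log p * (Real.log p * lx)) := by ring
        _ ≤ x * (Real.log p * (lx * lx)) := by
            apply mul_le_mul h5 _ _ hx0.le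
            · exact mul_le_mul_of_nonneg_left (mul_le_mul_of_nonneg_right h4.2 hlx0.le) h4.1
            · exact mul_nonneg h4.1 (mul_nonneg h4.1 hlx0.le)
        _ = Real.log p * (x * lx ^ 2) := by ring
    refine (sum_le_sum h2).trans ?_
    rw [← sum_div]
    apply div_le_div_of_nonneg_right _ hlx0.le
    refine le_trans ?_ (theta_bound x)
    rw [hP]
    exact sum_le_sum_of_subset_of_nonneg (filter_subset _ _) fun p _ _ => Real.log_natCast_nonneg p
  have hmean0 : ∀ p ∈ P, mean p (fun n => g p * HT a a' p n * Real.log p / (2 * M)) = 0 := by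
    intro p hp
    have h3 := mean_HT (hPm p hp).1 (by have := (hPm p hp).2.2; omega) a a'
    unfold mean at h3 ⊢
    have e1 : ∑ t ∈ range p, g p * HT a a' p (t : ℤ) * Real.log p / (2 * M) = (∑ t ∈ range p, HT a a' p (t : ℤ)) * (g p * Real.log p / (2 * M)) := by
      rw [sum_mul]
      exact sum_congr rfl fun t _ => by ring
    rw [e1, mul_div_right_comm, h3, zero_mul]
  obtain ⟨Bi, hBi⟩ : ∃ Bi : ι → ℝ, Bi = fun i => ∑ p ∈ P, g p * HT a a' p (v i) * Real.log p := ⟨_, rfl⟩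
  have hsx : √(x : ℝ) ≤ 2 * (x / lx) := by
    rw [← mul_div_assoc, le_div_iff₀ hlx0]
    nlinarith
  have h1x : 1 ≤ (x : ℝ) / lx := by rw [le_div_iff₀ hlx0]; linarith
  have hB : ∑ i ∈ Ω, w i * (Bi i) ^ 2 ≤ 4 * (9 + 16 * C) * ((x : ℝ) ^ 2 * lx) := by
    have h2 : ∀ i ∈ Ω, w i * (Bi i) ^ 2 = (4 * M ^ 2) * (w i * (∑ p ∈ P, (g p * HT a a' p (v i) * Real.log p / (2 * M) -
        mean p (fun n => g p * HT a a' p n * Real.log p / (2 * M)))) ^ 2) := by
      intro i _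
      have h3 : ∑ p ∈ P, (g p * HT a a' p (v i) * Real.log p / (2 * M) -
          mean p (fun n => g p * HT a a' p n * Real.log p / (2 * M))) = Bi i / (2 * M) := by
        rw [hBi, sum_div]
        apply sum_congr rfl
        intro p hp
        rw [hmean0 p hp, sub_zero]
      rw [h3]
      field_simp
      ring
    rw [sum_congr rfl h2, ← mul_sum]
    have h3 : ∑ i ∈ Ω, w i * (∑ p ∈ P, (g p * HT a a' p (v i) * Real.log p / (2 * M) -
        mean p (fun n => g p * HT a a' p n * Real.log p / (2 * M)))) ^ 2 ≤ (9 + 16 * C) * (x / lx) := by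
      refine h1.trans ?_
      have h4 : 4 * ∑ p ∈ P, (c p) ^ 2 ≤ 8 * (x / lx) := by
        have : 4 * (2 * (x : ℝ) / lx) = 8 * (x / lx) := by ring
        linarith
      have h5 : 8 * ∑ m ∈ (Icc 1 (x ^ 2)).filter (fun m => m ∈ S), √(m : ℝ) / x ≤ 16 * C * (x / lx) := by
        calc 8 * ∑ m ∈ (Icc 1 (x ^ 2)).filter (fun m => m ∈ S), √(m : ℝ) / x ≤ 8 * (C * √(x : ℝ)) := by linarith
          _ ≤ 8 * (C * (2 * (x / lx))) := by
              apply mul_le_mul_of_nonneg_left _ (by norm_num)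
              exact mul_le_mul_of_nonneg_left hsx hC.le
          _ = _ := by ring
      linarith
    calc (4 * M ^ 2) * _ ≤ (4 * M ^ 2) * ((9 + 16 * C) * (x / lx)) := mul_le_mul_of_nonneg_left h3 (by positivity)
      _ = _ := by
          rw [hM2]
          field_simp
  have hA : ∀ i, |∑ p ∈ (pri x).filter (fun p => p < p₀), g p * HT a a' p (v i) * Real.log p| ≤ K₃ := by
    intro i
    refine (abs_sum_le_sum_abs _ _).trans ?_
    have h2 : ∀ p ∈ (pri x).filter (fun p => p < p₀), |g p * HT a a' p (v i) * Real.log p| ≤ 2 * (p₀ : ℝ) ^ 2 * p₀ := by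
      intro p hp
      rw [mem_filter, mem_pri] at hp
      have hp1 : (1 : ℝ) ≤ p := by exact_mod_cast hp.1.2.one_le
      have hpp₀ : (p : ℝ) ≤ p₀ := by exact_mod_cast hp.2.le
      rw [abs_mul, abs_mul, abs_of_nonneg (Real.log_nonneg hp1)]
      have h5 : Real.log p ≤ p₀ := by
        have := Real.log_le_sub_one_of_pos (by linarith : (0 : ℝ) < p)
        linarith
      have h6 : |HT a a' p (v i)| ≤ 2 * (p : ℝ) ^ 2 := TT_crude hp.1.2 _ _
      have h7 : 2 * (p : ℝ) ^ 2 ≤ 2 * (p₀ : ℝ) ^ 2 := by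
        have := pow_le_pow_left₀ (Nat.cast_nonneg _) hpp₀ 2
        linarith
      have h8 : |g p| * |HT a a' p (v i)| ≤ 1 * (2 * (p₀ : ℝ) ^ 2) := mul_le_mul (hg p) (h6.trans h7) (abs_nonneg _) zero_le_one
      rw [one_mul] at h8
      exact mul_le_mul h8 h5 (Real.log_nonneg hp1) (by positivity)
    refine (sum_le_card_nsmul _ _ _ h2).trans ?_
    rw [nsmul_eq_mul, hK₃]
    apply mul_le_mul_of_nonneg_right _ (by positivity)
    have h5 : (pri x).filter (fun p => p < p₀) ⊆ range p₀ := by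
      intro p hp
      rw [mem_range]
      exact (mem_filter.1 hp).2
    have h6 := card_le_card h5
    rw [card_range] at h6
    exact_mod_cast h6
  rw [← hlx]
  have hterm : ∀ i ∈ Ω, w i * (∑ p ∈ pri x, g p * HT a a' p (v i) * Real.log p) ^ 2 ≤ 2 * K₃ ^ 2 * w i + 2 * (w i * (Bi i) ^ 2) := by
    intro i hi
    obtain ⟨α, hα⟩ : ∃ α, α = ∑ p ∈ (pri x).filter (fun p => p < p₀), g p * HT a a' p (v i) * Real.log p := ⟨_, rfl⟩
    have h2 : ∑ p ∈ pri x, g p * HT a a' p (v i) * Real.log p = α + Bi i := by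
      rw [sum_pri_split p₀ x (fun p => g p * HT a a' p (v i) * Real.log p), ← hP, hα, hBi]
    have h3 : α ^ 2 ≤ K₃ ^ 2 := by
      rw [← sq_abs, hα]
      exact pow_le_pow_left₀ (abs_nonneg _) (hA i) 2
    rw [h2]
    have h5 : (α + Bi i) ^ 2 ≤ 2 * K₃ ^ 2 + 2 * (Bi i) ^ 2 := by
      nlinarith [sq_nonneg (α - Bi i)]
    have h6 := hdec.nonneg i hi
    calc w i * (α + Bi i) ^ 2 ≤ w i * (2 * K₃ ^ 2 + 2 * (Bi i) ^ 2) := mul_le_mul_of_nonneg_left h5 h6
      _ = _ := by ring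
  refine (sum_le_sum hterm).trans ?_
  rw [sum_add_distrib, ← mul_sum, hdec.sum, ← mul_sum]
  have h7 : 1 ≤ (x : ℝ) ^ 2 * lx := by nlinarith
  have h8 : 2 * K₃ ^ 2 * 1 ≤ 2 * K₃ ^ 2 * ((x : ℝ) ^ 2 * lx) := mul_le_mul_of_nonneg_left h7 (by positivity)
  linarith

variable {σ : Type}

/-- the weighted sums of the traces, for the twists by the members of automatic sets -/
theorem tws_aut [Fintype σ] (b : ℕ) (hb : 2 ≤ b) (M : DFA ℕ σ)
    (hS : ∀ k : ℕ, ∃ᶠ N : ℕ in Filter.atTop, Real.log N ^ k < (acc b M N (fun _ => True) : ℝ)) :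
    ∃ W e N₀ : ℕ, 1 ≤ W ∧ ∀ κ : ℤ, κ ≠ 0 → ∃ C : ℝ, 0 < C ∧ ∀ N : ℕ, N₀ ≤ N → ∀ a a' c : ℤ, ∀ g : ℕ → ℝ, (∀ p, |g p| ≤ 1) → ∀ x : ℕ,
      Real.log N ^ e ≤ x → x ^ W ≤ N → ∀ l : ℝ, 0 < l →
      AlmostS b M N κ c (C / l ^ 2) (fun D =>
        |∑ p ∈ pri x, g p * HT a a' p D * Real.log p| ≤ l * (x * √(Real.log x))) := by
  classical
  obtain ⟨B, A, e, N₀, C₁, hB, he, hC₁, H⟩ := aut_direct b hb M hS
  obtain ⟨W, hW, K⟩ := tws_ms_from B hB A (1 / 2) (by norm_num) (by norm_num)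
  refine ⟨W, e, N₀ + 1, hW, fun κ hκ => ?_⟩
  obtain ⟨C, hC, J⟩ := K B.factorial κ (Nat.factorial_pos _) hκ
  refine ⟨C₁ * C, by positivity, fun N hN a a' c g hg x hx hxW l hl => ?_⟩
  obtain ⟨hlog, t₀, ht₀, HH'⟩ := H N (by omega)
  have hB2 : (2 : ℝ) ≤ B := by exact_mod_cast hB
  have hlog1 : 1 ≤ Real.log N := by linarith
  have hxr : (16 + B : ℝ) ≤ x := by
    calc (16 + B : ℝ) ≤ Real.log N := hlog
      _ = Real.log N ^ 1 := (pow_one _).symm
      _ ≤ Real.log N ^ e := pow_le_pow_right₀ hlog1 he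
      _ ≤ x := hx
  have hxn : 16 + B ≤ x := by exact_mod_cast hxr
  have ht₀x : B ^ t₀ ≤ x := by exact_mod_cast ht₀.trans hx
  have hN2 : N < B ^ (Nat.log B N + 1) := Nat.lt_pow_succ_log_self (by omega) N
  rw [mul_div_assoc]
  refine HH' κ c (C / l ^ 2) _ fun ι Ω w v hdec E hE hbad => ?_
  have hms := J a a' g hg (Nat.log B N + 1) x t₀ (by omega) (by omega) (hxW.trans hN2.le) ht₀x ι Ω w v hdec
  have hx0 : (0 : ℝ) < x := by linarith
  have hℓ0 : 0 < Real.log (x : ℝ) := Real.log_pos (by linarith)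
  have h5 : ∀ i ∈ E, l ^ 2 * ((x : ℝ) ^ 2 * Real.log x) ≤ (∑ p ∈ pri x, g p * HT a a' p (v i) * Real.log p) ^ 2 := by
    intro i hi
    have h6 := hbad i hi
    push Not at h6
    have h7 : (l * (x * √(Real.log x))) ^ 2 ≤ |∑ p ∈ pri x, g p * HT a a' p (v i) * Real.log p| ^ 2 :=
      pow_le_pow_left₀ (by positivity) h6.le 2
    rw [mul_pow, mul_pow, Real.sq_sqrt hℓ0.le, sq_abs] at h7
    exact h7
  have h6 : (∑ i ∈ E, w i) * (l ^ 2 * ((x : ℝ) ^ 2 * Real.log x)) ≤ C * ((x : ℝ) ^ 2 * Real.log x) := by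
    rw [sum_mul]
    calc ∑ i ∈ E, w i * (l ^ 2 * ((x : ℝ) ^ 2 * Real.log x)) ≤ ∑ i ∈ E, w i * (∑ p ∈ pri x, g p * HT a a' p (v i) * Real.log p) ^ 2 :=
          sum_le_sum fun i hi => mul_le_mul_of_nonneg_left (h5 i hi) (hdec.nonneg i (hE hi))
      _ ≤ ∑ i ∈ Ω, w i * (∑ p ∈ pri x, g p * HT a a' p (v i) * Real.log p) ^ 2 :=
          sum_le_sum_of_subset_of_nonneg hE fun i hi _ => mul_nonneg (hdec.nonneg i hi) (sq_nonneg _)
      _ ≤ C * ((x : ℝ) ^ 2 * Real.log x) := hms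
  rw [le_div_iff₀ (by positivity)]
  rw [← mul_assoc] at h6
  exact le_of_mul_le_mul_right h6 (by positivity)

end Pool.Agent.H491R4.TW
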